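import Mathlib
import Pool.Graph.R_seed8.H373R2.NB.SupE

set_option autoImplicit false

/-! Bohr sets in cyclic groups, smoothing, convolutions. -/

namespace Pool.Agent.H563.RG

open Finset
open Pool.Agent.H373R2.NB (hat parseval sum_chi norm_chi chi_conj norm_one_sub_ee_le hat_shift)
open Pool.Agent.Helper602.MK (ee)

variable {N : ℕ} [NeZero N]

/-- Bohr sets -/
def bohr (L : Finset (ZMod N)) (T : ℕ) : Finset (ZMod N) :=
  univ.filter (fun h => ∀ ξ ∈ L, (ξ * h).valMinAbs.natAbs * T ≤ N)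

lemma mem_bohr (L : Finset (ZMod N)) (T : ℕ) (h : ZMod N) :
    h ∈ bohr L T ↔ ∀ ξ ∈ L, (ξ * h).valMinAbs.natAbs * T ≤ N := by
  unfold bohr
  rw [mem_filter]
  exact ⟨fun h => h.2, fun h => ⟨mem_univ _, h⟩⟩

lemma zero_mem_bohr (L : Finset (ZMod N)) (T : ℕ) : (0 : ZMod N) ∈ bohr L T := by
  rw [mem_bohr]
  intro ξ _
  simp

lemma bohr_pos (L : Finset (ZMod N)) (T : ℕ) : (0 : ℝ) < (bohr L T).card := by
  exact_mod_cast card_pos.2 ⟨0, zero_mem_bohr L T⟩

lemma vma_le (z : ℤ) : ((z : ZMod N)).valMinAbs.natAbs ≤ z.natAbs := by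
  apply ZMod.natAbs_min_of_le_div_two N
  · rw [ZMod.coe_valMinAbs]
  · exact ZMod.natAbs_valMinAbs_le _

lemma bohr_card (L : Finset (ZMod N)) (T : ℕ) (hT : 1 ≤ T) : N ≤ (bohr L T).card * T ^ L.card := by
  classical
  have hN : 0 < N := Nat.pos_of_ne_zero (NeZero.ne N)
  have hlt : ∀ h : ZMod N, h.val * T / N < T := by
    intro h
    rw [Nat.div_lt_iff_lt_mul hN, mul_comm T N]
    exact Nat.mul_lt_mul_of_pos_right (ZMod.val_lt h) (by omega)
  set f : ZMod N → (L → Fin T) := fun h ξ => ⟨(ξ.1 * h).val * T / N, hlt _⟩ with hf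
  have h1 := card_le_mul_card_image (f := f) (univ : Finset (ZMod N)) (bohr L T).card (by
    intro b hb
    rw [mem_image] at hb
    obtain ⟨h₀, _, rfl⟩ := hb
    apply card_le_card_of_injOn (fun h => h - h₀)
    · intro h hh
      rw [mem_coe, mem_filter] at hh
      rw [mem_coe, mem_bohr]
      intro ξ hξ
      have h2 := congrFun hh.2 ⟨ξ, hξ⟩
      simp only [hf, Fin.mk.injEq] at h2
      have e : ξ * (h - h₀) = ((((ξ * h).val : ℤ) - ((ξ * h₀).val : ℤ) : ℤ) : ZMod N) := by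
        push_cast
        rw [ZMod.natCast_zmod_val, ZMod.natCast_zmod_val]
        ring
      rw [e]
      refine (Nat.mul_le_mul_right T (vma_le _)).trans ?_
      have h3 := Nat.div_add_mod ((ξ * h).val * T) N
      have h4 := Nat.div_add_mod ((ξ * h₀).val * T) N
      have h5 := Nat.mod_lt ((ξ * h).val * T) hN
      have h6 := Nat.mod_lt ((ξ * h₀).val * T) hN
      rw [h2] at h3
      have h7 : ((((ξ * h).val : ℤ) - ((ξ * h₀).val : ℤ)).natAbs * T : ℕ) = ((((ξ * h).val * T : ℕ) : ℤ) - (((ξ * h₀).val * T : ℕ) : ℤ)).natAbs := by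
        have : ((((ξ * h).val * T : ℕ) : ℤ) - (((ξ * h₀).val * T : ℕ) : ℤ)) = (((ξ * h).val : ℤ) - ((ξ * h₀).val : ℤ)) * (T : ℤ) := by
          push_cast; ring
        rw [this, Int.natAbs_mul, Int.natAbs_natCast]
      rw [h7]
      omega
    · intro a _ b _ hab
      simpa using hab)
  rw [card_univ, ZMod.card] at h1
  refine h1.trans (Nat.mul_le_mul_left _ ?_)
  refine (card_le_card (subset_univ _)).trans ?_
  rw [card_univ, Fintype.card_fun, Fintype.card_fin, Fintype.card_coe]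

lemma chi_near (t : ZMod N) (T : ℕ) (hT : 1 ≤ T) (h : t.valMinAbs.natAbs * T ≤ N) :
    ‖1 - (ZMod.stdAddChar t : ℂ)‖ ≤ 8 / T := by
  have hN : 0 < N := Nat.pos_of_ne_zero (NeZero.ne N)
  have hN0 : (0 : ℝ) < N := by exact_mod_cast hN
  have hT0 : (0 : ℝ) < T := by exact_mod_cast hT
  have e : (ZMod.stdAddChar t : ℂ) = ee ((t.valMinAbs : ℝ) / N) := by
    conv_lhs => rw [← ZMod.coe_valMinAbs t]
    rw [ZMod.stdAddChar_coe]
    unfold ee
    congr 1
    push_cast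
    ring
  rw [e]
  refine (norm_one_sub_ee_le _).trans ?_
  rw [abs_div, abs_of_pos hN0, mul_div_assoc', div_le_div_iff₀ hN0 hT0]
  have h1 : |((t.valMinAbs : ℤ) : ℝ)| = (t.valMinAbs.natAbs : ℝ) := by
    rw [Nat.cast_natAbs, Int.cast_abs]
  rw [h1]
  have h2 : (t.valMinAbs.natAbs : ℝ) * T ≤ N := by exact_mod_cast h
  linarith

/-- the mean of the characters over the Bohr set -/
noncomputable def bb (B : Finset (ZMod N)) (ξ : ZMod N) : ℂ := (1 / (B.card : ℂ)) * ∑ h ∈ B, (ZMod.stdAddChar (ξ * h) : ℂ)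

/-- its square -/
noncomputable def br (B : Finset (ZMod N)) (ξ : ZMod N) : ℝ := ‖bb B ξ‖ ^ 2

lemma br_nonneg (B : Finset (ZMod N)) (ξ : ZMod N) : 0 ≤ br B ξ := by unfold br; positivity

lemma bb_le (B : Finset (ZMod N)) (hB : 0 < B.card) (ξ : ZMod N) : ‖bb B ξ‖ ≤ 1 := by
  unfold bb
  rw [norm_mul, norm_div, norm_one, Complex.norm_natCast]
  have h1 : ‖∑ h ∈ B, (ZMod.stdAddChar (ξ * h) : ℂ)‖ ≤ B.card := by
    refine (norm_sum_le _ _).trans ?_
    simp [norm_chi]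
  have hB0 : (0 : ℝ) < B.card := by exact_mod_cast hB
  calc 1 / (B.card : ℝ) * ‖∑ h ∈ B, (ZMod.stdAddChar (ξ * h) : ℂ)‖ ≤ 1 / (B.card : ℝ) * B.card :=
        mul_le_mul_of_nonneg_left h1 (by positivity)
    _ = 1 := by field_simp

lemma br_le (B : Finset (ZMod N)) (hB : 0 < B.card) (ξ : ZMod N) : br B ξ ≤ 1 := by
  unfold br
  have h1 := bb_le B hB ξ
  have h2 := norm_nonneg (bb B ξ)
  nlinarith

lemma br_near (B : Finset (ZMod N)) (hB : 0 < B.card) (ξ : ZMod N) (δ : ℝ)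
    (h : ∀ x ∈ B, ‖1 - (ZMod.stdAddChar (ξ * x) : ℂ)‖ ≤ δ) : 1 - br B ξ ≤ 2 * δ := by
  have hB0 : (0 : ℝ) < B.card := by exact_mod_cast hB
  have hBc : (B.card : ℂ) ≠ 0 := by exact_mod_cast hB.ne'
  have h1 : ‖1 - bb B ξ‖ ≤ δ := by
    have e : 1 - bb B ξ = (1 / (B.card : ℂ)) * ∑ x ∈ B, (1 - (ZMod.stdAddChar (ξ * x) : ℂ)) := by
      unfold bb
      rw [sum_sub_distrib, sum_const, nsmul_eq_mul, mul_one]
      field_simp
    rw [e, norm_mul, norm_div, norm_one, Complex.norm_natCast]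
    calc 1 / (B.card : ℝ) * ‖∑ x ∈ B, (1 - (ZMod.stdAddChar (ξ * x) : ℂ))‖ ≤ 1 / (B.card : ℝ) * (B.card * δ) := by
          apply mul_le_mul_of_nonneg_left _ (by positivity)
          refine (norm_sum_le _ _).trans ?_
          refine (sum_le_sum h).trans ?_
          rw [sum_const, nsmul_eq_mul]
      _ = δ := by field_simp
  have h2 : 1 - ‖bb B ξ‖ ≤ δ := by
    have := norm_sub_norm_le (1 : ℂ) (bb B ξ)
    rw [norm_one] at this
    linarith
  have h3 := bb_le B hB ξ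
  have h4 := norm_nonneg (bb B ξ)
  unfold br
  nlinarith

lemma br_sum (B : Finset (ZMod N)) (hB : 0 < B.card) : ∑ ξ : ZMod N, br B ξ = N / B.card := by
  classical
  have hB0 : (0 : ℝ) < B.card := by exact_mod_cast hB
  have h1 := parseval (M := N) (fun x => if x ∈ B then (1 : ℝ) else 0)
  have h2 : ∀ ξ : ZMod N, ‖hat (fun x : ZMod N => if x ∈ B then (1 : ℝ) else 0) ξ‖ ^ 2 = (B.card : ℝ) ^ 2 * br B ξ := by
    intro ξ
    have e : hat (fun x : ZMod N => if x ∈ B then (1 : ℝ) else 0) ξ = (B.card : ℂ) * bb B ξ := by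
      unfold hat bb
      have h3 : ∀ m : ZMod N, (((if m ∈ B then (1 : ℝ) else 0 : ℝ)) : ℂ) * ZMod.stdAddChar (ξ * m) =
          if m ∈ B then (ZMod.stdAddChar (ξ * m) : ℂ) else 0 := by
        intro m
        split_ifs <;> simp
      rw [sum_congr rfl fun m _ => h3 m, ← sum_filter, filter_mem_eq_inter, univ_inter]
      have : (B.card : ℂ) ≠ 0 := by exact_mod_cast hB.ne'
      field_simp
    rw [e, norm_mul, Complex.norm_natCast, mul_pow]
    rfl
  rw [sum_congr rfl fun ξ _ => h2 ξ, ← mul_sum] at h1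
  have h4 : ∑ m : ZMod N, (if m ∈ B then (1 : ℝ) else 0) ^ 2 = B.card := by
    have : ∀ m : ZMod N, (if m ∈ B then (1 : ℝ) else 0) ^ 2 = if m ∈ B then (1 : ℝ) else 0 := by
      intro m; split_ifs <;> simp
    rw [sum_congr rfl fun m _ => this m, sum_boole]
    simp
  rw [h4] at h1
  have h5 : (B.card : ℝ) * ((B.card : ℝ) * ∑ ξ : ZMod N, br B ξ) = (B.card : ℝ) * N := by
    rw [mul_comm (B.card : ℝ) (N : ℝ), ← h1]; ring
  rw [eq_div_iff hB0.ne']
  have h6 := mul_left_cancel₀ hB0.ne' h5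
  linarith

/-- smoothing -/
noncomputable def sm (B : Finset (ZMod N)) (u : ZMod N → ℝ) (x : ZMod N) : ℝ :=
  (1 / (B.card : ℝ) ^ 2) * ∑ h ∈ B, ∑ h' ∈ B, u (x + h - h')

lemma hat_sm (B : Finset (ZMod N)) (u : ZMod N → ℝ) (ξ : ZMod N) : hat (sm B u) ξ = (br B ξ : ℂ) * hat u ξ := by
  have h1 : hat (sm B u) ξ = (1 / (B.card : ℂ) ^ 2) * ∑ h ∈ B, ∑ h' ∈ B,
      ∑ m : ZMod N, ((u (m - (h' - h)) : ℝ) : ℂ) * ZMod.stdAddChar (ξ * m) := by
    unfold hat
    have h2 : ∀ h ∈ B, ∑ h' ∈ B, ∑ m : ZMod N, ((u (m - (h' - h)) : ℝ) : ℂ) * ZMod.stdAddChar (ξ * m) =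
        ∑ m : ZMod N, ∑ h' ∈ B, ((u (m - (h' - h)) : ℝ) : ℂ) * ZMod.stdAddChar (ξ * m) := fun h _ => sum_comm
    rw [sum_congr rfl h2, sum_comm, mul_sum]
    apply sum_congr rfl
    intro m _
    unfold sm
    push_cast
    rw [mul_assoc, sum_mul]
    congr 1
    apply sum_congr rfl
    intro h _
    rw [sum_mul]
    apply sum_congr rfl
    intro h' _
    rw [sub_sub_eq_add_sub]
  rw [h1]
  have h3 : ∀ h ∈ B, ∑ h' ∈ B, ∑ m : ZMod N, ((u (m - (h' - h)) : ℝ) : ℂ) * ZMod.stdAddChar (ξ * m) =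
      (starRingEnd ℂ) (ZMod.stdAddChar (ξ * h)) * ((∑ h' ∈ B, (ZMod.stdAddChar (ξ * h') : ℂ)) * hat u ξ) := by
    intro h _
    rw [sum_mul, mul_sum]
    apply sum_congr rfl
    intro h' _
    rw [hat_shift, chi_conj, ← mul_assoc, ← AddChar.map_add_eq_mul]
    congr 2
    ring
  rw [sum_congr rfl h3, ← sum_mul, ← map_sum]
  have h4 : ((br B ξ : ℝ) : ℂ) = (1 / (B.card : ℂ) ^ 2) * ((starRingEnd ℂ) (∑ h ∈ B, (ZMod.stdAddChar (ξ * h) : ℂ)) *
      ∑ h' ∈ B, (ZMod.stdAddChar (ξ * h') : ℂ)) := by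
    unfold br bb
    rw [norm_mul, mul_pow, norm_div, norm_one, Complex.norm_natCast, mul_comm ((starRingEnd ℂ) _) _, Complex.mul_conj,
      Complex.normSq_eq_norm_sq]
    push_cast
    ring
  rw [h4]
  ring

lemma sm_nonneg (B : Finset (ZMod N)) (u : ZMod N → ℝ) (hu : ∀ x, 0 ≤ u x) (x : ZMod N) : 0 ≤ sm B u x := by
  unfold sm
  apply mul_nonneg (by positivity)
  exact sum_nonneg fun _ _ => sum_nonneg fun _ _ => hu _

lemma sm_sum {ι : Type} (s : Finset ι) (B : Finset (ZMod N)) (u : ι → ZMod N → ℝ) (x : ZMod N) :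
    ∑ l ∈ s, sm B (u l) x = sm B (fun y => ∑ l ∈ s, u l y) x := by
  unfold sm
  rw [← mul_sum]
  congr 1
  rw [sum_comm]
  apply sum_congr rfl
  intro h _
  rw [sum_comm]

/-- inversion -/
lemma inv_hat (u : ZMod N → ℝ) (x : ZMod N) :
    (N : ℂ) * (u x : ℂ) = ∑ ξ : ZMod N, hat u ξ * ZMod.stdAddChar (-(ξ * x)) := by
  unfold hat
  simp_rw [sum_mul]
  rw [sum_comm]
  have h1 : ∀ m : ZMod N, ∑ ξ : ZMod N, (u m : ℂ) * ZMod.stdAddChar (ξ * m) * ZMod.stdAddChar (-(ξ * x)) =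
      if m = x then (N : ℂ) * (u m : ℂ) else 0 := by
    intro m
    have h2 : ∀ ξ : ZMod N, (u m : ℂ) * ZMod.stdAddChar (ξ * m) * ZMod.stdAddChar (-(ξ * x)) =
        (u m : ℂ) * ZMod.stdAddChar (ξ * (m - x)) := by
      intro ξ
      rw [mul_assoc, ← AddChar.map_add_eq_mul]
      congr 2
      ring
    rw [sum_congr rfl fun ξ _ => h2 ξ, ← mul_sum, sum_chi]
    by_cases h : m = x
    · rw [if_pos h, if_pos (by rw [h, sub_self])]; ring
    · rw [if_neg h, if_neg (fun h3 => h (sub_eq_zero.1 h3)), mul_zero]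
  rw [sum_congr rfl fun m _ => h1 m, sum_ite_eq' univ x, if_pos (mem_univ _)]

/-- pointwise comparison after smoothing -/
lemma sm_close (B : Finset (ZMod N)) (hB : 0 < B.card) (u v : ZMod N → ℝ) (E : ℝ)
    (h : ∀ ξ, ‖hat u ξ - hat v ξ‖ ≤ E) (x : ZMod N) : |sm B u x - sm B v x| ≤ E / B.card := by
  have hN : 0 < N := Nat.pos_of_ne_zero (NeZero.ne N)
  have hN0 : (0 : ℝ) < N := by exact_mod_cast hN
  have hB0 : (0 : ℝ) < B.card := by exact_mod_cast hB
  have e1 := inv_hat (sm B u) x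
  have e2 := inv_hat (sm B v) x
  have e3 : (N : ℂ) * ((sm B u x - sm B v x : ℝ) : ℂ) = ∑ ξ : ZMod N, (br B ξ : ℂ) * (hat u ξ - hat v ξ) * ZMod.stdAddChar (-(ξ * x)) := by
    push_cast
    rw [mul_sub, e1, e2, ← sum_sub_distrib]
    apply sum_congr rfl
    intro ξ _
    rw [hat_sm, hat_sm]
    ring
  have e4 : (N : ℝ) * |sm B u x - sm B v x| ≤ ∑ ξ : ZMod N, br B ξ * E := by
    have h1 := congrArg norm e3
    rw [norm_mul, Complex.norm_natCast, Complex.norm_real, Real.norm_eq_abs] at h1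
    rw [h1]
    refine (norm_sum_le _ _).trans (sum_le_sum fun ξ _ => ?_)
    rw [norm_mul, norm_mul, norm_chi, mul_one, Complex.norm_real, Real.norm_of_nonneg (br_nonneg B ξ)]
    exact mul_le_mul_of_nonneg_left (h ξ) (br_nonneg B ξ)
  rw [← sum_mul, br_sum B hB] at e4
  have e5 : (N : ℝ) * |sm B u x - sm B v x| ≤ N * (E / B.card) := by
    refine e4.trans (le_of_eq ?_)
    ring
  exact le_of_mul_le_mul_left e5 hN0

/-- convolution -/
noncomputable def cv (u v : ZMod N → ℝ) (s : ZMod N) : ℝ := ∑ x, u x * v (s - x)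

lemma hat_cv (u v : ZMod N → ℝ) (ξ : ZMod N) : hat (cv u v) ξ = hat u ξ * hat v ξ := by
  unfold cv
  have h1 : hat (fun s => ∑ x, u x * v (s - x)) ξ = ∑ x, (u x : ℂ) * ∑ s, ((v (s - x) : ℝ) : ℂ) * ZMod.stdAddChar (ξ * s) := by
    rw [hat]
    simp_rw [mul_sum]
    rw [sum_comm]
    apply sum_congr rfl
    intro s _
    push_cast
    rw [sum_mul]
    apply sum_congr rfl
    intro x _
    ring
  rw [h1]
  have h2 : ∀ x : ZMod N, (u x : ℂ) * ∑ s, ((v (s - x) : ℝ) : ℂ) * ZMod.stdAddChar (ξ * s) =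
      (u x : ℂ) * ZMod.stdAddChar (ξ * x) * hat v ξ := by
    intro x
    rw [hat_shift]; ring
  rw [sum_congr rfl fun x _ => h2 x, ← sum_mul]
  rfl

/-- the second moment of the difference of the convolution squares -/
lemma cv_diff (u v : ZMod N → ℝ) (E : ℝ) (h : ∀ ξ, ‖hat u ξ ^ 2 - hat v ξ ^ 2‖ ^ 2 ≤ E * ‖hat u ξ‖ ^ 3) :
    N * ∑ s, (cv u u s - cv v v s) ^ 2 ≤ E * ∑ ξ, ‖hat u ξ‖ ^ 3 := by
  have h1 := parseval (M := N) (fun s => cv u u s - cv v v s)
  rw [← h1, mul_sum]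
  apply sum_le_sum
  intro ξ _
  have e : hat (fun s => cv u u s - cv v v s) ξ = hat u ξ ^ 2 - hat v ξ ^ 2 := by
    have : hat (fun s => cv u u s - cv v v s) ξ = hat (cv u u) ξ - hat (cv v v) ξ := by
      unfold hat
      rw [← sum_sub_distrib]
      apply sum_congr rfl
      intro m _
      push_cast
      ring
    rw [this, hat_cv, hat_cv]
    ring
  rw [e]
  exact h ξ

end Pool.Agent.H563.RG
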