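import Mathlib

set_option autoImplicit false

/-! Hilbert cubes in subsets of finite abelian groups, and the sum over pairs of coordinates. -/

namespace Pool.Agent.H563.RG

open Finset

variable {G : Type} [AddCommGroup G] [Fintype G] [DecidableEq G]

/-- the base points of the cubes with the sides `d` in `Z` -/
def cs : (K : ℕ) → Finset G → (Fin K → G) → Finset G
  | 0, Z, _ => Z
  | (K + 1), Z, d => cs K (Z.filter (fun t => t + d 0 ∈ Z)) (fun i => d i.succ)

lemma cs_sub : ∀ (K : ℕ) (Z : Finset G) (d : Fin K → G) (t : G), t ∈ cs K Z d → t ∈ Z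
  | 0, Z, d, t, h => h
  | (K + 1), Z, d, t, h => (mem_filter.1 (cs_sub K _ _ t h)).1

lemma cs_one : ∀ (K : ℕ) (Z : Finset G) (d : Fin K → G) (t : G), t ∈ cs K Z d → ∀ i, t + d i ∈ Z
  | 0, Z, d, t, h, i => i.elim0
  | (K + 1), Z, d, t, h, i => by
    induction i using Fin.cases with
    | zero => exact (mem_filter.1 (cs_sub K _ _ t h)).2
    | succ i => exact (mem_filter.1 (cs_one K _ _ t h i)).1

lemma cs_two : ∀ (K : ℕ) (Z : Finset G) (d : Fin K → G) (t : G), t ∈ cs K Z d → ∀ i j, i ≠ j → t + d i + d j ∈ Z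
  | 0, Z, d, t, h, i, j, hij => i.elim0
  | (K + 1), Z, d, t, h, i, j, hij => by
    induction i using Fin.cases with
    | zero =>
      induction j using Fin.cases with
      | zero => exact absurd rfl hij
      | succ j =>
        have := (mem_filter.1 (cs_one K _ _ t h j)).2
        rw [add_right_comm]
        exact this
    | succ i =>
      induction j using Fin.cases with
      | zero => exact (mem_filter.1 (cs_one K _ _ t h i)).2
      | succ j =>
        have hij' : i ≠ j := fun e => hij (by rw [e])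
        exact (mem_filter.1 (cs_two K _ _ t h i j hij')).1

lemma sum_inter (Z : Finset G) : ∑ a : G, ((Z.filter (fun t => t + a ∈ Z)).card : ℝ) = (Z.card : ℝ) ^ 2 := by
  have h1 : ∀ a : G, ((Z.filter (fun t => t + a ∈ Z)).card : ℝ) = ∑ t ∈ Z, if t + a ∈ Z then (1 : ℝ) else 0 := by
    intro a
    rw [sum_boole]
  simp_rw [h1]
  rw [sum_comm]
  have h2 : ∀ t ∈ Z, ∑ a : G, (if t + a ∈ Z then (1 : ℝ) else 0) = Z.card := by
    intro t _
    rw [Fintype.sum_equiv (Equiv.addLeft t) (fun a => if t + a ∈ Z then (1 : ℝ) else 0) (fun b => if b ∈ Z then (1 : ℝ) else 0)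
      (fun a => rfl)]
    rw [sum_boole]
    simp
  rw [sum_congr rfl h2, sum_const, nsmul_eq_mul, sq]

lemma sum_cons (K : ℕ) (F : (Fin (K + 1) → G) → ℝ) :
    ∑ d : Fin (K + 1) → G, F d = ∑ a : G, ∑ d : Fin K → G, F (Fin.cons a d) := by
  rw [← Fintype.sum_prod_type']
  symm
  apply Fintype.sum_equiv (Fin.consEquiv (fun _ => G))
  rintro ⟨a, d⟩
  rfl

lemma cs_count : ∀ (K : ℕ) (Z : Finset G),
    (Z.card : ℝ) ^ (2 ^ K) * (Fintype.card G : ℝ) ^ (K + 1) ≤
      (Fintype.card G : ℝ) ^ (2 ^ K) * ∑ d : Fin K → G, ((cs K Z d).card : ℝ)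
  | 0, Z => by
    simp only [cs, pow_zero, pow_one, zero_add]
    rw [sum_const, nsmul_eq_mul]
    simp
    exact le_of_eq (mul_comm _ _)
  | (K + 1), Z => by
    set N : ℝ := (Fintype.card G : ℝ) with hN
    have hN0 : 0 ≤ N := Nat.cast_nonneg _
    set A : G → Finset G := fun a => Z.filter (fun t => t + a ∈ Z) with hA
    have h0 : ∑ d : Fin (K + 1) → G, ((cs (K + 1) Z d).card : ℝ) = ∑ a : G, ∑ d : Fin K → G, ((cs K (A a) d).card : ℝ) := by
      rw [sum_cons]
      apply sum_congr rfl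
      intro a _
      apply sum_congr rfl
      intro d _
      rfl
    have h1 : N ^ (K + 1) * ∑ a : G, ((A a).card : ℝ) ^ (2 ^ K) ≤ N ^ (2 ^ K) * ∑ a : G, ∑ d : Fin K → G, ((cs K (A a) d).card : ℝ) := by
      rw [mul_sum, mul_sum]
      apply sum_le_sum
      intro a _
      have := cs_count K (A a)
      rw [mul_comm]
      exact this
    have h2 : (∑ a : G, ((A a).card : ℝ)) ^ (2 ^ K) ≤ N ^ (2 ^ K - 1) * ∑ a : G, ((A a).card : ℝ) ^ (2 ^ K) := by
      have hk : 2 ^ K = (2 ^ K - 1) + 1 := by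
        have : 0 < 2 ^ K := by positivity
        omega
      rw [hk]
      have h3 := inner_pow_aux (fun a : G => ((A a).card : ℝ)) (fun a => Nat.cast_nonneg _) (2 ^ K - 1)
      simpa using h3
    rw [sum_inter] at h2
    rw [h0]
    calc (Z.card : ℝ) ^ (2 ^ (K + 1)) * N ^ (K + 1 + 1) = ((Z.card : ℝ) ^ 2) ^ (2 ^ K) * N ^ (K + 2) := by
          rw [← pow_mul, pow_succ, mul_comm (2 ^ K) 2]
      _ ≤ (N ^ (2 ^ K - 1) * ∑ a : G, ((A a).card : ℝ) ^ (2 ^ K)) * N ^ (K + 2) :=
          mul_le_mul_of_nonneg_right h2 (by positivity)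
      _ = N ^ (2 ^ K - 1 + 1) * (N ^ (K + 1) * ∑ a : G, ((A a).card : ℝ) ^ (2 ^ K)) := by ring
      _ = N ^ (2 ^ K) * (N ^ (K + 1) * ∑ a : G, ((A a).card : ℝ) ^ (2 ^ K)) := by
          congr 2
          have : 0 < 2 ^ K := by positivity
          omega
      _ ≤ N ^ (2 ^ K) * (N ^ (2 ^ K) * ∑ a : G, ∑ d : Fin K → G, ((cs K (A a) d).card : ℝ)) :=
          mul_le_mul_of_nonneg_left h1 (by positivity)
      _ = _ := by
          rw [pow_succ 2 K, pow_mul]
          ring
where
  inner_pow_aux (f : G → ℝ) (hf : ∀ a, 0 ≤ f a) (n : ℕ) :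
      (∑ a : G, f a) ^ (n + 1) ≤ (Fintype.card G : ℝ) ^ n * ∑ a : G, f a ^ (n + 1) := by
    have h := pow_sum_div_card_le_sum_pow (s := (univ : Finset G)) (f := f) (fun a _ => hf a) n
    have hc : (0 : ℝ) < ((univ : Finset G).card : ℝ) := by
      have : (univ : Finset G).Nonempty := ⟨0, mem_univ _⟩
      exact_mod_cast card_pos.2 this
    rw [div_le_iff₀ (by positivity)] at h
    rw [mul_comm]
    exact h

end Pool.Agent.H563.RG
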