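import Mathlib
import Pool.Agent.H563.RG.Cube

set_option autoImplicit false

/-! Sums over functions which depend on two coordinates only. -/

namespace Pool.Agent.H563.RG

open Finset

variable {G : Type} [Fintype G]

lemma marg (K : ℕ) (i j : Fin K) (hij : i ≠ j) (F : G → G → ℝ) :
    (Fintype.card G : ℝ) ^ 2 * ∑ d : Fin K → G, F (d i) (d j) =
      (Fintype.card G : ℝ) ^ K * ∑ u : G, ∑ v : G, F u v := by
  classical
  have h1 : (Fintype.card G : ℝ) ^ 2 * ∑ d : Fin K → G, F (d i) (d j) =
      ∑ x : (Fin K → G) × (G × G), F (x.1 i) (x.1 j) := by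
    rw [Fintype.sum_prod_type, mul_sum]
    apply sum_congr rfl
    intro d _
    simp only
    rw [sum_const, nsmul_eq_mul, card_univ, Fintype.card_prod]
    push_cast
    ring
  have h2 : (Fintype.card G : ℝ) ^ K * ∑ u : G, ∑ v : G, F u v =
      ∑ x : (Fin K → G) × (G × G), F x.2.1 x.2.2 := by
    rw [Fintype.sum_prod_type]
    simp only
    rw [sum_const, nsmul_eq_mul, card_univ, Fintype.card_fun, Fintype.card_fin, Fintype.sum_prod_type]
    push_cast
    rfl
  rw [h1, h2]
  have hinv : ∀ x : (Fin K → G) × (G × G),
      ((Function.update (Function.update (Function.update (Function.update x.1 i x.2.1) j x.2.2) i (x.1 i)) j (x.1 j)) : Fin K → G) = x.1 := by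
    intro x
    funext l
    by_cases h : l = j
    · subst h; simp
    · rw [Function.update_of_ne h]
      by_cases h' : l = i
      · subst h'; simp
      · rw [Function.update_of_ne h', Function.update_of_ne h, Function.update_of_ne h']
  refine sum_nbij' (fun x => (Function.update (Function.update x.1 i x.2.1) j x.2.2, (x.1 i, x.1 j)))
    (fun x => (Function.update (Function.update x.1 i x.2.1) j x.2.2, (x.1 i, x.1 j))) (fun _ _ => mem_univ _)
    (fun _ _ => mem_univ _) ?_ ?_ ?_
  · intro x _
    have e1 : (Function.update (Function.update x.1 i x.2.1) j x.2.2) i = x.2.1 := by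
      rw [Function.update_of_ne hij, Function.update_self]
    have e2 : (Function.update (Function.update x.1 i x.2.1) j x.2.2) j = x.2.2 := Function.update_self _ _ _
    refine Prod.ext ?_ (Prod.ext ?_ ?_)
    · exact hinv x
    · exact e1
    · exact e2
  · intro x _
    have e1 : (Function.update (Function.update x.1 i x.2.1) j x.2.2) i = x.2.1 := by
      rw [Function.update_of_ne hij, Function.update_self]
    have e2 : (Function.update (Function.update x.1 i x.2.1) j x.2.2) j = x.2.2 := Function.update_self _ _ _
    refine Prod.ext ?_ (Prod.ext ?_ ?_)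
    · exact hinv x
    · exact e1
    · exact e2
  · intro x _
    rfl

end Pool.Agent.H563.RG
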