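import Mathlib
import Pool.Agent.H563.RG.Pairs

set_option autoImplicit false

/-! The lower bound for sums over pairs with midpoint in a given set. -/

namespace Pool.Agent.H563.RG

open Finset

variable {G : Type} [AddCommGroup G] [Fintype G] [DecidableEq G]

lemma mid_sum (Z : Finset G) (H : G → G → ℝ) :
    ∑ t : G, ∑ u : G, ∑ v : G, (if t + u + v ∈ Z then H (t + u + u) (t + v + v) else 0) =
      (Fintype.card G : ℝ) * ∑ m ∈ Z, ∑ x : G, H x (m + m - x) := by
  have h0 : (Fintype.card G : ℝ) * ∑ m ∈ Z, ∑ x : G, H x (m + m - x) =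
      ∑ y : G × G × G, (if y.1 ∈ Z then H y.2.1 (y.1 + y.1 - y.2.1) else 0) := by
    rw [Fintype.sum_prod_type]
    have h1 : ∀ m : G, ∑ y : G × G, (if m ∈ Z then H y.1 (m + m - y.1) else 0) =
        if m ∈ Z then (Fintype.card G : ℝ) * ∑ x : G, H x (m + m - x) else 0 := by
      intro m
      split_ifs with h
      · rw [Fintype.sum_prod_type, mul_sum]
        apply sum_congr rfl
        intro x _
        simp only
        rw [sum_const, nsmul_eq_mul, card_univ]
      · simp
    simp only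
    rw [sum_congr rfl fun m _ => h1 m, ← sum_filter, filter_mem_eq_inter, univ_inter, mul_sum]
  rw [h0]
  have h2 : ∑ t : G, ∑ u : G, ∑ v : G, (if t + u + v ∈ Z then H (t + u + u) (t + v + v) else 0) =
      ∑ y : G × G × G, (if y.1 + y.2.1 + y.2.2 ∈ Z then H (y.1 + y.2.1 + y.2.1) (y.1 + y.2.2 + y.2.2) else 0) := by
    rw [Fintype.sum_prod_type]
    apply sum_congr rfl
    intro t _
    rw [Fintype.sum_prod_type]
  rw [h2]
  refine sum_nbij' (fun y => (y.1 + y.2.1 + y.2.2, y.1 + y.2.1 + y.2.1, y.2.1))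
    (fun y => (y.2.1 - y.2.2 - y.2.2, y.2.2, y.1 - y.2.1 + y.2.2)) (fun _ _ => mem_univ _)
    (fun _ _ => mem_univ _) ?_ ?_ ?_
  · rintro ⟨t, u, v⟩ _
    simp only [Prod.mk.injEq]
    refine ⟨by abel, trivial, by abel⟩
  · rintro ⟨m, x, u⟩ _
    simp only [Prod.mk.injEq]
    refine ⟨by abel, by abel, trivial⟩
  · rintro ⟨t, u, v⟩ _
    simp only
    have e : t + u + v + (t + u + v) - (t + u + u) = t + v + v := by abel
    rw [e]

theorem core (K : ℕ) (Z : Finset G) (H : G → G → ℝ) (hH : ∀ x y, 0 ≤ H x y)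
    (h1 : ∀ (d : Fin K → G) (t : G), t ∈ Z → (∀ i, t + d i ∈ Z) →
      1 ≤ ∑ i : Fin K, ∑ j ∈ univ.erase i, H (t + d i + d i) (t + d j + d j)) :
    (Z.card : ℝ) ^ (2 ^ K) * (Fintype.card G : ℝ) ^ 2 ≤
      (Fintype.card G : ℝ) ^ (2 ^ K) * ((K : ℝ) ^ 2 * ∑ m ∈ Z, ∑ x : G, H x (m + m - x)) := by
  classical
  set N : ℝ := (Fintype.card G : ℝ) with hN
  have hN0 : 0 < N := by
    rw [hN]
    have : 0 < Fintype.card G := Fintype.card_pos_iff.2 ⟨0⟩
    exact_mod_cast this
  set S : ℝ := ∑ m ∈ Z, ∑ x : G, H x (m + m - x) with hS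
  have hS0 : 0 ≤ S := sum_nonneg fun _ _ => sum_nonneg fun _ _ => hH _ _
  have hc := cs_count K Z
  -- the number of cubes
  have h2 : ∑ d : Fin K → G, ((cs K Z d).card : ℝ) ≤ ∑ i : Fin K, ∑ j ∈ univ.erase i,
      ∑ t : G, ∑ d : Fin K → G, (if t + d i + d j ∈ Z then H (t + d i + d i) (t + d j + d j) else 0) := by
    have h3 : ∀ d : Fin K → G, ((cs K Z d).card : ℝ) ≤ ∑ t : G, ∑ i : Fin K, ∑ j ∈ univ.erase i,
        (if t + d i + d j ∈ Z then H (t + d i + d i) (t + d j + d j) else 0) := by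
      intro d
      have h4 : ((cs K Z d).card : ℝ) = ∑ t ∈ cs K Z d, (1 : ℝ) := by simp
      rw [h4]
      calc ∑ t ∈ cs K Z d, (1 : ℝ) ≤ ∑ t ∈ cs K Z d, ∑ i : Fin K, ∑ j ∈ univ.erase i,
            (if t + d i + d j ∈ Z then H (t + d i + d i) (t + d j + d j) else 0) := by
            apply sum_le_sum
            intro t ht
            refine (h1 d t (cs_sub K Z d t ht) (cs_one K Z d t ht)).trans (le_of_eq ?_)
            apply sum_congr rfl
            intro i _
            apply sum_congr rfl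
            intro j hj
            rw [if_pos (cs_two K Z d t ht i j (ne_of_mem_erase hj).symm)]
        _ ≤ _ := by
            apply sum_le_sum_of_subset_of_nonneg (subset_univ _)
            intro t _ _
            apply sum_nonneg
            intro i _
            apply sum_nonneg
            intro j _
            split_ifs
            · exact hH _ _
            · exact le_rfl
    refine (sum_le_sum fun d _ => h3 d).trans (le_of_eq ?_)
    rw [sum_comm]
    have h5 : ∀ t : G, ∑ d : Fin K → G, ∑ i : Fin K, ∑ j ∈ univ.erase i,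
        (if t + d i + d j ∈ Z then H (t + d i + d i) (t + d j + d j) else 0) =
        ∑ i : Fin K, ∑ j ∈ univ.erase i, ∑ d : Fin K → G,
        (if t + d i + d j ∈ Z then H (t + d i + d i) (t + d j + d j) else 0) := by
      intro t
      rw [sum_comm]
      apply sum_congr rfl
      intro i _
      rw [sum_comm]
    rw [sum_congr rfl fun t _ => h5 t, sum_comm]
    apply sum_congr rfl
    intro i _
    rw [sum_comm]
  -- the sum over the other coordinates
  have h6 : ∀ i : Fin K, ∀ j ∈ univ.erase i, N ^ 2 * ∑ t : G, ∑ d : Fin K → G,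
      (if t + d i + d j ∈ Z then H (t + d i + d i) (t + d j + d j) else 0) = N ^ K * (N * S) := by
    intro i j hj
    rw [mul_sum]
    have h7 : ∀ t : G, N ^ 2 * ∑ d : Fin K → G, (if t + d i + d j ∈ Z then H (t + d i + d i) (t + d j + d j) else 0) =
        N ^ K * ∑ u : G, ∑ v : G, (if t + u + v ∈ Z then H (t + u + u) (t + v + v) else 0) := fun t =>
      marg K i j (ne_of_mem_erase hj).symm (fun u v => if t + u + v ∈ Z then H (t + u + u) (t + v + v) else 0)
    rw [sum_congr rfl fun t _ => h7 t, ← mul_sum, mid_sum]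
  have h8 : N ^ 2 * ∑ d : Fin K → G, ((cs K Z d).card : ℝ) ≤ (K : ℝ) ^ 2 * (N ^ K * (N * S)) := by
    calc N ^ 2 * ∑ d : Fin K → G, ((cs K Z d).card : ℝ) ≤ N ^ 2 * ∑ i : Fin K, ∑ j ∈ univ.erase i,
          ∑ t : G, ∑ d : Fin K → G, (if t + d i + d j ∈ Z then H (t + d i + d i) (t + d j + d j) else 0) :=
          mul_le_mul_of_nonneg_left h2 (by positivity)
      _ = ∑ i : Fin K, ∑ j ∈ univ.erase i, N ^ K * (N * S) := by
          rw [mul_sum]
          apply sum_congr rfl
          intro i _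
          rw [mul_sum]
          exact sum_congr rfl fun j hj => h6 i j hj
      _ ≤ ∑ i : Fin K, ∑ j : Fin K, N ^ K * (N * S) := by
          apply sum_le_sum
          intro i _
          apply sum_le_sum_of_subset_of_nonneg (erase_subset _ _)
          intro _ _ _
          positivity
      _ = _ := by
          simp only [sum_const, card_univ, Fintype.card_fin, nsmul_eq_mul]
          ring
  have h9 : N ^ (K + 1) * ((Z.card : ℝ) ^ (2 ^ K) * N ^ 2) ≤ N ^ (K + 1) * (N ^ (2 ^ K) * ((K : ℝ) ^ 2 * S)) := by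
    calc N ^ (K + 1) * ((Z.card : ℝ) ^ (2 ^ K) * N ^ 2) = N ^ 2 * ((Z.card : ℝ) ^ (2 ^ K) * N ^ (K + 1)) := by ring
      _ ≤ N ^ 2 * (N ^ (2 ^ K) * ∑ d : Fin K → G, ((cs K Z d).card : ℝ)) := mul_le_mul_of_nonneg_left hc (by positivity)
      _ = N ^ (2 ^ K) * (N ^ 2 * ∑ d : Fin K → G, ((cs K Z d).card : ℝ)) := by ring
      _ ≤ N ^ (2 ^ K) * ((K : ℝ) ^ 2 * (N ^ K * (N * S))) := mul_le_mul_of_nonneg_left h8 (by positivity)
      _ = _ := by ring
  exact le_of_mul_le_mul_left h9 (by positivity)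

end Pool.Agent.H563.RG
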