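import Mathlib

set_option autoImplicit false

/-! Fractional colourings: the pigeonhole principle. -/

namespace Pool.Agent.H563.RG

open Finset

lemma pig (k : ℕ) (hk : 1 ≤ k) (a : Fin k → Fin (16 * k) → ℝ) (ha : ∀ l i, 0 ≤ a l i)
    (h1 : ∀ i, 1 / 2 ≤ ∑ l, a l i) (h2 : ∀ i, ∑ l, a l i ≤ 3 / 2) :
    1 ≤ ∑ i : Fin (16 * k), ∑ j ∈ univ.erase i, ∑ l, a l i * a l j := by
  have hk0 : (1 : ℝ) ≤ k := by exact_mod_cast hk
  -- all pairs
  have e1 : ∑ i : Fin (16 * k), ∑ j : Fin (16 * k), ∑ l, a l i * a l j = ∑ l, (∑ i, a l i) ^ 2 := by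
    have : ∀ l : Fin k, (∑ i, a l i) ^ 2 = ∑ i, ∑ j, a l i * a l j := fun l => by
      rw [sq, sum_mul_sum]
    rw [sum_congr rfl fun l _ => this l]
    symm
    rw [sum_comm]
    apply sum_congr rfl
    intro i _
    rw [sum_comm]
  have e2 : (8 * (k : ℝ)) ^ 2 ≤ k * ∑ l, (∑ i, a l i) ^ 2 := by
    have h3 : (∑ l : Fin k, ∑ i, a l i) ^ 2 ≤ k * ∑ l, (∑ i, a l i) ^ 2 := by
      have := sq_sum_le_card_mul_sum_sq (s := (univ : Finset (Fin k))) (f := fun l => ∑ i, a l i)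
      simpa using this
    have h4 : 8 * (k : ℝ) ≤ ∑ l : Fin k, ∑ i, a l i := by
      rw [sum_comm]
      calc 8 * (k : ℝ) = ∑ _i : Fin (16 * k), (1 / 2 : ℝ) := by
            rw [sum_const, card_univ, Fintype.card_fin, nsmul_eq_mul]
            push_cast
            ring
        _ ≤ _ := sum_le_sum fun i _ => h1 i
    calc (8 * (k : ℝ)) ^ 2 ≤ (∑ l : Fin k, ∑ i, a l i) ^ 2 := pow_le_pow_left₀ (by positivity) h4 2
      _ ≤ _ := h3
  -- the diagonal
  have e3 : ∀ i, ∑ l, a l i * a l i ≤ 9 / 4 := by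
    intro i
    have h5 : ∑ l, a l i * a l i ≤ (∑ l, a l i) * (∑ l, a l i) := by
      rw [sum_mul]
      apply sum_le_sum
      intro l _
      apply mul_le_mul_of_nonneg_left _ (ha l i)
      exact single_le_sum (fun l _ => ha l i) (mem_univ l)
    have h6 : 0 ≤ ∑ l, a l i := sum_nonneg fun l _ => ha l i
    have h7 := h2 i
    nlinarith
  have e4 : ∀ i : Fin (16 * k), ∑ j ∈ univ.erase i, ∑ l, a l i * a l j =
      ∑ j, ∑ l, a l i * a l j - ∑ l, a l i * a l i := by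
    intro i
    rw [← add_sum_erase univ (fun j => ∑ l, a l i * a l j) (mem_univ i)]
    ring
  rw [sum_congr rfl fun i _ => e4 i, sum_sub_distrib, e1]
  have e5 : ∑ i : Fin (16 * k), ∑ l, a l i * a l i ≤ 36 * k := by
    calc ∑ i : Fin (16 * k), ∑ l, a l i * a l i ≤ ∑ _i : Fin (16 * k), (9 / 4 : ℝ) := sum_le_sum fun i _ => e3 i
      _ = 36 * k := by
        rw [sum_const, card_univ, Fintype.card_fin, nsmul_eq_mul]
        push_cast
        ring
  have e6 : 64 * (k : ℝ) ≤ ∑ l, (∑ i, a l i) ^ 2 := by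
    have : (k : ℝ) * (64 * k) ≤ k * ∑ l, (∑ i, a l i) ^ 2 := by
      calc (k : ℝ) * (64 * k) = (8 * (k : ℝ)) ^ 2 := by ring
        _ ≤ _ := e2
    exact le_of_mul_le_mul_left this (by linarith)
  linarith

end Pool.Agent.H563.RG
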