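import Mathlib
import Pool.Agent.H563.RG.Core
import Pool.Agent.H563.RG.Pig
import Pool.Agent.H563.RG.Bohr

set_option autoImplicit false

/-! Fractional colourings of a cyclic group which are close to the indicator of an interval. -/

namespace Pool.Agent.H563.RG

open Finset
open Pool.Agent.H373R2.NB (hat parseval sum_chi norm_chi chi_conj)

variable {N : ℕ} [NeZero N]

/-- the indicator of the residues below `L` -/
noncomputable def ind (L : ℕ) (x : ZMod N) : ℝ := if x.val < L then 1 else 0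

lemma ind_nonneg (L : ℕ) (x : ZMod N) : 0 ≤ ind L x := by unfold ind; split_ifs <;> norm_num

lemma ind_le (L : ℕ) (x : ZMod N) : ind L x ≤ 1 := by unfold ind; split_ifs <;> norm_num

lemma val_int (z : ℤ) (h0 : 0 ≤ z) (h1 : z < N) : (((z : ZMod N)).val : ℤ) = z := by
  obtain ⟨n, rfl⟩ := Int.eq_ofNat_of_zero_le h0
  have : n < N := by exact_mod_cast h1
  rw [Int.cast_natCast, ZMod.val_natCast_of_lt this]

lemma sm_ind_le (B : Finset (ZMod N)) (hB : 0 < B.card) (L : ℕ) (x : ZMod N) : sm B (ind L) x ≤ 1 := by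
  have hB0 : (0 : ℝ) < B.card := by exact_mod_cast hB
  unfold sm
  have h1 : ∑ h ∈ B, ∑ h' ∈ B, ind L (x + h - h') ≤ (B.card : ℝ) ^ 2 := by
    calc ∑ h ∈ B, ∑ h' ∈ B, ind L (x + h - h') ≤ ∑ _h ∈ B, ∑ _h' ∈ B, (1 : ℝ) :=
          sum_le_sum fun h _ => sum_le_sum fun h' _ => ind_le L _
      _ = _ := by simp [sq]
  calc 1 / (B.card : ℝ) ^ 2 * ∑ h ∈ B, ∑ h' ∈ B, ind L (x + h - h') ≤ 1 / (B.card : ℝ) ^ 2 * (B.card : ℝ) ^ 2 :=
        mul_le_mul_of_nonneg_left h1 (by positivity)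
    _ = 1 := by field_simp

lemma sm_ind_eq (B : Finset (ZMod N)) (hB : 0 < B.card) (L E : ℕ) (hL : L ≤ N)
    (hE : ∀ h ∈ B, h.valMinAbs.natAbs ≤ E) (x : ZMod N) (h1 : 2 * E ≤ x.val) (h2 : x.val + 2 * E < L) :
    sm B (ind L) x = 1 := by
  have hB0 : (0 : ℝ) < B.card := by exact_mod_cast hB
  unfold sm
  have h3 : ∀ h ∈ B, ∀ h' ∈ B, ind L (x + h - h') = 1 := by
    intro h hh h' hh'
    have a1 := hE h hh
    have a2 := hE h' hh'
    have e : x + h - h' = (((x.val : ℤ) + h.valMinAbs - h'.valMinAbs : ℤ) : ZMod N) := by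
      push_cast
      rw [ZMod.natCast_zmod_val]
    have hv := val_int (N := N) ((x.val : ℤ) + h.valMinAbs - h'.valMinAbs) (by omega) (by omega)
    unfold ind
    rw [e, if_pos]
    have : ((((x.val : ℤ) + h.valMinAbs - h'.valMinAbs : ℤ) : ZMod N).val : ℤ) < L := by
      rw [hv]; omega
    exact_mod_cast this
  rw [sum_congr rfl fun h hh => sum_congr rfl fun h' hh' => h3 h hh h' hh']
  simp only [sum_const, nsmul_eq_mul, mul_one]
  field_simp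

lemma large_spec (u : ZMod N → ℝ) (σ C : ℝ) (hσ : 0 < σ) (h : ∑ ξ, ‖hat u ξ‖ ^ 3 ≤ C * (N : ℝ) ^ 3) :
    ((univ.filter (fun ξ : ZMod N => σ * N ≤ ‖hat u ξ‖)).card : ℝ) ≤ C / σ ^ 3 := by
  have hN : 0 < N := Nat.pos_of_ne_zero (NeZero.ne N)
  have hN0 : (0 : ℝ) < N := by exact_mod_cast hN
  set S := univ.filter (fun ξ : ZMod N => σ * N ≤ ‖hat u ξ‖) with hS
  have h1 : (S.card : ℝ) * (σ * N) ^ 3 ≤ C * (N : ℝ) ^ 3 := by
    refine le_trans ?_ h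
    calc (S.card : ℝ) * (σ * N) ^ 3 = ∑ _ξ ∈ S, (σ * N) ^ 3 := by rw [sum_const, nsmul_eq_mul]
      _ ≤ ∑ ξ ∈ S, ‖hat u ξ‖ ^ 3 := by
          apply sum_le_sum
          intro ξ hξ
          exact pow_le_pow_left₀ (by positivity) (mem_filter.1 hξ).2 3
      _ ≤ _ := sum_le_sum_of_subset_of_nonneg (subset_univ _) fun _ _ _ => by positivity
  rw [le_div_iff₀ (by positivity)]
  have h2 : (S.card : ℝ) * σ ^ 3 * (N : ℝ) ^ 3 ≤ C * (N : ℝ) ^ 3 := by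
    calc (S.card : ℝ) * σ ^ 3 * (N : ℝ) ^ 3 = (S.card : ℝ) * (σ * N) ^ 3 := by ring
      _ ≤ _ := h1
  exact le_of_mul_le_mul_right h2 (by positivity)

lemma hat_sup (u : ZMod N → ℝ) (C : ℝ) (hC : 0 ≤ C) (h : ∑ ξ, ‖hat u ξ‖ ^ 3 ≤ C * (N : ℝ) ^ 3) (ξ : ZMod N) :
    ‖hat u ξ‖ ≤ (1 + C) * N := by
  have hN0 : (0 : ℝ) ≤ N := Nat.cast_nonneg _
  have h1 : ‖hat u ξ‖ ^ 3 ≤ C * (N : ℝ) ^ 3 :=
    (single_le_sum (fun ξ _ => (by positivity : 0 ≤ ‖hat u ξ‖ ^ 3)) (mem_univ ξ)).trans h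
  have h2 : C * (N : ℝ) ^ 3 ≤ ((1 + C) * N) ^ 3 := by
    have h3 : C ≤ (1 + C) ^ 3 := by nlinarith [sq_nonneg C, mul_nonneg hC hC]
    calc C * (N : ℝ) ^ 3 ≤ (1 + C) ^ 3 * (N : ℝ) ^ 3 := mul_le_mul_of_nonneg_right h3 (by positivity)
      _ = _ := by ring
  exact le_of_pow_le_pow_left₀ (by norm_num) (by positivity) (h1.trans h2)

theorem comb (k : ℕ) (hk : 1 ≤ k) (ζ : ℝ) (hζ : 0 < ζ) (Q₀ : ℕ) (hQ₀ : 1 ≤ Q₀) (C₂ : ℝ) (hC₂ : 0 < C₂) :
    ∃ η : ℝ, 0 < η ∧ ∃ c : ℝ, 0 < c ∧ ∀ N L : ℕ, ∀ _ : NeZero N, N = 2 * L + 1 →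
      ∀ f : Fin k → ZMod N → ℝ, (∀ l x, 0 ≤ f l x) →
      (∀ ξ, ‖hat (fun x => ∑ l, f l x) ξ - hat (ind L) ξ‖ ≤ η * N) →
      (∀ l, ∑ ξ, ‖hat (f l) ξ‖ ^ 3 ≤ C₂ * (N : ℝ) ^ 3) →
      ∀ Z : Finset (ZMod N), ∀ α D : ℕ, (∀ m ∈ Z, α ≤ m.val ∧ m.val < α + D) → N ≤ Q₀ * D → 3 * D ≤ α → α + 4 * D ≤ L →
      ζ * N ≤ Z.card → c * (N : ℝ) ^ 2 ≤ ∑ m ∈ Z, ∑ l, cv (f l) (f l) (m + m) := by
  obtain ⟨K, hK⟩ : ∃ K, K = 16 * k := ⟨_, rfl⟩
  have hk0 : (0 : ℝ) < k := by exact_mod_cast hk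
  have hK0 : (0 : ℝ) < K := by rw [hK]; push_cast; positivity
  obtain ⟨c, hc⟩ : ∃ c : ℝ, c = ζ ^ (2 ^ K) / (2 * (K : ℝ) ^ 2) := ⟨_, rfl⟩
  have hc0 : 0 < c := by rw [hc]; positivity
  obtain ⟨σ, hσ⟩ : ∃ σ : ℝ, σ = (c / k) ^ 2 / C₂ := ⟨_, rfl⟩
  have hσ0 : 0 < σ := by rw [hσ]; positivity
  obtain ⟨R, hR⟩ : ∃ R : ℕ, R = ⌈k * (C₂ / σ ^ 3)⌉₊ + 1 := ⟨_, rfl⟩
  obtain ⟨T, hT⟩ : ∃ T : ℕ, T = ⌈32 * (1 + C₂) / σ⌉₊ + 2 * Q₀ + 1 := ⟨_, rfl⟩
  have hT1 : 1 ≤ T := by omega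
  have hT0 : (0 : ℝ) < T := by exact_mod_cast hT1
  have hTσ : 32 * (1 + C₂) / σ ≤ T := by
    refine (Nat.le_ceil _).trans ?_
    exact_mod_cast (by omega : ⌈32 * (1 + C₂) / σ⌉₊ ≤ T)
  refine ⟨1 / (4 * (T : ℝ) ^ R), by positivity, c, hc0, ?_⟩
  intro N L hNz hNL f hf H1 H2 Z α D hZ hQD hDα hDL hζZ
  have hN : 0 < N := by omega
  have hN0 : (0 : ℝ) < N := by exact_mod_cast hN
  -- the spectrum
  classical
  obtain ⟨Λ, hΛ⟩ : ∃ Λ : Finset (ZMod N), Λ = insert 1 (univ.biUnion (fun l : Fin k => univ.filter (fun ξ : ZMod N => σ * N ≤ ‖hat (f l) ξ‖))) := ⟨_, rfl⟩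
  have hΛc : Λ.card ≤ R := by
    have h1 : Λ.card ≤ ∑ l : Fin k, (univ.filter (fun ξ : ZMod N => σ * N ≤ ‖hat (f l) ξ‖)).card + 1 := by
      rw [hΛ]
      refine (card_insert_le _ _).trans ?_
      exact Nat.add_le_add_right card_biUnion_le 1
    have h2 : ((∑ l : Fin k, (univ.filter (fun ξ : ZMod N => σ * N ≤ ‖hat (f l) ξ‖)).card : ℕ) : ℝ) ≤ k * (C₂ / σ ^ 3) := by
      push_cast
      calc ∑ l : Fin k, ((univ.filter (fun ξ : ZMod N => σ * N ≤ ‖hat (f l) ξ‖)).card : ℝ) ≤ ∑ _l : Fin k, C₂ / σ ^ 3 :=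
            sum_le_sum fun l _ => large_spec (f l) σ C₂ hσ0 (H2 l)
        _ = _ := by rw [sum_const, card_univ, Fintype.card_fin, nsmul_eq_mul]
    have h3 : (∑ l : Fin k, (univ.filter (fun ξ : ZMod N => σ * N ≤ ‖hat (f l) ξ‖)).card : ℕ) ≤ ⌈k * (C₂ / σ ^ 3)⌉₊ := by
      exact_mod_cast h2.trans (Nat.le_ceil _)
    omega
  obtain ⟨B, hB⟩ : ∃ B, B = bohr Λ T := ⟨_, rfl⟩
  have hBpos : 0 < B.card := by rw [hB]; exact_mod_cast bohr_pos Λ T
  have hB0 : (0 : ℝ) < B.card := by exact_mod_cast hBpos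
  have hBN : (N : ℝ) ≤ B.card * (T : ℝ) ^ R := by
    have h1 := bohr_card Λ T hT1
    rw [← hB] at h1
    have h2 : B.card * T ^ Λ.card ≤ B.card * T ^ R := Nat.mul_le_mul_left _ (Nat.pow_le_pow_right hT1 hΛc)
    exact_mod_cast h1.trans h2
  -- the elements of `B` are small
  obtain ⟨E, hE⟩ : ∃ E, E = D / 2 := ⟨_, rfl⟩
  have hBE : ∀ h ∈ B, h.valMinAbs.natAbs ≤ E := by
    intro h hh
    rw [hB, mem_bohr] at hh
    have h1 := hh 1 (by rw [hΛ]; exact mem_insert_self _ _)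
    rw [one_mul] at h1
    rw [hE, Nat.le_div_iff_mul_le (by norm_num)]
    by_contra hcon
    push Not at hcon
    have h2 : Q₀ * D < Q₀ * (h.valMinAbs.natAbs * 2) := Nat.mul_lt_mul_of_pos_left hcon hQ₀
    have h3 : h.valMinAbs.natAbs * (2 * Q₀) ≤ h.valMinAbs.natAbs * T := Nat.mul_le_mul_left _ (by omega)
    have h4 : Q₀ * (h.valMinAbs.natAbs * 2) = h.valMinAbs.natAbs * (2 * Q₀) := by ring
    omega
  -- the smoothed functions
  obtain ⟨g, hg⟩ : ∃ g : Fin k → ZMod N → ℝ, g = fun l => sm B (f l) := ⟨_, rfl⟩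
  have hg0 : ∀ l x, 0 ≤ g l x := by
    intro l x
    rw [hg]
    exact sm_nonneg B (f l) (hf l) x
  have hclose : ∀ x, |∑ l, g l x - sm B (ind L) x| ≤ 1 / 4 := by
    intro x
    rw [hg]
    simp only
    rw [sm_sum]
    refine (sm_close B hBpos _ _ _ H1 x).trans ?_
    rw [div_le_iff₀ hB0]
    have h1 : 1 / (4 * (T : ℝ) ^ R) * N ≤ 1 / (4 * (T : ℝ) ^ R) * (B.card * (T : ℝ) ^ R) :=
      mul_le_mul_of_nonneg_left hBN (by positivity)
    refine h1.trans (le_of_eq ?_)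
    field_simp
  have hup : ∀ x, ∑ l, g l x ≤ 3 / 2 := by
    intro x
    have h1 := (abs_le.1 (hclose x)).2
    have h2 := sm_ind_le B hBpos L x
    linarith
  have hlow : ∀ x : ZMod N, 2 * D ≤ x.val → x.val + 2 * D ≤ L → 1 / 2 ≤ ∑ l, g l x := by
    intro x hx1 hx2
    have h1 := (abs_le.1 (hclose x)).1
    have hD : 1 ≤ D := by
      rcases Nat.eq_zero_or_pos D with h | h
      · rw [h] at hQD; omega
      · exact h
    have h2 := sm_ind_eq B hBpos L E (by omega) hBE x (by omega) (by omega)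
    linarith
  -- the cube points
  have hcube : ∀ (t d : ZMod N), t ∈ Z → t + d ∈ Z → 1 / 2 ≤ ∑ l, g l (t + d + d) := by
    intro t d ht htd
    have a1 := hZ t ht
    have a2 := hZ (t + d) htd
    have e : t + d + d = (((t + d).val : ℤ) + (t + d).val - t.val : ℤ) := by
      push_cast
      rw [ZMod.natCast_zmod_val, ZMod.natCast_zmod_val]
      ring
    have hv := val_int (N := N) (((t + d).val : ℤ) + (t + d).val - t.val) (by omega) (by omega)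
    rw [← e] at hv
    apply hlow
    · omega
    · omega
  have hcore := core K Z (fun x y => ∑ l, g l x * g l y) (fun x y => sum_nonneg fun l _ => mul_nonneg (hg0 l x) (hg0 l y)) (by
    intro d t ht htd
    subst hK
    exact pig k hk (fun l i => g l (t + d i + d i)) (fun l i => hg0 l _) (fun i => hcube t (d i) ht (htd i)) (fun i => hup _))
  rw [ZMod.card] at hcore
  -- lower bound for the smoothed functions
  have hS : ∑ m ∈ Z, ∑ x : ZMod N, ∑ l, g l x * g l (m + m - x) = ∑ m ∈ Z, ∑ l, cv (g l) (g l) (m + m) := by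
    apply sum_congr rfl
    intro m _
    rw [sum_comm]
    rfl
  rw [hS] at hcore
  have hlowg : 2 * c * (N : ℝ) ^ 2 ≤ ∑ m ∈ Z, ∑ l, cv (g l) (g l) (m + m) := by
    have h1 : (ζ * N) ^ (2 ^ K) * (N : ℝ) ^ 2 ≤ (N : ℝ) ^ (2 ^ K) * ((K : ℝ) ^ 2 * ∑ m ∈ Z, ∑ l, cv (g l) (g l) (m + m)) := by
      refine le_trans ?_ hcore
      apply mul_le_mul_of_nonneg_right _ (by positivity)
      exact pow_le_pow_left₀ (by positivity) hζZ _
    have h2 : (N : ℝ) ^ (2 ^ K) * (ζ ^ (2 ^ K) * (N : ℝ) ^ 2) ≤ (N : ℝ) ^ (2 ^ K) * ((K : ℝ) ^ 2 * ∑ m ∈ Z, ∑ l, cv (g l) (g l) (m + m)) := by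
      refine le_trans (le_of_eq ?_) h1
      rw [mul_pow]; ring
    have h3 := le_of_mul_le_mul_left h2 (by positivity)
    rw [hc]
    have h4 : 2 * (ζ ^ (2 ^ K) / (2 * (K : ℝ) ^ 2)) * (N : ℝ) ^ 2 = (ζ ^ (2 ^ K) * (N : ℝ) ^ 2) / (K : ℝ) ^ 2 := by
      field_simp
    rw [h4, div_le_iff₀ (by positivity)]
    linarith
  -- the difference
  have hdiff : ∀ l, |∑ m ∈ Z, (cv (f l) (f l) (m + m) - cv (g l) (g l) (m + m))| ≤ (c / k) * (N : ℝ) ^ 2 := by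
    intro l
    have h1 := cv_diff (f l) (g l) (σ * N) (by
      intro ξ
      have e1 : hat (g l) ξ = (br B ξ : ℂ) * hat (f l) ξ := by rw [hg]; exact hat_sm B (f l) ξ
      rw [e1]
      have e2 : hat (f l) ξ ^ 2 - ((br B ξ : ℂ) * hat (f l) ξ) ^ 2 = ((1 - br B ξ ^ 2 : ℝ) : ℂ) * hat (f l) ξ ^ 2 := by
        push_cast; ring
      have b0 := br_nonneg B ξ
      have b1 := br_le B hBpos ξ
      have b2 : 0 ≤ 1 - br B ξ ^ 2 := by nlinarith
      rw [e2, norm_mul, Complex.norm_real, Real.norm_of_nonneg b2, norm_pow, mul_pow]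
      have n0 := norm_nonneg (hat (f l) ξ)
      have h3 : (1 - br B ξ ^ 2) ^ 2 * ‖hat (f l) ξ‖ ≤ σ * N := by
        by_cases hξ : ξ ∈ Λ
        · have h4 : 1 - br B ξ ≤ 2 * (8 / T) := by
            apply br_near B hBpos
            intro x hx
            rw [hB, mem_bohr] at hx
            exact chi_near _ T hT1 (hx ξ hξ)
          have h5 : (1 - br B ξ ^ 2) ^ 2 ≤ 32 / T := by
            have h6 : 1 - br B ξ ^ 2 ≤ 2 * (1 - br B ξ) := by nlinarith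
            have h7 : (1 - br B ξ ^ 2) ^ 2 ≤ 1 - br B ξ ^ 2 := by nlinarith
            have h8 : 2 * (2 * (8 / (T : ℝ))) = 32 / T := by ring
            linarith
          have h9 := hat_sup (f l) C₂ hC₂.le (H2 l) ξ
          calc (1 - br B ξ ^ 2) ^ 2 * ‖hat (f l) ξ‖ ≤ 32 / T * ((1 + C₂) * N) :=
                mul_le_mul h5 h9 n0 (by positivity)
            _ = (32 * (1 + C₂) / T) * N := by ring
            _ ≤ σ * N := by
                apply mul_le_mul_of_nonneg_right _ hN0.le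
                rw [div_le_iff₀ hT0]
                have hTσ' := (div_le_iff₀ hσ0).1 hTσ
                linarith
        · have h4 : ‖hat (f l) ξ‖ < σ * N := by
            by_contra hcon
            push Not at hcon
            apply hξ
            rw [hΛ]
            apply mem_insert_of_mem
            rw [mem_biUnion]
            exact ⟨l, mem_univ _, mem_filter.2 ⟨mem_univ _, hcon⟩⟩
          have h5 : (1 - br B ξ ^ 2) ^ 2 ≤ 1 := by
            have : 1 - br B ξ ^ 2 ≤ 1 := by nlinarith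
            nlinarith
          calc (1 - br B ξ ^ 2) ^ 2 * ‖hat (f l) ξ‖ ≤ 1 * ‖hat (f l) ξ‖ := mul_le_mul_of_nonneg_right h5 n0
            _ ≤ σ * N := by linarith
      calc (1 - br B ξ ^ 2) ^ 2 * (‖hat (f l) ξ‖ ^ 2) ^ 2 = ((1 - br B ξ ^ 2) ^ 2 * ‖hat (f l) ξ‖) * ‖hat (f l) ξ‖ ^ 3 := by ring
        _ ≤ σ * N * ‖hat (f l) ξ‖ ^ 3 := mul_le_mul_of_nonneg_right h3 (by positivity))
    have h2 : ∑ s, (cv (f l) (f l) s - cv (g l) (g l) s) ^ 2 ≤ σ * C₂ * (N : ℝ) ^ 3 := by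
      have h3 : N * ∑ s, (cv (f l) (f l) s - cv (g l) (g l) s) ^ 2 ≤ N * (σ * C₂ * (N : ℝ) ^ 3) := by
        refine h1.trans ?_
        calc σ * N * ∑ ξ, ‖hat (f l) ξ‖ ^ 3 ≤ σ * N * (C₂ * (N : ℝ) ^ 3) := mul_le_mul_of_nonneg_left (H2 l) (by positivity)
          _ = _ := by ring
      exact le_of_mul_le_mul_left h3 hN0
    have hinj : Set.InjOn (fun m : ZMod N => m + m) Z := by
      intro a ha b hb hab
      have a1 := hZ a (mem_coe.1 ha)
      have a2 := hZ b (mem_coe.1 hb)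
      simp only at hab
      have e1 : (a + a).val = a.val + a.val := ZMod.val_add_of_lt (by omega)
      have e2 : (b + b).val = b.val + b.val := ZMod.val_add_of_lt (by omega)
      apply ZMod.val_injective N
      have := congrArg ZMod.val hab
      omega
    have h4 : ∑ m ∈ Z, (cv (f l) (f l) (m + m) - cv (g l) (g l) (m + m)) ^ 2 ≤ σ * C₂ * (N : ℝ) ^ 3 := by
      refine le_trans ?_ h2
      rw [← sum_image (f := fun s => (cv (f l) (f l) s - cv (g l) (g l) s) ^ 2) hinj]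
      exact sum_le_sum_of_subset_of_nonneg (subset_univ _) fun _ _ _ => by positivity
    have h5 : (∑ m ∈ Z, (cv (f l) (f l) (m + m) - cv (g l) (g l) (m + m))) ^ 2 ≤ Z.card * (σ * C₂ * (N : ℝ) ^ 3) :=
      sq_sum_le_card_mul_sum_sq.trans (mul_le_mul_of_nonneg_left h4 (Nat.cast_nonneg _))
    have h6 : (Z.card : ℝ) ≤ N := by
      have : Z.card ≤ N := by
        refine (card_le_univ Z).trans ?_
        rw [ZMod.card]
      exact_mod_cast this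
    have h7 : (∑ m ∈ Z, (cv (f l) (f l) (m + m) - cv (g l) (g l) (m + m))) ^ 2 ≤ ((c / k) * (N : ℝ) ^ 2) ^ 2 := by
      refine h5.trans ?_
      calc (Z.card : ℝ) * (σ * C₂ * (N : ℝ) ^ 3) ≤ N * (σ * C₂ * (N : ℝ) ^ 3) := mul_le_mul_of_nonneg_right h6 (by positivity)
        _ = (c / k) ^ 2 * (N : ℝ) ^ 4 := by
            rw [hσ]; field_simp
        _ = _ := by ring
    exact abs_le_of_sq_le_sq h7 (by positivity)
  have hfin : ∑ m ∈ Z, ∑ l, cv (f l) (f l) (m + m) - ∑ m ∈ Z, ∑ l, cv (g l) (g l) (m + m) =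
      ∑ l, ∑ m ∈ Z, (cv (f l) (f l) (m + m) - cv (g l) (g l) (m + m)) := by
    rw [← sum_sub_distrib, sum_comm (s := (univ : Finset (Fin k)))]
    apply sum_congr rfl
    intro m _
    rw [sum_sub_distrib]
  have hfin2 : -(c * (N : ℝ) ^ 2) ≤ ∑ l, ∑ m ∈ Z, (cv (f l) (f l) (m + m) - cv (g l) (g l) (m + m)) := by
    calc -(c * (N : ℝ) ^ 2) = ∑ _l : Fin k, -((c / k) * (N : ℝ) ^ 2) := by
          rw [sum_const, card_univ, Fintype.card_fin, nsmul_eq_mul]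
          field_simp
      _ ≤ _ := sum_le_sum fun l _ => (abs_le.1 (hdiff l)).1
  linarith

end Pool.Agent.H563.RG
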