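import Mathlib
import Pool.Graph.R_seed8.H373R2.NB.SupE
import Pool.Graph.R_seed8.H373R2.NB.ModelB
import Pool.Graph.R_seed8.Helper602.MK.J1a
import Pool.Graph.R_pool_sql_team_seeded_35f281b4.K7.H64.LS.Uni
import Pool.Agent.H563.RG.Bohr

set_option autoImplicit false

/-! The restriction estimate for the primes of one residue class, uniformly in the modulus. -/

namespace Pool.Agent.H563.RG

open Finset
open Pool.Agent.H373R2.NB (hat chi_eq sum_val)
open Pool.Agent.Helper602.MK (PP J3Stmt J1aStmt)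
open Pool.Agent.Y843.HS (VV Pr)
open Pool.Agent.K7.H64.LS (ZS Adm Good)

/-- the linear polynomial `W X + b` -/
noncomputable def lin (W b : ℕ) : Unit → Polynomial ℤ := fun _ => Polynomial.C (W : ℤ) * Polynomial.X + Polynomial.C (b : ℤ)

lemma lin_eval (W b : ℕ) (i : Unit) (m : ℕ) : (lin W b i).eval (m : ℤ) = ((W * m + b : ℕ) : ℤ) := by
  unfold lin
  simp

lemma lin_deg (W b : ℕ) (hW : 1 ≤ W) (i : Unit) : (lin W b i).natDegree = 1 := by
  unfold lin
  apply Polynomial.natDegree_linear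
  exact_mod_cast (by omega : W ≠ 0)

lemma lin_adm (W b : ℕ) (hW : 1 ≤ W) (hb : Nat.Coprime b W) : Adm (lin W b) 1 := by
  refine ⟨fun i => by rw [lin_deg W b hW]; norm_num, by simp [lin_deg W b hW], ?_⟩
  intro p hp
  by_cases h : p ∣ b
  · refine ⟨1, fun i => ?_⟩
    rw [lin_eval]
    intro h1
    have h2 : p ∣ W * 1 + b := by exact_mod_cast h1
    have h3 : p ∣ W := by
      have := (Nat.dvd_add_left h).1 h2
      simpa using this
    have := Nat.dvd_gcd h h3
    rw [hb] at this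
    exact hp.one_lt.ne' (Nat.dvd_one.1 this)
  · refine ⟨0, fun i => ?_⟩
    rw [lin_eval]
    intro h1
    have h2 : p ∣ W * 0 + b := by exact_mod_cast h1
    apply h
    simpa using h2

lemma ZS_lin (W b p : ℕ) (hp : p.Prime) (hpW : ¬ p ∣ W) : 1 ≤ (ZS (lin W b) p).card := by
  have : Fact p.Prime := ⟨hp⟩
  rw [Nat.one_le_iff_ne_zero, Finset.card_ne_zero]
  have hW0 : (W : ZMod p) ≠ 0 := by
    rw [Ne, ZMod.natCast_eq_zero_iff]; exact hpW
  refine ⟨(-(b : ZMod p) * (W : ZMod p)⁻¹).val % p, ?_⟩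
  rw [Pool.Agent.K7.H64.LS.ZS_mem _ hp.pos]
  refine ⟨(), ?_⟩
  rw [lin_eval, Int.natCast_dvd_natCast, ← ZMod.natCast_eq_zero_iff]
  push_cast
  rw [ZMod.natCast_zmod_val]
  field_simp
  ring

lemma VV_lin : ∃ C : ℝ, 0 < C ∧ ∀ W b L : ℕ, 1 ≤ W → 2 ≤ L →
    0 ≤ VV (ZS (lin W b)) 0 L ∧ VV (ZS (lin W b)) 0 L ≤ C * ((W : ℝ) / Nat.totient W) / Real.log L := by
  obtain ⟨C, hC, _, _, h3⟩ := Pool.Agent.Helper602.MK.N_J1a.J1a
  refine ⟨C, by linarith, ?_⟩
  intro W b L hW hL
  have hL2 : (2 : ℝ) ≤ L := by exact_mod_cast hL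
  have hlL : 0 < Real.log L := Real.log_pos (by linarith)
  have hφ : 0 < Nat.totient W := Nat.totient_pos.2 hW
  have hφ0 : (0 : ℝ) < Nat.totient W := by exact_mod_cast hφ
  have hW0 : (0 : ℝ) < W := by exact_mod_cast hW
  have hfac : ∀ p ∈ Pr 0 L, 0 ≤ 1 - (((ZS (lin W b) p).card : ℝ) / p) := by
    intro p hp
    unfold Pr at hp
    rw [mem_filter, mem_Ioc] at hp
    have hp0 : (0 : ℝ) < p := by exact_mod_cast hp.1.1
    rw [sub_nonneg, div_le_one hp0]
    have h1 : (ZS (lin W b) p).card ≤ p := by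
      have : ZS (lin W b) p ⊆ range p := fun c hc => mem_range.2 (Pool.Agent.K7.H64.LS.ZS_lt _ _ c hc)
      simpa using card_le_card this
    exact_mod_cast h1
  refine ⟨prod_nonneg hfac, ?_⟩
  have h1 : VV (ZS (lin W b)) 0 L ≤ ∏ p ∈ Pr 0 L, (if p ∣ W then (1 : ℝ) else 1 - 1 / p) := by
    unfold VV
    apply prod_le_prod hfac
    intro p hp
    unfold Pr at hp
    rw [mem_filter, mem_Ioc] at hp
    have hp0 : (0 : ℝ) < p := by exact_mod_cast hp.1.1
    split_ifs with h
    · have : 0 ≤ ((ZS (lin W b) p).card : ℝ) / p := by positivity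
      linarith
    · have h2 : (1 : ℝ) ≤ (ZS (lin W b) p).card := by exact_mod_cast ZS_lin W b p hp.2 h
      have h3 : 1 / (p : ℝ) ≤ ((ZS (lin W b) p).card : ℝ) / p := div_le_div_of_nonneg_right h2 hp0.le
      linarith
  have hset : Pr 0 L = (range (L + 1)).filter Nat.Prime := by
    ext p
    unfold Pr
    rw [mem_filter, mem_filter, mem_Ioc, mem_range]
    constructor
    · rintro ⟨⟨_, h⟩, hp⟩; exact ⟨by omega, hp⟩
    · rintro ⟨h, hp⟩; exact ⟨⟨hp.pos, by omega⟩, hp⟩
  have h2 : (∏ p ∈ Pr 0 L, (if p ∣ W then (1 : ℝ) else 1 - 1 / p)) * ((Nat.totient W : ℝ) / W) ≤ ∏ p ∈ Pr 0 L, (1 - 1 / (p : ℝ)) := by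
    have e1 : (Nat.totient W : ℝ) / W = ∏ p ∈ W.primeFactors, (1 - 1 / (p : ℝ)) := by
      have := Nat.totient_eq_mul_prod_factors W
      have h4 : ((Nat.totient W : ℕ) : ℝ) = W * ∏ p ∈ W.primeFactors, (1 - ((p : ℝ))⁻¹) := by
        have h5 := congrArg (fun q : ℚ => (q : ℝ)) this
        push_cast at h5
        exact h5
      rw [h4, mul_comm, mul_div_assoc, div_self hW0.ne', mul_one]
      apply prod_congr rfl
      intro p _
      rw [one_div]
    have hf1 : ∀ p ∈ W.primeFactors, (0 : ℝ) ≤ 1 - 1 / p ∧ (1 : ℝ) - 1 / p ≤ 1 := by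
      intro p hp
      have hp1 : (1 : ℝ) ≤ p := by exact_mod_cast (Nat.prime_of_mem_primeFactors hp).one_le
      constructor
      · rw [sub_nonneg, div_le_one (by linarith)]; exact hp1
      · have : 0 ≤ 1 / (p : ℝ) := by positivity
        linarith
    have e2 : ∏ p ∈ W.primeFactors, (1 - 1 / (p : ℝ)) ≤ ∏ p ∈ (Pr 0 L).filter (fun p => p ∣ W), (1 - 1 / (p : ℝ)) := by
      have hsub : (Pr 0 L).filter (fun p => p ∣ W) ⊆ W.primeFactors := by
        intro p hp
        rw [mem_filter, hset, mem_filter] at hp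
        exact Nat.mem_primeFactors.2 ⟨hp.1.2, hp.2, by omega⟩
      rw [← prod_sdiff hsub]
      apply mul_le_of_le_one_left
      · exact prod_nonneg fun p hp => (hf1 p (hsub hp)).1
      · exact prod_le_one (fun p hp => (hf1 p (mem_sdiff.1 hp).1).1) (fun p hp => (hf1 p (mem_sdiff.1 hp).1).2)
    have e3 : ∏ p ∈ Pr 0 L, (1 - 1 / (p : ℝ)) = (∏ p ∈ Pr 0 L, (if p ∣ W then (1 : ℝ) else 1 - 1 / p)) *
        ∏ p ∈ (Pr 0 L).filter (fun p => p ∣ W), (1 - 1 / (p : ℝ)) := by
      rw [prod_filter, ← prod_mul_distrib]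
      apply prod_congr rfl
      intro p _
      split_ifs <;> ring
    rw [e1, e3]
    apply mul_le_mul_of_nonneg_left e2
    apply prod_nonneg
    intro p hp
    rw [hset, mem_filter] at hp
    split_ifs
    · norm_num
    · have hp1 : (1 : ℝ) ≤ p := by exact_mod_cast hp.2.one_le
      rw [sub_nonneg, div_le_one (by linarith)]; exact hp1
  have h4 : ∏ p ∈ Pr 0 L, (1 - 1 / (p : ℝ)) ≤ C / Real.log L := by
    rw [hset]
    refine (h3 (L + 1) (by omega)).trans ?_
    apply div_le_div_of_nonneg_left (by linarith) hlL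
    apply Real.log_le_log (by linarith)
    push_cast; linarith
  have h5 : (∏ p ∈ Pr 0 L, (if p ∣ W then (1 : ℝ) else 1 - 1 / p)) ≤ (C / Real.log L) * (W / Nat.totient W) := by
    rw [mul_div_assoc', le_div_iff₀ hφ0]
    have h6 := h2.trans h4
    rw [mul_div_assoc', div_le_iff₀ hW0] at h6
    exact h6
  refine h1.trans (h5.trans (le_of_eq ?_))
  ring

/-- the normalising constant -/
noncomputable def cst (W X : ℕ) : ℝ := (Nat.totient W : ℝ) / W * Real.log (2 * X : ℕ)

lemma cst_nonneg (W X : ℕ) : 0 ≤ cst W X := by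
  unfold cst
  have : 0 ≤ Real.log (2 * X : ℕ) := Real.log_natCast_nonneg _
  positivity

/-- the restriction estimate -/
theorem restr_class : ∃ C₂ : ℝ, 0 < C₂ ∧ ∀ W : ℕ, 1 ≤ W → ∃ X₀ : ℕ, ∀ X : ℕ, X₀ ≤ X → ∀ b : ℕ, b < W → Nat.Coprime b W →
    ∀ L N : ℕ, ∀ _ : NeZero N, L = 2 * X / W + 1 → N = 2 * L + 1 → ∀ P : ℕ → Prop, ∀ _ : DecidablePred P,
    (∀ x, P x → x < L ∧ W * x + b ∈ PP (2 * X)) →
    ∑ ξ : ZMod N, ‖hat (fun x : ZMod N => if P x.val then cst W X else 0) ξ‖ ^ 3 ≤ C₂ * (N : ℝ) ^ 3 := by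
  obtain ⟨C, hC, hls⟩ := Pool.Agent.K7.H64.LS.lsp_uni (ι := Unit) 1 (κ := 1 / 2) (by norm_num) (s := 3 / 2) (by norm_num)
  obtain ⟨C₁, hC₁, hV⟩ := VV_lin
  obtain ⟨C₃, hC₃, hJ3⟩ := Pool.Agent.Helper602.MK.N_J3.J3
  refine ⟨C * (16 * C₁ * C₃) ^ (3 / 2 : ℝ), by positivity, ?_⟩
  intro W hW
  refine ⟨W ^ 4 + 4, ?_⟩
  intro X hX b hbW hb L N hNz hL hN P hdec hP
  have hW0 : (0 : ℝ) < W := by exact_mod_cast hW
  have hWX : W ^ 4 ≤ X := by omega
  have hW2 : W ^ 2 * W ^ 2 ≤ X := by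
    calc W ^ 2 * W ^ 2 = W ^ 4 := by ring
      _ ≤ X := hWX
  have hW1 : 1 ≤ W ^ 2 := Nat.one_le_pow _ _ hW
  have hL2 : 2 ≤ L := by
    have : 1 ≤ 2 * X / W := by
      rw [Nat.le_div_iff_mul_le (by omega)]
      nlinarith
    omega
  have hLr : (2 : ℝ) ≤ L := by exact_mod_cast hL2
  have hL0 : (0 : ℝ) < L := by linarith
  have hN1 : 1 ≤ N := by omega
  have hN0 : (0 : ℝ) < N := by exact_mod_cast hN1
  have hlL : 0 < Real.log L := Real.log_pos (by linarith)
  have hφ : 0 < Nat.totient W := Nat.totient_pos.2 hW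
  have hφ0 : (0 : ℝ) < Nat.totient W := by exact_mod_cast hφ
  -- the logarithms
  have hlog : Real.log (2 * X : ℕ) ≤ 2 * Real.log L := by
    have h1 : 2 * X ≤ L * L := by
      have h2 : 2 * X < W * L := by
        rw [hL]
        have := Nat.lt_mul_div_succ (2 * X) (show 0 < W by omega)
        exact this
      have h3 : W ≤ L := by
        by_contra hcon
        push Not at hcon
        have : W * L < W * W := Nat.mul_lt_mul_of_pos_left hcon (by omega)
        nlinarith
      nlinarith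
    have h4 : Real.log (2 * X : ℕ) ≤ Real.log ((L : ℝ) * L) := by
      apply Real.log_le_log
      · exact_mod_cast (by omega : 0 < 2 * X)
      · exact_mod_cast h1
    rw [Real.log_mul (by linarith) (by linarith)] at h4
    linarith
  have hlog0 : 0 ≤ Real.log (2 * X : ℕ) := Real.log_natCast_nonneg _
  -- the set
  obtain ⟨S, hS⟩ : ∃ S : Finset ℕ, S = (Ioc 0 (0 + L)).filter P := ⟨_, rfl⟩
  have hPpos : ∀ x, P x → 0 < x := by
    intro x hx
    obtain ⟨h1, h2⟩ := hP x hx
    rcases Nat.eq_zero_or_pos x with h0 | h0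
    · exfalso
      rw [h0, mul_zero, zero_add, PP, mem_filter] at h2
      have h3 := h2.2.2
      have h4 : b ^ 2 ≤ W ^ 2 := Nat.pow_le_pow_left hbW.le 2
      nlinarith
    · exact h0
  have hSsub : S ⊆ Ioc 0 (0 + L) := by rw [hS]; exact filter_subset _ _
  have hSgood : ∀ n ∈ S, Good (lin W b) (1 / 2) L n := by
    intro n hn
    rw [hS, mem_filter] at hn
    right
    intro i
    rw [lin_eval, Int.natAbs_natCast]
    have := (hP n hn.2).2
    rw [PP, mem_filter] at this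
    exact this.2.1
  have hScard : (S.card : ℝ) ≤ C₃ * ((W : ℝ) / Nat.totient W) * L / Real.log L := by
    refine le_trans ?_ (hJ3 b W L hW hL2)
    have : S ⊆ (range L).filter (fun t => (b + t * W).Prime) := by
      intro n hn
      rw [hS, mem_filter] at hn
      obtain ⟨h1, h2⟩ := hP n hn.2
      rw [PP, mem_filter] at h2
      rw [mem_filter, mem_range]
      refine ⟨h1, ?_⟩
      rw [add_comm, mul_comm]
      exact h2.2.1
    exact_mod_cast card_le_card this
  -- the points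
  have hsep : ∀ i ∈ (univ : Finset (ZMod N)), ∀ j ∈ (univ : Finset (ZMod N)), i ≠ j →
      Pool.Agent.Helper112.lsSep N ((j.val : ℝ) / N - (i.val : ℝ) / N) := by
    intro i _ j _ hij
    have hi := ZMod.val_lt i
    have hj := ZMod.val_lt j
    have hne : i.val ≠ j.val := fun h => hij (ZMod.val_injective N h)
    have key : ∀ d : ℕ, 1 ≤ d → d < N → Pool.Agent.Helper112.lsSep N ((d : ℝ) / N) := by
      intro d hd1 hdN
      have hd1' : (1 : ℝ) ≤ d := by exact_mod_cast hd1
      have hdN' : (d : ℝ) + 1 ≤ N := by exact_mod_cast hdN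
      have hfr : Int.fract ((d : ℝ) / N) = (d : ℝ) / N := by
        rw [Int.fract_eq_self]
        exact ⟨by positivity, by rw [div_lt_one hN0]; linarith⟩
      unfold Pool.Agent.Helper112.lsSep
      rw [hfr]
      constructor
      · exact div_le_div_of_nonneg_right hd1' hN0.le
      · rw [le_sub_iff_add_le, ← add_div, div_le_one hN0]; exact hdN'
    rcases lt_or_gt_of_ne hne with h | h
    · have e : (j.val : ℝ) / N - (i.val : ℝ) / N = ((j.val - i.val : ℕ) : ℝ) / N := by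
        rw [Nat.cast_sub h.le]; ring
      rw [e]
      exact key _ (by omega) (by omega)
    · have e : (j.val : ℝ) / N - (i.val : ℝ) / N = -(((i.val - j.val : ℕ) : ℝ) / N) := by
        rw [Nat.cast_sub h.le]; ring
      rw [e]
      exact (Pool.Agent.Helper112.lsSep_neg hN1 (key _ (by omega) (by omega))).1
  have hmain := hls (lin W b) (lin_adm W b hW hb) L hL2 0 S hSsub hSgood (ZMod N) univ (fun r => (r.val : ℝ) / N) N hN1 hsep
    (fun _ => (cst W X : ℂ))
  -- the transform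
  have hhat : ∀ ξ : ZMod N, hat (fun x : ZMod N => if P x.val then cst W X else 0) ξ =
      ∑ n ∈ S, (cst W X : ℂ) * Pool.Agent.Helper112.ee (n * ((ξ.val : ℝ) / N)) := by
    intro ξ
    have h1 : hat (fun x : ZMod N => if P x.val then cst W X else 0) ξ =
        ∑ x : ZMod N, (fun t : ℕ => if P t then (cst W X : ℂ) * Pool.Agent.Helper112.ee (t * ((ξ.val : ℝ) / N)) else 0) x.val := by
      unfold hat
      apply sum_congr rfl
      intro x _
      simp only
      split_ifs with h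
      · conv_lhs => rw [← ZMod.natCast_zmod_val x]
        rw [chi_eq]
        congr 1
        unfold Pool.Agent.Helper602.MK.ee Pool.Agent.Helper112.ee
        congr 1
        push_cast
        ring
      · rw [Complex.ofReal_zero, zero_mul]
    rw [h1, sum_val (fun t : ℕ => if P t then (cst W X : ℂ) * Pool.Agent.Helper112.ee (t * ((ξ.val : ℝ) / N)) else 0), ← sum_filter]
    apply sum_congr _ (fun _ _ => rfl)
    rw [hS]
    ext x
    rw [mem_filter, mem_filter, mem_range, mem_Ioc]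
    constructor
    · rintro ⟨_, h⟩
      have := (hP x h).1
      exact ⟨⟨hPpos x h, by omega⟩, h⟩
    · rintro ⟨_, h⟩
      have := (hP x h).1
      exact ⟨by omega, h⟩
  have hL3 : ∑ ξ : ZMod N, ‖hat (fun x : ZMod N => if P x.val then cst W X else 0) ξ‖ ^ 3 ≤
      C * (((L : ℝ) + N) * VV (ZS (lin W b)) 0 L * ∑ n ∈ S, ‖(cst W X : ℂ)‖ ^ 2) ^ (3 / 2 : ℝ) := by
    refine le_trans (le_of_eq ?_) hmain
    apply sum_congr rfl
    intro ξ _
    rw [hhat]
    rw [← Real.rpow_natCast _ 3, ← Real.rpow_natCast _ 2, ← Real.rpow_mul (norm_nonneg _)]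
    norm_num
  refine hL3.trans ?_
  have hsq : ∑ n ∈ S, ‖(cst W X : ℂ)‖ ^ 2 = S.card * cst W X ^ 2 := by
    rw [sum_const, nsmul_eq_mul, Complex.norm_real, Real.norm_of_nonneg (cst_nonneg W X)]
  rw [hsq]
  obtain ⟨hV0, hV1⟩ := hV W b L hW hL2
  have hNL : (N : ℝ) = 2 * L + 1 := by rw [hN]; push_cast; ring
  have hinner : ((L : ℝ) + N) * VV (ZS (lin W b)) 0 L * (S.card * cst W X ^ 2) ≤ 16 * C₁ * C₃ * (N : ℝ) ^ 2 := by
    have hc2 : cst W X ≤ (Nat.totient W : ℝ) / W * (2 * Real.log L) := by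
      unfold cst
      exact mul_le_mul_of_nonneg_left hlog (by positivity)
    have hc3 : cst W X ^ 2 ≤ ((Nat.totient W : ℝ) / W * (2 * Real.log L)) ^ 2 := pow_le_pow_left₀ (cst_nonneg W X) hc2 2
    calc ((L : ℝ) + N) * VV (ZS (lin W b)) 0 L * (S.card * cst W X ^ 2) ≤
        ((L : ℝ) + N) * (C₁ * ((W : ℝ) / Nat.totient W) / Real.log L) *
          ((C₃ * ((W : ℝ) / Nat.totient W) * L / Real.log L) * ((Nat.totient W : ℝ) / W * (2 * Real.log L)) ^ 2) := by
          apply mul_le_mul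
          · exact mul_le_mul_of_nonneg_left hV1 (by positivity)
          · exact mul_le_mul hScard hc3 (by positivity) (by positivity)
          · positivity
          · positivity
      _ = 4 * C₁ * C₃ * (L + N) * L := by
          field_simp
          ring
      _ ≤ 16 * C₁ * C₃ * (N : ℝ) ^ 2 := by
          have h1 : (L + N : ℝ) * L ≤ 4 * (N : ℝ) ^ 2 := by rw [hNL]; nlinarith
          have h2 : 0 < C₁ * C₃ := by positivity
          nlinarith
  calc C * (((L : ℝ) + N) * VV (ZS (lin W b)) 0 L * (S.card * cst W X ^ 2)) ^ (3 / 2 : ℝ) ≤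
      C * (16 * C₁ * C₃ * (N : ℝ) ^ 2) ^ (3 / 2 : ℝ) := by
        apply mul_le_mul_of_nonneg_left _ hC.le
        apply Real.rpow_le_rpow _ hinner (by norm_num)
        have := cst_nonneg W X
        positivity
    _ = C * (16 * C₁ * C₃) ^ (3 / 2 : ℝ) * (N : ℝ) ^ 3 := by
        rw [Real.mul_rpow (by positivity) (by positivity), ← Real.rpow_natCast _ 2, ← Real.rpow_mul hN0.le]
        norm_num
        ring

end Pool.Agent.H563.RG
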