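import Mathlib
import Pool.Graph.R_seed8.Helper602.MK.J5b

set_option autoImplicit false

/-! The normalised indicator of the arguments at which a linear polynomial has no prime factor in a given finite
set of large primes has no large exponential sums. -/

namespace Pool.Agent.H563.RG

open Finset
open Pool.Agent.Helper602.MK (ee)
open Pool.Agent.Helper602.MK.N_J5b (norm_ee ee_add ee_zero ee_int ee_nat_mul ee_add_int KD KD_far ee_eq_one_iff)

/-- the local factor -/
noncomputable def gp (p n : ℕ) : ℝ := if p ∣ n then 0 else (p : ℝ) / (p - 1)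

/-- the sum over the nontrivial characters modulo `p` -/
lemma sum_ee_range (p : ℕ) (hp : 0 < p) (n : ℕ) : ∑ a ∈ range p, ee ((a : ℝ) * ((n : ℝ) / p)) = if p ∣ n then (p : ℂ) else 0 := by
  have hp0 : (p : ℝ) ≠ 0 := by exact_mod_cast hp.ne'
  have e : ∑ a ∈ range p, ee ((a : ℝ) * ((n : ℝ) / p)) = ∑ a ∈ range p, ee ((n : ℝ) / p) ^ a := by
    apply sum_congr rfl
    intro a _
    rw [ee_nat_mul]
  rw [e]
  split_ifs with h
  · obtain ⟨m, rfl⟩ := h
    have h1 : ee (((p * m : ℕ) : ℝ) / p) = 1 := by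
      have : ((p * m : ℕ) : ℝ) / p = ((m : ℤ) : ℝ) := by push_cast; field_simp
      rw [this, ee_int]
    rw [h1]
    simp
  · have hne : ee ((n : ℝ) / p) ≠ 1 := by
      intro h1
      rw [ee_eq_one_iff] at h1
      obtain ⟨m, hm⟩ := h1
      apply h
      rw [div_eq_iff hp0] at hm
      have h2 : (n : ℤ) = m * p := by exact_mod_cast hm
      have h3 : (p : ℤ) ∣ n := ⟨m, by rw [h2]; ring⟩
      exact_mod_cast h3
    rw [geom_sum_eq hne, ← ee_nat_mul]
    have : (p : ℝ) * ((n : ℝ) / p) = ((n : ℤ) : ℝ) := by push_cast; field_simp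
    rw [this, ee_int, sub_self, zero_div]

/-- the coefficients -/
noncomputable def al (p a : ℕ) : ℝ := if a = 0 then 1 else -1 / ((p : ℝ) - 1)

lemma gp_eq (p : ℕ) (hp : 2 ≤ p) (n : ℕ) : ((gp p n : ℝ) : ℂ) = ∑ a ∈ range p, (al p a : ℂ) * ee ((a : ℝ) * ((n : ℝ) / p)) := by
  have hp2 : (2 : ℝ) ≤ p := by exact_mod_cast hp
  have hp1 : (p : ℝ) - 1 ≠ 0 := by linarith
  have hp1c : (p : ℂ) - 1 ≠ 0 := by exact_mod_cast hp1
  have h1 := sum_ee_range p (by omega) n
  have h2 : ∑ a ∈ range p, (al p a : ℂ) * ee ((a : ℝ) * ((n : ℝ) / p)) =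
      (p / (p - 1) : ℂ) - (1 / (p - 1) : ℂ) * ∑ a ∈ range p, ee ((a : ℝ) * ((n : ℝ) / p)) := by
    obtain ⟨q, rfl⟩ : ∃ q, p = q + 1 := ⟨p - 1, by omega⟩
    rw [sum_range_succ', sum_range_succ']
    have h3 : ∀ a ∈ range q, (al (q + 1) (a + 1) : ℂ) * ee (((a + 1 : ℕ) : ℝ) * ((n : ℝ) / (q + 1 : ℕ))) =
        -(1 / (((q + 1 : ℕ) : ℂ) - 1)) * ee (((a + 1 : ℕ) : ℝ) * ((n : ℝ) / (q + 1 : ℕ))) := by
      intro a _
      unfold al
      rw [if_neg (by omega)]
      push_cast
      ring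
    rw [sum_congr rfl h3, ← mul_sum]
    have h4 : (al (q + 1) 0 : ℂ) = 1 := by unfold al; rw [if_pos rfl]; simp
    rw [h4, Nat.cast_zero, zero_mul, ee_zero]
    generalize (∑ a ∈ range q, ee (((a + 1 : ℕ) : ℝ) * ((n : ℝ) / (q + 1 : ℕ)))) = s
    field_simp
    ring
  rw [h2, h1]
  unfold gp
  split_ifs
  · rw [Complex.ofReal_zero]
    field_simp
    ring
  · rw [mul_zero, sub_zero]
    push_cast
    ring

lemma al_le (p a w : ℕ) (hw : 1 ≤ w) (hp : w < p) : |al p a| ≤ 1 ∧ (a ≠ 0 → |al p a| ≤ 1 / w) := by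
  have hw0 : (1 : ℝ) ≤ w := by exact_mod_cast hw
  have hp0 : (w : ℝ) + 1 ≤ p := by exact_mod_cast hp
  unfold al
  split_ifs with h
  · exact ⟨by norm_num, fun h1 => absurd h h1⟩
  · have h2 : |(-1 : ℝ) / ((p : ℝ) - 1)| ≤ 1 / w := by
      rw [abs_div, abs_neg, abs_one, abs_of_pos (by linarith)]
      exact div_le_div_of_nonneg_left (by norm_num) (by linarith) (by linarith)
    refine ⟨h2.trans ?_, fun _ => h2⟩
    rw [div_le_one (by linarith)]
    exact hw0

/-- the expansion -/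
theorem expand (W b w : ℕ) (hw : 1 ≤ w) (S : Finset ℕ) (hS : ∀ p ∈ S, p.Prime ∧ w < p ∧ ¬ p ∣ W) :
    ∃ (ι : Type) (_ : Fintype ι) (c : ι → ℂ) (φ : ι → ℝ) (i₀ : ι),
      (∀ x : ℕ, ((∏ p ∈ S, gp p (W * x + b) : ℝ) : ℂ) = ∑ i, c i * ee (x * φ i)) ∧
      c i₀ = 1 ∧ φ i₀ = 0 ∧ (∀ i, ‖c i‖ ≤ 1) ∧ (∀ i, i ≠ i₀ → ‖c i‖ ≤ 1 / w) ∧ Fintype.card ι = ∏ p ∈ S, p ∧
      (∀ i j, i ≠ j → (∃ m : ℤ, ((∏ p ∈ S, p : ℕ) : ℝ) * (φ i - φ j) = m) ∧ ∀ m : ℤ, φ i - φ j ≠ m) := by
  induction S using Finset.induction_on with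
  | empty =>
    refine ⟨Unit, inferInstance, fun _ => 1, fun _ => 0, (), ?_, rfl, rfl, fun _ => by simp, ?_, by simp, ?_⟩
    · intro x
      simp [ee_zero]
    · intro i hi
      exact absurd rfl hi
    · intro i j hij
      exact absurd rfl hij
  | insert q S hq ih =>
    obtain ⟨ι, hι, c, φ, i₀, h1, h2, h3, h4, h5, h6, h7⟩ := ih (fun p hp => hS p (mem_insert_of_mem hp))
    obtain ⟨hqp, hqw, hqW⟩ := hS q (mem_insert_self _ _)
    have hq0 : (q : ℝ) ≠ 0 := by exact_mod_cast hqp.ne_zero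
    obtain ⟨P, hP⟩ : ∃ P : ℕ, P = ∏ p ∈ S, p := ⟨_, rfl⟩
    have hqP : ¬ q ∣ P := by
      intro h
      rw [hP, Prime.dvd_finsetProd_iff hqp.prime] at h
      obtain ⟨p, hp, hd⟩ := h
      have := (Nat.prime_dvd_prime_iff_eq hqp (hS p (mem_insert_of_mem hp)).1).1 hd
      exact hq (this ▸ hp)
    have hq1 : 0 < q := hqp.pos
    have : NeZero q := ⟨hqp.ne_zero⟩
    refine ⟨ι × Fin q, inferInstance, fun y => c y.1 * (al q y.2.val : ℂ) * ee ((y.2.val : ℝ) * ((b : ℝ) / q)),
      fun y => φ y.1 + (y.2.val : ℝ) * W / q, (i₀, 0), ?_, ?_, ?_, ?_, ?_, ?_, ?_⟩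
    · intro x
      rw [prod_insert hq, Complex.ofReal_mul, h1 x, gp_eq q hqp.two_le, Fintype.sum_prod_type, mul_comm, sum_mul]
      apply sum_congr rfl
      intro i _
      rw [mul_sum, ← Fin.sum_univ_eq_sum_range (fun a => c i * ee (x * φ i) * ((al q a : ℂ) * ee ((a : ℝ) * (((W * x + b : ℕ) : ℝ) / q))))]
      apply sum_congr rfl
      intro a _
      simp only
      have e : (x : ℝ) * (φ i + (a.val : ℝ) * W / q) = x * φ i + x * ((a.val : ℝ) * W / q) := by ring
      have e2 : (a.val : ℝ) * (((W * x + b : ℕ) : ℝ) / q) = (a.val : ℝ) * ((b : ℝ) / q) + x * ((a.val : ℝ) * W / q) := by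
        push_cast; ring
      rw [e, e2, ee_add, ee_add]
      ring
    · simp only
      rw [h2]
      have : ((0 : Fin q).val) = 0 := by simp
      rw [this]
      unfold al
      rw [if_pos rfl, Nat.cast_zero, zero_mul, ee_zero]
      simp
    · simp only
      rw [h3]
      simp
    · intro y
      simp only
      rw [norm_mul, norm_mul, norm_ee, mul_one, Complex.norm_real, Real.norm_eq_abs]
      have := (al_le q y.2.val w hw hqw).1
      have h8 := h4 y.1
      calc ‖c y.1‖ * |al q y.2.val| ≤ 1 * 1 := mul_le_mul h8 this (abs_nonneg _) (by norm_num)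
        _ = 1 := by norm_num
    · intro y hy
      simp only
      rw [norm_mul, norm_mul, norm_ee, mul_one, Complex.norm_real, Real.norm_eq_abs]
      obtain ⟨a1, a2⟩ := al_le q y.2.val w hw hqw
      have hw0 : (0 : ℝ) ≤ 1 / w := by positivity
      by_cases ha : y.2.val = 0
      · have hne : y.1 ≠ i₀ := by
          intro h
          apply hy
          exact Prod.ext h (Fin.ext (by rw [ha]; simp))
        calc ‖c y.1‖ * |al q y.2.val| ≤ (1 / w) * 1 := mul_le_mul (h5 y.1 hne) a1 (abs_nonneg _) hw0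
          _ = 1 / w := mul_one _
      · calc ‖c y.1‖ * |al q y.2.val| ≤ 1 * (1 / w) := mul_le_mul (h4 y.1) (a2 ha) (abs_nonneg _) (by norm_num)
          _ = 1 / w := one_mul _
    · rw [Fintype.card_prod, h6, Fintype.card_fin, prod_insert hq, mul_comm]
    · rintro ⟨i, a⟩ ⟨j, a'⟩ hij
      simp only
      rw [prod_insert hq, ← hP]
      rw [← hP] at h7
      have hm : ∃ m : ℤ, (P : ℝ) * (φ i - φ j) = m := by
        by_cases h : i = j
        · exact ⟨0, by rw [h]; simp⟩
        · exact (h7 i j h).1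
      obtain ⟨m, hm⟩ := hm
      constructor
      · refine ⟨q * m + P * ((a.val : ℤ) - a'.val) * W, ?_⟩
        have e : (((q * P : ℕ) : ℝ)) * (φ i + (a.val : ℝ) * W / q - (φ j + (a'.val : ℝ) * W / q)) =
            q * ((P : ℝ) * (φ i - φ j)) + P * ((a.val : ℝ) - a'.val) * W := by
          push_cast
          field_simp
          ring
        rw [e, hm]
        push_cast
        ring
      · intro m' hm'
        by_cases haa : a = a'
        · have hne : i ≠ j := by
            intro h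
            exact hij (by rw [h, haa])
          apply (h7 i j hne).2 m'
          rw [haa] at hm'
          linarith
        · have h8 : (P : ℝ) * ((a.val : ℝ) - a'.val) * W = q * (P * m' - m) := by
            have e : (P : ℝ) * (φ i + (a.val : ℝ) * W / q - (φ j + (a'.val : ℝ) * W / q)) =
              ((P : ℝ) * (φ i - φ j)) + P * ((a.val : ℝ) - a'.val) * W / q := by ring
            rw [hm', hm] at e
            have e2 : (P : ℝ) * ((a.val : ℝ) - a'.val) * W / q = P * m' - m := by linarith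
            rw [div_eq_iff hq0] at e2
            linarith
          have h9 : (P : ℤ) * ((a.val : ℤ) - a'.val) * W = q * (P * m' - m) := by exact_mod_cast h8
          have h10 : (q : ℤ) ∣ (P : ℤ) * ((a.val : ℤ) - a'.val) * W := ⟨_, h9⟩
          have hqi : Prime (q : ℤ) := Nat.prime_iff_prime_int.1 hqp
          rcases hqi.dvd_or_dvd h10 with h11 | h11
          · rcases hqi.dvd_or_dvd h11 with h12 | h12
            · exact hqP (by exact_mod_cast h12)
            · have hlt : |(a.val : ℤ) - a'.val| < q := by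
                have := a.isLt
                have := a'.isLt
                rw [abs_lt]
                constructor <;> omega
              have := Int.eq_zero_of_abs_lt_dvd h12 hlt
              apply haa
              apply Fin.ext
              omega
          · exact hqW (by exact_mod_cast h11)

/-- **no large exponential sums** -/
theorem per_sum (W b w : ℕ) (hw : 1 ≤ w) (S : Finset ℕ) (hS : ∀ p ∈ S, p.Prime ∧ w < p ∧ ¬ p ∣ W) (L : ℕ) (θ : ℝ) :
    ‖∑ x ∈ range L, ((∏ p ∈ S, gp p (W * x + b) - 1 : ℝ) : ℂ) * ee (x * θ)‖ ≤ (L : ℝ) / w + ((∏ p ∈ S, p : ℕ) : ℝ) ^ 2 := by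
  classical
  obtain ⟨ι, hι, c, φ, i₀, h1, h2, h3, h4, h5, h6, h7⟩ := expand W b w hw S hS
  obtain ⟨P, hP⟩ : ∃ P : ℕ, P = ∏ p ∈ S, p := ⟨_, rfl⟩
  rw [← hP]
  rw [← hP] at h6 h7
  have hP1 : 1 ≤ P := by
    rw [hP]
    exact Nat.one_le_iff_ne_zero.2 (prod_ne_zero_iff.2 fun p hp => (hS p hp).1.ne_zero)
  have hP0 : (1 : ℝ) ≤ P := by exact_mod_cast hP1
  have hw0 : (1 : ℝ) ≤ w := by exact_mod_cast hw
  -- the sum
  have e1 : ∑ x ∈ range L, ((∏ p ∈ S, gp p (W * x + b) - 1 : ℝ) : ℂ) * ee (x * θ) =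
      ∑ i ∈ univ.erase i₀, c i * ∑ x ∈ range L, ee (x * (φ i + θ)) := by
    have h8 : ∀ x : ℕ, ((∏ p ∈ S, gp p (W * x + b) - 1 : ℝ) : ℂ) = ∑ i ∈ univ.erase i₀, c i * ee (x * φ i) := by
      intro x
      rw [Complex.ofReal_sub, h1 x, ← add_sum_erase univ _ (mem_univ i₀), h2, h3, mul_zero, ee_zero]
      push_cast
      ring
    have h9 : ∀ x ∈ range L, ((∏ p ∈ S, gp p (W * x + b) - 1 : ℝ) : ℂ) * ee (x * θ) =
        ∑ i ∈ univ.erase i₀, c i * ee (x * (φ i + θ)) := by
      intro x _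
      rw [h8 x, sum_mul]
      apply sum_congr rfl
      intro i _
      rw [mul_add, ee_add]
      ring
    rw [sum_congr rfl h9, sum_comm]
    apply sum_congr rfl
    intro i _
    rw [mul_sum]
  rw [e1]
  -- at most one near frequency
  obtain ⟨near, hnear⟩ : ∃ near : ι → Prop, near = fun i => ∃ n : ℤ, |φ i + θ - n| < 1 / (2 * P) := ⟨_, rfl⟩
  have huniq : ∀ i j, near i → near j → i = j := by
    intro i j hi hj
    by_contra hij
    rw [hnear] at hi hj
    obtain ⟨n, hn⟩ := hi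
    obtain ⟨n', hn'⟩ := hj
    obtain ⟨⟨m, hm⟩, h8⟩ := h7 i j hij
    have h9 : |φ i - φ j - ((n - n' : ℤ) : ℝ)| < 1 / P := by
      have e : φ i - φ j - ((n - n' : ℤ) : ℝ) = (φ i + θ - n) - (φ j + θ - n') := by push_cast; ring
      rw [e]
      refine lt_of_le_of_lt (abs_sub _ _) ?_
      have : (1 : ℝ) / P = 1 / (2 * P) + 1 / (2 * P) := by field_simp; norm_num
      rw [this]
      exact add_lt_add hn hn'
    have h10 : |((m - P * (n - n') : ℤ) : ℝ)| < 1 := by
      have e : ((m - P * (n - n') : ℤ) : ℝ) = P * (φ i - φ j - ((n - n' : ℤ) : ℝ)) := by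
        push_cast
        rw [← hm]
        push_cast
        ring
      rw [e, abs_mul, abs_of_pos (by linarith)]
      calc (P : ℝ) * |φ i - φ j - ((n - n' : ℤ) : ℝ)| < P * (1 / P) := mul_lt_mul_of_pos_left h9 (by linarith)
        _ = 1 := by field_simp
    have h11 : |(m - P * (n - n') : ℤ)| < 1 := by exact_mod_cast h10
    have h12 : m - P * (n - n') = 0 := Int.abs_lt_one_iff.1 h11
    apply h8 (n - n')
    have h13 : (P : ℝ) * (φ i - φ j) = P * ((n - n' : ℤ) : ℝ) := by
      rw [hm]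
      have : m = P * (n - n') := by linarith
      rw [this]
      push_cast
      ring
    exact mul_left_cancel₀ (by linarith) h13
  have hfar : ∀ i, ¬ near i → ‖∑ x ∈ range L, ee (x * (φ i + θ))‖ ≤ P := by
    intro i hi
    rw [hnear] at hi
    push Not at hi
    have h8 := KD_far L (φ i + θ) (1 / (2 * P)) (by positivity) (fun n => hi n)
    unfold KD at h8
    have h9 : 1 / (4 * (1 / (2 * (P : ℝ))) ^ 2) = (P : ℝ) ^ 2 := by field_simp; norm_num
    rw [h9] at h8
    exact le_of_pow_le_pow_left₀ (by norm_num) (by linarith) h8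
  have hall : ∀ i, ‖∑ x ∈ range L, ee (x * (φ i + θ))‖ ≤ L := by
    intro i
    refine (norm_sum_le _ _).trans ?_
    simp [norm_ee]
  have hone : ∀ i ∈ univ.erase i₀, ‖c i * ∑ x ∈ range L, ee (x * (φ i + θ))‖ ≤ (if near i then (L : ℝ) / w else 0) + P := by
    intro i hi
    have hi0 := ne_of_mem_erase hi
    rw [norm_mul]
    split_ifs with h
    · calc ‖c i‖ * ‖∑ x ∈ range L, ee (x * (φ i + θ))‖ ≤ (1 / w) * L := mul_le_mul (h5 i hi0) (hall i) (norm_nonneg _) (by positivity)
        _ = (L : ℝ) / w := by ring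
        _ ≤ _ := by linarith
    · calc ‖c i‖ * ‖∑ x ∈ range L, ee (x * (φ i + θ))‖ ≤ 1 * P := mul_le_mul (h4 i) (hfar i h) (norm_nonneg _) (by norm_num)
        _ ≤ _ := by linarith
  refine (norm_sum_le _ _).trans ((sum_le_sum hone).trans ?_)
  rw [sum_add_distrib]
  have h8 : ∑ i ∈ univ.erase i₀, (if near i then (L : ℝ) / w else 0) ≤ (L : ℝ) / w := by
    by_cases hex : ∃ i, near i
    · obtain ⟨i, hi⟩ := hex
      calc ∑ j ∈ univ.erase i₀, (if near j then (L : ℝ) / w else 0) ≤ ∑ j, (if near j then (L : ℝ) / w else 0) :=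
            sum_le_sum_of_subset_of_nonneg (subset_univ _) (fun _ _ _ => by split_ifs <;> positivity)
        _ = ∑ j, (if j = i then (L : ℝ) / w else 0) := by
            apply sum_congr rfl
            intro j _
            by_cases hj : j = i
            · rw [if_pos hj, if_pos (by rw [hj]; exact hi)]
            · rw [if_neg hj, if_neg (fun h => hj (huniq j i h hi))]
        _ = _ := by simp
    · push Not at hex
      have : ∀ i ∈ univ.erase i₀, (if near i then (L : ℝ) / w else 0) = 0 := fun i _ => if_neg (hex i)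
      rw [sum_congr rfl this, sum_const_zero]
      positivity
  have h9 : ∑ _i ∈ univ.erase i₀, (P : ℝ) ≤ (P : ℝ) ^ 2 := by
    rw [sum_const, nsmul_eq_mul, sq]
    apply mul_le_mul_of_nonneg_right _ (by linarith)
    have : (univ.erase i₀).card ≤ P := by
      rw [← h6]
      exact (card_le_univ _)
    exact_mod_cast this
  linarith

end Pool.Agent.H563.RG
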