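import Mathlib
import Pool.Agent.H563.RG.Restr
import Pool.Agent.H563.RG.Per
import Pool.Agent.H563.RG.Comb

set_option autoImplicit false

/-! Transforms restricted to a residue class, edges. -/

namespace Pool.Agent.H563.RG

open Finset
open Pool.Agent.H373R2.NB (hat chi_eq sum_val aZ bZ EZ hat_EZ sup_small model_b)
open Pool.Agent.Helper602.MK (PP ee)
open Pool.Agent.Helper602.MK.N_J5b (norm_ee ee_add ee_zero ee_int ee_nat_mul ee_add_int)

/-- the transform of the restriction to a class -/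
lemma cls_bound (W N : ℕ) (hW : 1 ≤ W) (_ : NeZero N) (_ : NeZero (W * N)) (b : ℕ) (hb : b < W)
    (u : ZMod (W * N) → ℝ) (B : ℝ) (hB : ∀ ζ, ‖hat u ζ‖ ≤ B) (ξ : ZMod N) :
    ‖∑ x : ZMod N, ((u ((W * x.val + b : ℕ) : ZMod (W * N)) : ℝ) : ℂ) * ZMod.stdAddChar (ξ * x)‖ ≤ B := by
  have hN : 0 < N := Nat.pos_of_ne_zero (NeZero.ne N)
  have hN0 : (0 : ℝ) < N := by exact_mod_cast hN
  have hW0 : (0 : ℝ) < W := by exact_mod_cast hW
  obtain ⟨r, hr⟩ : ∃ r, r = ξ.val := ⟨_, rfl⟩
  have hrN : r < N := by rw [hr]; exact ZMod.val_lt ξ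
  -- the sum over `m`
  obtain ⟨G, hG⟩ : ∃ G : ℕ → ℂ, G = fun m : ℕ => ((u (m : ZMod (W * N)) : ℝ) : ℂ) * ee ((r : ℝ) * m / ((W * N : ℕ) : ℝ)) := ⟨_, rfl⟩
  have h1 : ∀ j ∈ range W, hat u ((r + j * N : ℕ) : ZMod (W * N)) = ∑ m ∈ range (W * N), G m * ee ((j : ℝ) * ((m : ℝ) / W)) := by
    intro j hj
    rw [mem_range] at hj
    have hlt : r + j * N < W * N := by
      have : (j + 1) * N ≤ W * N := Nat.mul_le_mul_right N hj
      have e : (j + 1) * N = j * N + N := by ring
      omega
    rw [← sum_val (M := W * N) (fun m => G m * ee ((j : ℝ) * ((m : ℝ) / W)))]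
    unfold hat
    apply sum_congr rfl
    intro m _
    rw [hG]
    simp only
    rw [ZMod.natCast_zmod_val]
    conv_lhs => rw [← ZMod.natCast_zmod_val m]
    rw [chi_eq, ZMod.val_natCast_of_lt hlt, ZMod.natCast_zmod_val, mul_assoc, ← ee_add]
    congr 2
    push_cast
    field_simp
  have h2 : ∑ j ∈ range W, ee ((j : ℝ) * (((W - b : ℕ) : ℝ) / W)) * hat u ((r + j * N : ℕ) : ZMod (W * N)) =
      W * ∑ x ∈ range N, G (W * x + b) := by
    rw [sum_congr rfl fun j hj => by rw [h1 j hj]]
    simp_rw [mul_sum]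
    rw [sum_comm]
    have h3 : ∀ m ∈ range (W * N), ∑ j ∈ range W, ee ((j : ℝ) * (((W - b : ℕ) : ℝ) / W)) * (G m * ee ((j : ℝ) * ((m : ℝ) / W))) =
        if m % W = b then (W : ℂ) * G m else 0 := by
      intro m _
      have h4 := sum_ee_range W (by omega) (m + (W - b))
      have h5 : ∑ j ∈ range W, ee ((j : ℝ) * (((W - b : ℕ) : ℝ) / W)) * (G m * ee ((j : ℝ) * ((m : ℝ) / W))) =
          G m * ∑ j ∈ range W, ee ((j : ℝ) * (((m + (W - b) : ℕ) : ℝ) / W)) := by
        rw [mul_sum]
        apply sum_congr rfl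
        intro j _
        have e : (j : ℝ) * (((m + (W - b) : ℕ) : ℝ) / W) = (j : ℝ) * (((W - b : ℕ) : ℝ) / W) + (j : ℝ) * ((m : ℝ) / W) := by
          push_cast; ring
        rw [e, ee_add]
        ring
      rw [h5, h4]
      have hiff : W ∣ m + (W - b) ↔ m % W = b := by
        constructor
        · rintro ⟨c, hc⟩
          have h6 : m = W * (c - 1) + b := by
            have hc1 : 1 ≤ c := by
              rcases Nat.eq_zero_or_pos c with h0 | h0
              · rw [h0] at hc; omega
              · exact h0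
            obtain ⟨c', rfl⟩ : ∃ c', c = c' + 1 := ⟨c - 1, by omega⟩
            rw [Nat.mul_add, mul_one] at hc
            rw [Nat.add_sub_cancel]
            omega
          rw [h6, Nat.mul_add_mod, Nat.mod_eq_of_lt hb]
        · intro h6
          refine ⟨m / W + 1, ?_⟩
          have := Nat.div_add_mod m W
          rw [Nat.mul_add, mul_one]
          omega
      by_cases h : m % W = b
      · rw [if_pos h, if_pos (hiff.2 h)]; ring
      · rw [if_neg h, if_neg (fun h' => h (hiff.1 h')), mul_zero]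
    rw [sum_congr rfl h3, ← sum_filter]
    refine sum_nbij' (fun m => m / W) (fun x => W * x + b) ?_ ?_ ?_ ?_ ?_
    · intro m hm
      rw [mem_filter, mem_range] at hm
      rw [mem_range]
      exact Nat.div_lt_of_lt_mul hm.1
    · intro x hx
      rw [mem_range] at hx
      rw [mem_filter, mem_range]
      refine ⟨?_, ?_⟩
      · have : W * (x + 1) ≤ W * N := Nat.mul_le_mul_left W hx
        rw [Nat.mul_add, mul_one] at this
        omega
      · rw [Nat.mul_add_mod, Nat.mod_eq_of_lt hb]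
    · intro m hm
      rw [mem_filter, mem_range] at hm
      have := Nat.div_add_mod m W
      rw [hm.2] at this
      exact this
    · intro x _
      rw [Nat.mul_add_div (by omega), Nat.div_eq_of_lt hb, add_zero]
    · intro m hm
      rw [mem_filter, mem_range] at hm
      have := Nat.div_add_mod m W
      rw [hm.2] at this
      rw [this]
  have h6 : ∑ x : ZMod N, ((u ((W * x.val + b : ℕ) : ZMod (W * N)) : ℝ) : ℂ) * ZMod.stdAddChar (ξ * x) =
      ee (-((r : ℝ) * b / ((W * N : ℕ) : ℝ))) * ∑ x ∈ range N, G (W * x + b) := by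
    rw [mul_sum, ← sum_val (M := N) (fun x => ee (-((r : ℝ) * b / ((W * N : ℕ) : ℝ))) * G (W * x + b))]
    apply sum_congr rfl
    intro x _
    rw [hG]
    simp only
    conv_lhs => rw [← ZMod.natCast_zmod_val x]
    rw [chi_eq, ZMod.natCast_zmod_val, ← hr, ← mul_assoc, mul_comm (ee _) _, mul_assoc, ← ee_add]
    congr 2
    push_cast
    field_simp
    ring
  rw [h6, norm_mul, norm_ee, one_mul]
  have h7 : (W : ℝ) * ‖∑ x ∈ range N, G (W * x + b)‖ ≤ W * B := by
    have h8 := congrArg norm h2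
    rw [norm_mul, Complex.norm_natCast] at h8
    rw [← h8]
    refine (norm_sum_le _ _).trans ?_
    calc ∑ j ∈ range W, ‖ee ((j : ℝ) * (((W - b : ℕ) : ℝ) / W)) * hat u ((r + j * N : ℕ) : ZMod (W * N))‖ ≤
        ∑ _j ∈ range W, B := by
          apply sum_le_sum
          intro j _
          rw [norm_mul, norm_ee, one_mul]
          exact hB _
      _ = W * B := by rw [sum_const, card_range, nsmul_eq_mul]
  exact le_of_mul_le_mul_left h7 hW0

/-- primes at the edges -/
lemma edge : ∃ C : ℝ, 1 ≤ C ∧ ∀ W : ℕ, 1 ≤ W → ∀ T k : ℕ, 2 ≤ T → k ≤ T ^ 2 → ∀ a : ℕ,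
    (Nat.totient W : ℝ) / W * Real.log k * (((range T).filter (fun s => (a + s * W).Prime)).card : ℝ) ≤ C * T := by
  obtain ⟨C₃, hC₃, hJ3⟩ := Pool.Agent.Helper602.MK.N_J3.J3
  refine ⟨2 * C₃, by linarith, ?_⟩
  intro W hW T k hT hkT a
  have hW0 : (0 : ℝ) < W := by exact_mod_cast hW
  have hφ0 : (0 : ℝ) < Nat.totient W := by exact_mod_cast Nat.totient_pos.2 hW
  have hT2 : (2 : ℝ) ≤ T := by exact_mod_cast hT
  have hlT : 0 < Real.log T := Real.log_pos (by linarith)
  have hlk0 : 0 ≤ Real.log k := Real.log_natCast_nonneg k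
  have hlk : Real.log k ≤ 2 * Real.log T := by
    rcases Nat.eq_zero_or_pos k with h | h
    · rw [h]; simp; linarith
    · have h1 : Real.log k ≤ Real.log ((T : ℝ) ^ 2) := by
        apply Real.log_le_log (by exact_mod_cast h)
        exact_mod_cast hkT
      rw [Real.log_pow] at h1
      push_cast at h1
      exact h1
  calc (Nat.totient W : ℝ) / W * Real.log k * (((range T).filter (fun s => (a + s * W).Prime)).card : ℝ) ≤
      (Nat.totient W : ℝ) / W * (2 * Real.log T) * (C₃ * ((W : ℝ) / Nat.totient W) * T / Real.log T) := by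
        apply mul_le_mul _ (hJ3 a W T hW hT) (Nat.cast_nonneg _) (by positivity)
        exact mul_le_mul_of_nonneg_left hlk (by positivity)
    _ = 2 * C₃ * T := by field_simp

end Pool.Agent.H563.RG
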