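import Mathlib
import Pool.Agent.H563.RG.Cls

set_option autoImplicit false

/-! The primes of a residue class to a modulus divisible by all small primes are close to constant. -/

namespace Pool.Agent.H563.RG

open Finset
open Pool.Agent.H373R2.NB (hat chi_eq sum_val aZ bZ EZ hat_EZ sup_small model_b aZ_nonneg)
open Pool.Agent.Helper602.MK (PP ee)
open Pool.Agent.Helper602.MK.N_J5b (norm_ee ee_add ee_zero ee_int ee_nat_mul ee_add_int)

lemma PP_le {k n : ℕ} (h : n ∈ PP k) : 1 ≤ n ∧ n ≤ k := by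
  rw [PP, mem_filter, mem_Icc] at h
  exact h.1

/-- no wrap around -/
lemma val_shift (k M n s : ℕ) [NeZero M] (hn : n < M) (hs : s + k < M)
    (h : aZ k M ((n : ZMod M) - (s : ZMod M)) ≠ 0) : s ≤ n ∧ n - s ∈ PP k := by
  unfold aZ at h
  have hmem : ((n : ZMod M) - (s : ZMod M)).val ∈ PP k := by
    by_contra hcon
    exact h (if_neg hcon)
  by_cases hsn : s ≤ n
  · refine ⟨hsn, ?_⟩
    have e : (n : ZMod M) - (s : ZMod M) = ((n - s : ℕ) : ZMod M) := by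
      rw [Nat.cast_sub hsn]
    rw [e, ZMod.val_natCast_of_lt (by omega)] at hmem
    exact hmem
  · exfalso
    push Not at hsn
    have e : (n : ZMod M) - (s : ZMod M) = ((M + n - s : ℕ) : ZMod M) := by
      rw [Nat.cast_sub (by omega)]
      push_cast
      rw [ZMod.natCast_self, zero_add]
    rw [e, ZMod.val_natCast_of_lt (by omega)] at hmem
    have := (PP_le hmem).2
    omega

/-- sums of the averages over a set of arguments -/
lemma edge_sum (W X W₀ J N b : ℕ) [NeZero (W * N)] (hJ : 1 ≤ J)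
    (E : Finset ℕ) (T a : ℕ) (C : ℝ) (hT : (Nat.totient W : ℝ) / W * Real.log (2 * X : ℕ) *
      (((range T).filter (fun s => (a + s * W).Prime)).card : ℝ) ≤ C * T)
    (hE : ∀ x ∈ E, ∀ j ∈ Icc 1 J, aZ (2 * X) (W * N) (((W * x + b : ℕ) : ZMod (W * N)) - ((j * (W * W₀) : ℕ) : ZMod (W * N))) ≠ 0 →
      ∃ s, s < T ∧ a + s * W + j * (W * W₀) = W * x + b ∧ (a + s * W).Prime) (hW : 1 ≤ W) :
    ∑ x ∈ E, cst W X * bZ (2 * X) (W * N) (W * W₀) J ((W * x + b : ℕ) : ZMod (W * N)) ≤ C * T := by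
  classical
  have hJ0 : (0 : ℝ) < J := by exact_mod_cast hJ
  obtain ⟨K, hK⟩ : ∃ K, K = (range T).filter (fun s => (a + s * W).Prime) := ⟨_, rfl⟩
  have h1 : ∀ j ∈ Icc 1 J, ∑ x ∈ E, aZ (2 * X) (W * N) (((W * x + b : ℕ) : ZMod (W * N)) - ((j * (W * W₀) : ℕ) : ZMod (W * N))) ≤ K.card := by
    intro j hj
    have h2 : ∀ x ∈ E, aZ (2 * X) (W * N) (((W * x + b : ℕ) : ZMod (W * N)) - ((j * (W * W₀) : ℕ) : ZMod (W * N))) ≤
        if ∃ s, s ∈ K ∧ a + s * W + j * (W * W₀) = W * x + b then (1 : ℝ) else 0 := by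
      intro x hx
      by_cases h : aZ (2 * X) (W * N) (((W * x + b : ℕ) : ZMod (W * N)) - ((j * (W * W₀) : ℕ) : ZMod (W * N))) = 0
      · rw [h]
        split_ifs <;> norm_num
      · obtain ⟨s, hs1, hs2, hs3⟩ := hE x hx j hj h
        rw [if_pos ⟨s, by rw [hK, mem_filter, mem_range]; exact ⟨hs1, hs3⟩, hs2⟩]
        exact Pool.Agent.H373R2.NB.aZ_le _ _ _
    refine (sum_le_sum h2).trans ?_
    rw [sum_boole]
    have h3 : (E.filter (fun x => ∃ s, s ∈ K ∧ a + s * W + j * (W * W₀) = W * x + b)).card ≤ K.card := by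
      apply card_le_card_of_surjOn (fun s => (a + s * W + j * (W * W₀) - b) / W)
      intro x hx
      rw [mem_coe, mem_filter] at hx
      obtain ⟨_, s, hs, he⟩ := hx
      refine ⟨s, mem_coe.2 hs, ?_⟩
      simp only
      rw [he, Nat.add_sub_cancel, Nat.mul_div_cancel_left _ (by omega)]
    exact_mod_cast h3
  have h4 : ∑ x ∈ E, bZ (2 * X) (W * N) (W * W₀) J ((W * x + b : ℕ) : ZMod (W * N)) ≤ K.card := by
    unfold bZ
    rw [← mul_sum, sum_comm]
    calc 1 / (J : ℝ) * ∑ j ∈ Icc 1 J, ∑ x ∈ E, aZ (2 * X) (W * N) (((W * x + b : ℕ) : ZMod (W * N)) - ((j * (W * W₀) : ℕ) : ZMod (W * N))) ≤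
        1 / (J : ℝ) * ∑ _j ∈ Icc 1 J, (K.card : ℝ) := mul_le_mul_of_nonneg_left (sum_le_sum h1) (by positivity)
      _ = K.card := by
        rw [sum_const, Nat.card_Icc, Nat.add_sub_cancel, nsmul_eq_mul]
        field_simp
  rw [← mul_sum]
  refine le_trans (mul_le_mul_of_nonneg_left h4 (cst_nonneg W X)) ?_
  rw [hK]
  exact hT

/-- the large primes dividing `W * W₀` -/
noncomputable def SS (W W₀ : ℕ) : Finset ℕ := (W * W₀).primeFactors \ W.primeFactors

lemma SS_prop (W W₀ w : ℕ) (hW : 1 ≤ W) (hw : ∀ p : ℕ, p.Prime → p ≤ w → p ∣ W) :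
    ∀ p ∈ SS W W₀, p.Prime ∧ w < p ∧ ¬ p ∣ W := by
  intro p hp
  unfold SS at hp
  rw [mem_sdiff, Nat.mem_primeFactors, Nat.mem_primeFactors] at hp
  have h1 : ¬ p ∣ W := fun h => hp.2 ⟨hp.1.1, h, by omega⟩
  refine ⟨hp.1.1, ?_, h1⟩
  by_contra hcon
  push Not at hcon
  exact h1 (hw p hp.1.1 hcon)

/-- the value -/
noncomputable def AA (W W₀ : ℕ) : ℝ := (Nat.totient W : ℝ) / W * (((W * W₀ : ℕ) : ℝ) / Nat.totient (W * W₀))

lemma prod_AA (W W₀ : ℕ) (hW : 1 ≤ W) (hW₀ : 1 ≤ W₀) : ∏ p ∈ SS W W₀, ((p : ℝ) / (p - 1)) = AA W W₀ := by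
  have key : ∀ V : ℕ, 1 ≤ V → (V : ℝ) / Nat.totient V = ∏ p ∈ V.primeFactors, ((p : ℝ) / (p - 1)) := by
    intro V hV
    have := Nat.totient_eq_mul_prod_factors V
    have h4 : ((Nat.totient V : ℕ) : ℝ) = V * ∏ p ∈ V.primeFactors, (1 - ((p : ℝ))⁻¹) := by
      have h5 := congrArg (fun q : ℚ => (q : ℝ)) this
      push_cast at h5
      exact h5
    have hV0 : (0 : ℝ) < V := by exact_mod_cast hV
    have h6 : (∏ p ∈ V.primeFactors, ((p : ℝ) / (p - 1))) * ∏ p ∈ V.primeFactors, (1 - ((p : ℝ))⁻¹) = 1 := by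
      rw [← prod_mul_distrib]
      apply prod_eq_one
      intro p hp
      have hp2 : (2 : ℝ) ≤ p := by exact_mod_cast (Nat.prime_of_mem_primeFactors hp).two_le
      have : (p : ℝ) - 1 ≠ 0 := by linarith
      have : (p : ℝ) ≠ 0 := by linarith
      field_simp
    have hφ0 : (0 : ℝ) < Nat.totient V := by exact_mod_cast Nat.totient_pos.2 hV
    rw [div_eq_iff hφ0.ne', h4]
    calc (V : ℝ) = V * ((∏ p ∈ V.primeFactors, ((p : ℝ) / (p - 1))) * ∏ p ∈ V.primeFactors, (1 - ((p : ℝ))⁻¹)) := by rw [h6, mul_one]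
      _ = _ := by ring
  have hWW : 1 ≤ W * W₀ := Nat.mul_pos hW hW₀
  have hW0 : (0 : ℝ) < W := by exact_mod_cast hW
  have hφ0 : (0 : ℝ) < Nat.totient W := by exact_mod_cast Nat.totient_pos.2 hW
  have hsub : W.primeFactors ⊆ (W * W₀).primeFactors := Nat.primeFactors_mono (dvd_mul_right _ _) (by omega)
  unfold AA
  rw [key (W * W₀) hWW, ← prod_sdiff hsub, ← key W hW]
  unfold SS
  field_simp

lemma nu_eq (W W₀ w b x : ℕ) (hW : 1 ≤ W) (hW₀ : 1 ≤ W₀) (hb : Nat.Coprime b W) :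
    (Nat.Coprime (W * x + b) (W * W₀) → ∏ p ∈ SS W W₀, gp p (W * x + b) = AA W W₀) ∧
    (¬ Nat.Coprime (W * x + b) (W * W₀) → ∏ p ∈ SS W W₀, gp p (W * x + b) = 0) := by
  constructor
  · intro h
    rw [← prod_AA W W₀ hW hW₀]
    apply prod_congr rfl
    intro p hp
    unfold SS at hp
    rw [mem_sdiff, Nat.mem_primeFactors] at hp
    unfold gp
    rw [if_neg]
    intro hd
    have := Nat.dvd_gcd hd hp.1.2.1
    rw [h] at this
    exact hp.1.1.one_lt.ne' (Nat.dvd_one.1 this)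
  · intro h
    obtain ⟨p, hp, h1, h2⟩ := Nat.Prime.not_coprime_iff_dvd.1 h
    have hpW : ¬ p ∣ W := by
      intro hd
      have h3 : p ∣ b := (Nat.dvd_add_right (dvd_mul_of_dvd_left hd x)).1 h1
      have := Nat.dvd_gcd h3 hd
      rw [hb] at this
      exact hp.one_lt.ne' (Nat.dvd_one.1 this)
    apply prod_eq_zero (i := p)
    · unfold SS
      rw [mem_sdiff, Nat.mem_primeFactors, Nat.mem_primeFactors]
      exact ⟨⟨hp, h2, (Nat.mul_pos hW hW₀).ne'⟩, fun h3 => hpW h3.2.1⟩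
    · unfold gp
      rw [if_pos h1]

end Pool.Agent.H563.RG
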