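import Mathlib
import Pool.Agent.H563.RG.Close

set_option autoImplicit false

/-! The primes of a residue class to a modulus divisible by all small primes are close to constant. -/

namespace Pool.Agent.H563.RG

open Finset
open Pool.Agent.H373R2.NB (hat chi_eq sum_val aZ bZ EZ hat_EZ sup_small model_b aZ_nonneg)
open Pool.Agent.Helper602.MK (PP ee)
open Pool.Agent.Helper602.MK.N_J5b (norm_ee ee_add ee_zero ee_int ee_nat_mul ee_add_int)

lemma bZ_nonneg (k M W J : ℕ) (m : ZMod M) : 0 ≤ bZ k M W J m := by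
  unfold bZ
  apply mul_nonneg (by positivity)
  exact sum_nonneg fun _ _ => aZ_nonneg _ _ _

/-- the physical side -/
theorem phys (η : ℝ) (hη : 0 < η) (W W₀ : ℕ) (hW : 1 ≤ W) (hW₀ : 1 ≤ W₀) (τ₀ : ℝ) (hτ₀ : 0 < τ₀) :
    ∃ X₀ : ℕ, ∀ X : ℕ, X₀ ≤ X → ∃ J : ℕ, 1 ≤ J ∧ ((J * (W * W₀) : ℕ) : ℝ) ≤ τ₀ * (2 * X : ℕ) ∧
      ∀ b : ℕ, b < W → Nat.Coprime b W → ∀ L N : ℕ, ∀ _ : NeZero (W * N), L = 2 * X / W + 1 → N = 2 * L + 1 →
      ∑ x ∈ range N, |cst W X * bZ (2 * X) (W * N) (W * W₀) J ((W * x + b : ℕ) : ZMod (W * N)) -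
        (if x < L then ∏ p ∈ SS W W₀, gp p (W * x + b) else 0)| ≤ η * L := by
  obtain ⟨C, hC, hedge⟩ := edge
  have hW0 : (0 : ℝ) < W := by exact_mod_cast hW
  have hW00 : (0 : ℝ) < W₀ := by exact_mod_cast hW₀
  have hWW1 : 1 ≤ W * W₀ := Nat.mul_pos hW hW₀
  have hWW0 : (0 : ℝ) < (W * W₀ : ℕ) := by exact_mod_cast hWW1
  have hφ0 : (0 : ℝ) < Nat.totient W := by exact_mod_cast Nat.totient_pos.2 hW
  have hφφ0 : (0 : ℝ) < Nat.totient (W * W₀) := by exact_mod_cast Nat.totient_pos.2 hWW1
  obtain ⟨A, hA⟩ : ∃ A, A = AA W W₀ := ⟨_, rfl⟩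
  have hA0 : 0 < A := by rw [hA]; unfold AA; positivity
  obtain ⟨τ, hτ⟩ : ∃ τ, τ = min τ₀ (min (1 / 4) (η / (4 * (3 * C + 2 * A)))) := ⟨_, rfl⟩
  have hτ0 : 0 < τ := by rw [hτ]; positivity
  have hτ1 : τ ≤ τ₀ := by rw [hτ]; exact min_le_left _ _
  have hτ2 : τ ≤ 1 / 4 := by rw [hτ]; exact (min_le_right _ _).trans (min_le_left _ _)
  have hτ3 : τ ≤ η / (4 * (3 * C + 2 * A)) := by rw [hτ]; exact (min_le_right _ _).trans (min_le_right _ _)
  obtain ⟨K₀, hmodel⟩ := model_b (W * W₀) hWW1 τ (2 * τ) (η / (4 * A)) hτ0 le_rfl (by linarith) (by positivity)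
  obtain ⟨Y, hY⟩ := exists_nat_ge (2 * (W * W₀ : ℕ) / τ + (2 * W / τ) ^ 2 + W * (3 * C + 2 * A) * 4 / η)
  refine ⟨K₀ + Y + W + 2, fun X hX => ?_⟩
  obtain ⟨k, hk⟩ : ∃ k : ℕ, k = 2 * X := ⟨_, rfl⟩
  rw [← hk]
  have hkY : (Y : ℝ) ≤ k := by exact_mod_cast (by omega : Y ≤ k)
  have hkX : (k : ℝ) = 2 * X := by rw [hk]; push_cast; ring
  have p1 : 0 ≤ 2 * ((W * W₀ : ℕ) : ℝ) / τ := by positivity
  have p2 : 0 ≤ (2 * (W : ℝ) / τ) ^ 2 := by positivity
  have p3 : 0 ≤ W * (3 * C + 2 * A) * 4 / η := by positivity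
  have q1 : 2 * ((W * W₀ : ℕ) : ℝ) / τ ≤ k := by linarith
  have q2 : (2 * (W : ℝ) / τ) ^ 2 ≤ k := by linarith
  have q3 : W * (3 * C + 2 * A) * 4 / η ≤ X := by
    have : (Y : ℝ) ≤ X := by exact_mod_cast (by omega : Y ≤ X)
    linarith
  have hk0 : (0 : ℝ) < k := by
    have : 0 < k := by omega
    exact_mod_cast this
  have hk1 : 1 ≤ k := by omega
  rw [div_le_iff₀ hτ0] at q1
  -- `J`
  obtain ⟨J, hJ⟩ : ∃ J : ℕ, J = ⌊τ * k / (W * W₀ : ℕ)⌋₊ := ⟨_, rfl⟩
  have hJ1 : ((J * (W * W₀) : ℕ) : ℝ) ≤ τ * k := by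
    have := Nat.floor_le (show 0 ≤ τ * k / ((W * W₀ : ℕ) : ℝ) by positivity)
    rw [← hJ, le_div_iff₀ hWW0] at this
    rw [Nat.cast_mul]; exact this
  have hJ2 : τ * k - (W * W₀ : ℕ) ≤ ((J * (W * W₀) : ℕ) : ℝ) := by
    have := Nat.lt_floor_add_one (τ * k / ((W * W₀ : ℕ) : ℝ))
    rw [← hJ, div_lt_iff₀ hWW0] at this
    have e : ((J * (W * W₀) : ℕ) : ℝ) = (J : ℝ) * ((W * W₀ : ℕ) : ℝ) := Nat.cast_mul _ _
    have e2 : ((J : ℝ) + 1) * ((W * W₀ : ℕ) : ℝ) = (J : ℝ) * ((W * W₀ : ℕ) : ℝ) + ((W * W₀ : ℕ) : ℝ) := by ring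
    rw [e]; linarith
  have hJ3 : τ / 2 * k ≤ ((J * (W * W₀) : ℕ) : ℝ) := by linarith
  have hJpos : 1 ≤ J := by
    rcases Nat.eq_zero_or_pos J with h | h
    · exfalso
      rw [h, zero_mul, Nat.cast_zero] at hJ3
      have : 0 < τ / 2 * k := by positivity
      linarith
    · exact h
  refine ⟨J, hJpos, hJ1.trans (mul_le_mul_of_nonneg_right hτ1 hk0.le), ?_⟩
  intro b hb hbW L N hNz hL hN
  have hsqrt : ∀ T : ℕ, τ * k / (2 * W) ≤ T → k ≤ T ^ 2 := by
    intro T hT
    have h1 : (k : ℝ) ≤ (τ * k / (2 * W)) ^ 2 := by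
      have e : (τ * k / (2 * W)) ^ 2 = k * k * (τ / (2 * W)) ^ 2 := by ring
      rw [e, mul_assoc]
      apply le_mul_of_one_le_right hk0.le
      have h2 : (2 * (W : ℝ) / τ) ^ 2 * (τ / (2 * W)) ^ 2 = 1 := by
        field_simp
      calc (1 : ℝ) = (2 * (W : ℝ) / τ) ^ 2 * (τ / (2 * W)) ^ 2 := h2.symm
        _ ≤ _ := mul_le_mul_of_nonneg_right q2 (by positivity)
    have h3 : (k : ℝ) ≤ (T : ℝ) ^ 2 := h1.trans (pow_le_pow_left₀ (by positivity) hT 2)
    exact_mod_cast h3
  -- sizes
  have hkL : (k : ℝ) / W ≤ L := by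
    rw [hL, div_le_iff₀ hW0]
    have h1 : k < W * (k / W + 1) := Nat.lt_mul_div_succ k (by omega)
    have h2 : ((k : ℕ) : ℝ) ≤ ((W * (k / W + 1) : ℕ) : ℝ) := by exact_mod_cast h1.le
    rw [mul_comm (((k / W + 1 : ℕ)) : ℝ) (W : ℝ), ← Nat.cast_mul]
    exact h2
  have hWL : k < W * L := by rw [hL]; exact Nat.lt_mul_div_succ k (by omega)
  have hMN : W * N = 2 * (W * L) + W := by rw [hN]; ring
  have hXL : (3 * C + 2 * A) ≤ η / 4 * L := by
    have h1 : (X : ℝ) / W ≤ L := by
      refine le_trans ?_ hkL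
      apply div_le_div_of_nonneg_right _ hW0.le
      rw [hkX]
      have : (0 : ℝ) ≤ X := Nat.cast_nonneg X
      linarith
    have h2 : (3 * C + 2 * A) ≤ η / 4 * (X / W) := by
      rw [div_le_iff₀ hη] at q3
      rw [div_mul_div_comm, le_div_iff₀ (by positivity)]
      linarith
    exact h2.trans (mul_le_mul_of_nonneg_left h1 (by positivity))
  have hJk : J * (W * W₀) + k < W * N := by
    have h1 : ((J * (W * W₀) : ℕ) : ℝ) ≤ k := by
      refine hJ1.trans ?_
      nlinarith
    have h2 : J * (W * W₀) ≤ k := by exact_mod_cast h1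
    omega
  -- the functions
  obtain ⟨h, hh⟩ : ∃ h : ℕ → ℝ, h = fun x => cst W X * bZ k (W * N) (W * W₀) J ((W * x + b : ℕ) : ZMod (W * N)) := ⟨_, rfl⟩
  obtain ⟨ν, hν⟩ : ∃ ν : ℕ → ℝ, ν = fun x => ∏ p ∈ SS W W₀, gp p (W * x + b) := ⟨_, rfl⟩
  have hh0 : ∀ x, 0 ≤ h x := by
    intro x
    rw [hh]
    exact mul_nonneg (cst_nonneg W X) (bZ_nonneg _ _ _ _ _)
  have hν0 : ∀ x, 0 ≤ ν x ∧ ν x ≤ A := by
    intro x
    rw [hν]
    simp only
    by_cases hc : Nat.Coprime (W * x + b) (W * W₀)
    · rw [(nu_eq W W₀ 0 b x hW hW₀ hbW).1 hc, ← hA]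
      exact ⟨hA0.le, le_rfl⟩
    · rw [(nu_eq W W₀ 0 b x hW hW₀ hbW).2 hc]
      exact ⟨le_rfl, hA0.le⟩
  -- the regions
  obtain ⟨E1, hE1⟩ : ∃ E1 : Finset ℕ, E1 = (range N).filter (fun x => ((W * x + b : ℕ) : ℝ) < 2 * τ * k) := ⟨_, rfl⟩
  obtain ⟨E3, hE3⟩ : ∃ E3 : Finset ℕ, E3 = (range N).filter (fun x => k < W * x + b) := ⟨_, rfl⟩
  obtain ⟨T1, hT1⟩ : ∃ T1 : ℕ, T1 = ⌊2 * τ * k / W⌋₊ + 1 := ⟨_, rfl⟩
  obtain ⟨T2, hT2⟩ : ∃ T2 : ℕ, T2 = J * W₀ + 2 := ⟨_, rfl⟩
  have hT1a : 2 * τ * k / W ≤ T1 := by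
    rw [hT1]
    push_cast
    exact (Nat.lt_floor_add_one _).le
  have hT1b : (T1 : ℝ) ≤ 2 * τ * L + 1 := by
    rw [hT1]
    push_cast
    have h1 := Nat.floor_le (show 0 ≤ 2 * τ * k / (W : ℝ) by positivity)
    have h2 : 2 * τ * k / (W : ℝ) ≤ 2 * τ * L := by
      rw [mul_div_assoc]
      exact mul_le_mul_of_nonneg_left hkL (by positivity)
    linarith
  have hT2b : (T2 : ℝ) ≤ τ * L + 2 := by
    have h1 : ((J * W₀ : ℕ) : ℝ) ≤ τ * L := by
      have h2 : ((J * W₀ : ℕ) : ℝ) ≤ τ * k / W := by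
        rw [le_div_iff₀ hW0]
        refine le_trans (le_of_eq ?_) hJ1
        push_cast; ring
      refine h2.trans ?_
      rw [mul_div_assoc]
      exact mul_le_mul_of_nonneg_left hkL hτ0.le
    rw [hT2, Nat.cast_add]
    push_cast at h1 ⊢
    linarith
  have hT2a : τ * k / (2 * W) ≤ T2 := by
    have h2 : τ * k / (2 * W) ≤ ((J * W₀ : ℕ) : ℝ) := by
      rw [div_le_iff₀ (by positivity)]
      have e : ((J * W₀ : ℕ) : ℝ) * (2 * W) = 2 * ((J * (W * W₀) : ℕ) : ℝ) := by push_cast; ring
      rw [e]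
      linarith
    refine h2.trans ?_
    exact_mod_cast (by omega : J * W₀ ≤ T2)
  have hE1sub : E1 ⊆ range T1 := by
    intro x hx
    rw [hE1, mem_filter] at hx
    rw [mem_range, hT1, Nat.lt_add_one_iff]
    apply Nat.le_floor
    rw [le_div_iff₀ hW0]
    have h1 := hx.2
    push_cast at h1
    have : (0 : ℝ) ≤ b := Nat.cast_nonneg b
    linarith
  have hsumE1 : ∑ x ∈ E1, h x ≤ C * T1 := by
    rw [hh, hk]
    have hT12 : 2 ≤ T1 := by
      have : 1 ≤ ⌊2 * τ * k / (W : ℝ)⌋₊ := by
        apply Nat.le_floor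
        rw [Nat.cast_one, le_div_iff₀ hW0]
        have h1 : (W : ℝ) ≤ (W * W₀ : ℕ) := by exact_mod_cast Nat.le_mul_of_pos_right W hW₀
        linarith
      omega
    apply edge_sum W X W₀ J N b hJpos E1 T1 b C _ _ hW
    · rw [← hk]
      apply hedge W hW T1 k hT12
      apply hsqrt
      refine le_trans ?_ hT1a
      rw [div_le_div_iff₀ (by positivity) hW0]
      have : 0 < τ * k * W := by positivity
      nlinarith
    · intro x hx j hj hne
      rw [hE1, mem_filter, mem_range] at hx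
      rw [mem_Icc] at hj
      rw [← hk] at hne
      have hjJ : j * (W * W₀) ≤ J * (W * W₀) := Nat.mul_le_mul_right _ hj.2
      have hnlt : W * x + b < W * N := by
        have : W * (x + 1) ≤ W * N := Nat.mul_le_mul_left W hx.1
        rw [Nat.mul_add, mul_one] at this
        omega
      obtain ⟨h1, h2⟩ := val_shift k (W * N) (W * x + b) (j * (W * W₀)) hnlt (by omega) hne
      have hjx : j * W₀ ≤ x := by
        by_contra hcon
        push Not at hcon
        have h3 : W * (x + 1) ≤ W * (j * W₀) := Nat.mul_le_mul_left W hcon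
        have e : W * (j * W₀) = j * (W * W₀) := by ring
        rw [Nat.mul_add, mul_one] at h3
        omega
      obtain ⟨s, hs⟩ : ∃ s, x = s + j * W₀ := ⟨x - j * W₀, by omega⟩
      have e2 : b + s * W + j * (W * W₀) = W * x + b := by rw [hs]; ring
      refine ⟨s, ?_, e2, ?_⟩
      · have h3 := hE1sub (by rw [hE1, mem_filter, mem_range]; exact hx : x ∈ E1)
        rw [mem_range] at h3
        omega
      · have e3 : W * x + b - j * (W * W₀) = b + s * W := by omega
        rw [e3, PP, mem_filter] at h2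
        exact h2.2.1
  have hsumE3 : ∑ x ∈ E3, h x ≤ C * T2 := by
    rw [hh, hk]
    obtain ⟨q, hq⟩ : ∃ q, q = (k - J * (W * W₀)) / W := ⟨_, rfl⟩
    apply edge_sum W X W₀ J N b hJpos E3 T2 (b + q * W) C _ _ hW
    · rw [← hk]
      exact hedge W hW T2 k (by omega) (hsqrt T2 hT2a) _
    · intro x hx j hj hne
      rw [hE3, mem_filter, mem_range] at hx
      rw [mem_Icc] at hj
      rw [← hk] at hne
      have hjJ : j * (W * W₀) ≤ J * (W * W₀) := Nat.mul_le_mul_right _ hj.2
      have hnlt : W * x + b < W * N := by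
        have : W * (x + 1) ≤ W * N := Nat.mul_le_mul_left W hx.1
        rw [Nat.mul_add, mul_one] at this
        omega
      obtain ⟨h1, h2⟩ := val_shift k (W * N) (W * x + b) (j * (W * W₀)) hnlt (by omega) hne
      have h3 := (PP_le h2).2
      have hjx : j * W₀ ≤ x := by
        by_contra hcon
        push Not at hcon
        have h3 : W * (x + 1) ≤ W * (j * W₀) := Nat.mul_le_mul_left W hcon
        have e : W * (j * W₀) = j * (W * W₀) := by ring
        rw [Nat.mul_add, mul_one] at h3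
        omega
      obtain ⟨t, ht⟩ : ∃ t, x = t + j * W₀ := ⟨x - j * W₀, by omega⟩
      have e2 : b + t * W + j * (W * W₀) = W * x + b := by rw [ht]; ring
      -- `t` is between `q` and `q + T2`
      have hqm := Nat.div_add_mod (k - J * (W * W₀)) W
      have hqr := Nat.mod_lt (k - J * (W * W₀)) (show 0 < W by omega)
      rw [← hq] at hqm
      have hqt : q ≤ t := by
        by_contra hcon
        push Not at hcon
        have h4 : W * (t + 1) ≤ W * q := Nat.mul_le_mul_left W hcon
        rw [Nat.mul_add, mul_one] at h4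
        have e4 : t * W = W * t := mul_comm _ _
        omega
      obtain ⟨s, hs⟩ : ∃ s, t = q + s := ⟨t - q, by omega⟩
      refine ⟨s, ?_, ?_, ?_⟩
      · by_contra hcon
        push Not at hcon
        have h4 : W * T2 ≤ W * s := Nat.mul_le_mul_left W hcon
        have e4 : W * T2 = J * (W * W₀) + 2 * W := by rw [hT2]; ring
        have e5 : t * W = W * q + W * s := by rw [hs]; ring
        omega
      · rw [← e2, hs]; ring
      · have e3 : W * x + b - j * (W * W₀) = b + q * W + s * W := by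
          have : b + q * W + s * W = b + t * W := by rw [hs]; ring
          omega
        rw [e3, PP, mem_filter] at h2
        exact h2.2.1
  have hcardE1 : ((E1.card : ℕ) : ℝ) ≤ T1 := by
    have := card_le_card hE1sub
    rw [card_range] at this
    exact_mod_cast this
  have hcardE3 : (((E3.filter (fun x => x < L)).card : ℕ) : ℝ) ≤ 1 := by
    have hsub : E3.filter (fun x => x < L) ⊆ {L - 1} := by
      intro x hx
      rw [mem_filter, hE3, mem_filter] at hx
      rw [mem_singleton]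
      by_contra hcon
      have h1 : x + 1 ≤ k / W := by omega
      have h2 : W * (x + 1) ≤ W * (k / W) := Nat.mul_le_mul_left W h1
      have h3 := Nat.mul_div_le k W
      rw [Nat.mul_add, mul_one] at h2
      omega
    have := card_le_card hsub
    rw [card_singleton] at this
    exact_mod_cast this
  -- pointwise
  have hpt : ∀ x ∈ range N, |h x - (if x < L then ν x else 0)| ≤
      (if x ∈ E1 then h x + A else 0) + (if x ∈ E3 then h x else 0) +
      (if x ∈ E3.filter (fun x => x < L) then A else 0) + (if x < L then η / 4 else 0) := by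
    intro x hx
    have a1 := hh0 x
    obtain ⟨a2, a3⟩ := hν0 x
    have a4 : |h x - (if x < L then ν x else 0)| ≤ h x + (if x < L then A else 0) := by
      split_ifs
      · rw [abs_le]; constructor <;> linarith
      · rw [sub_zero, add_zero, abs_of_nonneg a1]
    have r1 : 0 ≤ (if x ∈ E1 then h x + A else 0) := by split_ifs <;> linarith
    have r2 : 0 ≤ (if x ∈ E3 then h x else 0) := by split_ifs <;> linarith
    have r3 : 0 ≤ (if x ∈ E3.filter (fun x => x < L) then A else 0) := by split_ifs <;> linarith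
    have r4 : 0 ≤ (if x < L then η / 4 else 0) := by split_ifs <;> linarith
    by_cases h1 : x ∈ E1
    · have h2 : (if x < L then A else 0) ≤ A := by split_ifs <;> linarith
      rw [if_pos h1]
      linarith
    · by_cases h3 : x ∈ E3
      · have h4 : (if x < L then A else 0) ≤ (if x ∈ E3.filter (fun x => x < L) then A else 0) := by
          by_cases h5 : x < L
          · rw [if_pos h5, if_pos (mem_filter.2 ⟨h3, h5⟩)]
          · rw [if_neg h5]; exact r3
        rw [if_neg h1, if_pos h3]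
        linarith
      · -- the main region
        have n1 : 2 * τ * k ≤ ((W * x + b : ℕ) : ℝ) := by
          by_contra hcon
          push Not at hcon
          exact h1 (by rw [hE1, mem_filter]; exact ⟨hx, hcon⟩)
        have n2 : W * x + b ≤ k := by
          by_contra hcon
          push Not at hcon
          exact h3 (by rw [hE3, mem_filter]; exact ⟨hx, hcon⟩)
        have hxL : x < L := by
          rw [hL, Nat.lt_add_one_iff, Nat.le_div_iff_mul_le (by omega)]
          have e : x * W = W * x := mul_comm _ _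
          omega
        have hlogk : 0 < Real.log k := by
          apply Real.log_pos
          have : 1 < k := by omega
          exact_mod_cast this
        have hkey : |h x - ν x| ≤ η / 4 := by
          have hm := hmodel k (by omega) J hJ3 hJ1 (W * N) (by omega) (W * x + b) n1 n2
          have hcstA : cst W X * (((W * W₀ : ℕ) : ℝ) / Nat.totient (W * W₀) / Real.log k) = A := by
            rw [hA]
            unfold AA cst
            rw [← hk]
            field_simp
          rw [hh, hν]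
          simp only
          by_cases hc : Nat.Coprime (W * x + b) (W * W₀)
          · rw [(nu_eq W W₀ 0 b x hW hW₀ hbW).1 hc, ← hA]
            obtain ⟨m1, m2⟩ := hm.1 hc
            have m3 := mul_le_mul_of_nonneg_left m1 (cst_nonneg W X)
            have m4 := mul_le_mul_of_nonneg_left m2 (cst_nonneg W X)
            have e1 : cst W X * ((1 - η / (4 * A)) * (((W * W₀ : ℕ) : ℝ) / Nat.totient (W * W₀) / Real.log k)) = A - η / 4 := by
              calc _ = (1 - η / (4 * A)) * (cst W X * (((W * W₀ : ℕ) : ℝ) / Nat.totient (W * W₀) / Real.log k)) := by ring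
                _ = (1 - η / (4 * A)) * A := by rw [hcstA]
                _ = A - η / 4 := by field_simp
            have e2 : cst W X * ((1 + η / (4 * A)) * (((W * W₀ : ℕ) : ℝ) / Nat.totient (W * W₀) / Real.log k)) = A + η / 4 := by
              calc _ = (1 + η / (4 * A)) * (cst W X * (((W * W₀ : ℕ) : ℝ) / Nat.totient (W * W₀) / Real.log k)) := by ring
                _ = (1 + η / (4 * A)) * A := by rw [hcstA]
                _ = A + η / 4 := by field_simp
            rw [e1] at m3
            rw [e2] at m4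
            rw [abs_le]
            constructor <;> linarith
          · rw [(nu_eq W W₀ 0 b x hW hW₀ hbW).2 hc, hm.2 hc, mul_zero, sub_zero, abs_zero]
            positivity
        rw [if_pos hxL, if_neg h1, if_neg h3]
        have r4' : (if x < L then η / 4 else 0) = η / 4 := if_pos hxL
        linarith
  have htotal : ∑ x ∈ range N, |h x - (if x < L then ν x else 0)| ≤ (∑ x ∈ E1, h x + A * T1) + ∑ x ∈ E3, h x + A + η / 4 * L := by
    refine (sum_le_sum hpt).trans ?_
    rw [sum_add_distrib, sum_add_distrib, sum_add_distrib]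
    have s1 : ∑ x ∈ range N, (if x ∈ E1 then h x + A else 0) ≤ ∑ x ∈ E1, h x + A * T1 := by
      rw [← sum_filter]
      have e : (range N).filter (fun x => x ∈ E1) = E1 := by
        rw [filter_mem_eq_inter, inter_eq_right, hE1]
        exact filter_subset _ _
      rw [e, sum_add_distrib, sum_const, nsmul_eq_mul, mul_comm A]
      have := mul_le_mul_of_nonneg_right hcardE1 hA0.le
      linarith
    have s2 : ∑ x ∈ range N, (if x ∈ E3 then h x else 0) = ∑ x ∈ E3, h x := by
      rw [← sum_filter]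
      have e : (range N).filter (fun x => x ∈ E3) = E3 := by
        rw [filter_mem_eq_inter, inter_eq_right, hE3]
        exact filter_subset _ _
      rw [e]
    have s3 : ∑ x ∈ range N, (if x ∈ E3.filter (fun x => x < L) then A else 0) ≤ A := by
      rw [← sum_filter, sum_const, nsmul_eq_mul]
      have h1 : (((range N).filter (fun x => x ∈ E3.filter (fun x => x < L))).card : ℝ) ≤ 1 := by
        refine le_trans ?_ hcardE3
        have : (range N).filter (fun x => x ∈ E3.filter (fun x => x < L)) ⊆ E3.filter (fun x => x < L) := by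
          intro x hx
          exact (mem_filter.1 hx).2
        exact_mod_cast card_le_card this
      nlinarith
    have s4 : ∑ x ∈ range N, (if x < L then η / 4 else 0) ≤ η / 4 * L := by
      rw [← sum_filter, sum_const, nsmul_eq_mul, mul_comm]
      apply mul_le_mul_of_nonneg_left _ (by positivity)
      have : (range N).filter (fun x => x < L) ⊆ range L := by
        intro x hx
        exact mem_range.2 (mem_filter.1 hx).2
      have := card_le_card this
      rw [card_range] at this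
      exact_mod_cast this
    linarith
  have hfinal : (∑ x ∈ E1, h x + A * T1) + ∑ x ∈ E3, h x + A + η / 4 * L ≤ η * L := by
    have hL0 : (0 : ℝ) ≤ L := Nat.cast_nonneg L
    have t1 : C * T1 ≤ C * (2 * τ * L + 1) := mul_le_mul_of_nonneg_left hT1b (by linarith)
    have t2 : A * T1 ≤ A * (2 * τ * L + 1) := mul_le_mul_of_nonneg_left hT1b hA0.le
    have t3 : C * T2 ≤ C * (τ * L + 2) := mul_le_mul_of_nonneg_left hT2b (by linarith)
    have t4 : τ * (3 * C + 2 * A) ≤ η / 4 := by
      have hpos : 0 < 3 * C + 2 * A := by linarith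
      calc τ * (3 * C + 2 * A) ≤ (η / (4 * (3 * C + 2 * A))) * (3 * C + 2 * A) := mul_le_mul_of_nonneg_right hτ3 hpos.le
        _ = η / 4 := by field_simp
    have t5 : τ * (3 * C + 2 * A) * L ≤ η / 4 * L := mul_le_mul_of_nonneg_right t4 hL0
    have t6 : C * (2 * τ * L + 1) + A * (2 * τ * L + 1) + C * (τ * L + 2) + A = τ * (3 * C + 2 * A) * L + (3 * C + 2 * A) := by ring
    have t7 : 0 ≤ η / 4 * L := by positivity
    linarith
  have := htotal.trans hfinal
  rw [hh, hν] at this
  exact this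

end Pool.Agent.H563.RG
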