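import Mathlib
import Pool.Agent.H563.RG.Close2

set_option autoImplicit false

/-! The primes of a residue class to a modulus divisible by all small primes are close to constant. -/

namespace Pool.Agent.H563.RG

open Finset
open Pool.Agent.H373R2.NB (hat chi_eq sum_val aZ bZ EZ hat_EZ sup_small model_b aZ_nonneg norm_chi)
open Pool.Agent.Helper602.MK (PP ee)
open Pool.Agent.Helper602.MK.N_J5b (norm_ee ee_add ee_zero ee_int ee_nat_mul ee_add_int)

/-- **closeness** -/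
theorem closeness (η : ℝ) (hη : 0 < η) : ∃ w₀ : ℕ, ∀ W : ℕ, 1 ≤ W → (∀ p : ℕ, p.Prime → p ≤ w₀ → p ∣ W) →
    ∃ X₀ : ℕ, ∀ X : ℕ, X₀ ≤ X → ∀ b : ℕ, b < W → Nat.Coprime b W →
    ∀ L N : ℕ, ∀ _ : NeZero N, L = 2 * X / W + 1 → N = 2 * L + 1 → ∀ P : ℕ → Prop, ∀ _ : DecidablePred P,
    (∀ x, P x ↔ x < L ∧ W * x + b ∈ PP (2 * X)) →
    ∀ ξ : ZMod N, ‖hat (fun x : ZMod N => if P x.val then cst W X else 0) ξ - hat (ind L) ξ‖ ≤ η * N := by
  obtain ⟨w, hw⟩ : ∃ w : ℕ, w = ⌈4 / η⌉₊ + 1 := ⟨_, rfl⟩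
  refine ⟨w, fun W hW hdiv => ?_⟩
  have hw1 : 1 ≤ w := by omega
  have hwη : 1 / (w : ℝ) ≤ η / 4 := by
    have h1 : 4 / η ≤ w := by
      rw [hw]; push_cast
      have := Nat.le_ceil (4 / η)
      linarith
    have hw0 : (0 : ℝ) < w := by exact_mod_cast hw1
    rw [div_le_iff₀ hη] at h1
    rw [div_le_div_iff₀ hw0 (by norm_num)]
    linarith
  have hW0 : (0 : ℝ) < W := by exact_mod_cast hW
  obtain ⟨κ, hκ⟩ : ∃ κ : ℝ, κ = (η / (4 * W)) ^ 2 := ⟨_, rfl⟩
  have hκ0 : 0 < κ := by rw [hκ]; positivity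
  obtain ⟨W₀, hW₀, τ₀, hτ₀, k0, hk0, hsup⟩ := sup_small κ hκ0
  obtain ⟨X₁, hphys⟩ := phys (η / 4) (by positivity) W W₀ hW hW₀ τ₀ hτ₀
  obtain ⟨Pr, hPr⟩ : ∃ Pr : ℕ, Pr = ∏ p ∈ SS W W₀, p := ⟨_, rfl⟩
  obtain ⟨Y, hY⟩ := exists_nat_ge (W * (Pr : ℝ) ^ 2 * 4 / η)
  refine ⟨X₁ + k0 + Y + 2, fun X hX => ?_⟩
  obtain ⟨J, hJ, hJτ, hmain⟩ := hphys X (by omega)
  intro b hb hbW L N hNz hL hN P hdec hP ξ
  have hNpos : 0 < N := by omega
  have hWN : NeZero (W * N) := ⟨(Nat.mul_pos hW hNpos).ne'⟩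
  have hph := hmain b hb hbW L N hWN hL hN
  obtain ⟨k, hk⟩ : ∃ k : ℕ, k = 2 * X := ⟨_, rfl⟩
  rw [← hk] at hL hP hJτ hph
  have hk2 : 2 ≤ k := by omega
  have hkpos : (0 : ℝ) < k := by
    have : 0 < k := by omega
    exact_mod_cast this
  have hlog : 0 < Real.log k := Real.log_pos (by exact_mod_cast hk2)
  have hWL : k < W * L := by rw [hL]; exact Nat.lt_mul_div_succ k (by omega)
  have hWLr : (k : ℝ) ≤ W * L := by
    rw [← Nat.cast_mul]
    exact_mod_cast hWL.le
  have hMN : W * N = 2 * (W * L) + W := by rw [hN]; ring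
  have hkM : k < W * N := by omega
  have hL0 : (0 : ℝ) ≤ L := Nat.cast_nonneg L
  -- the transform of the error
  have hE : ∀ ζ : ZMod (W * N), ‖hat (EZ k (W * N) (W * W₀) J) ζ‖ ≤ η / (4 * W) * (k / Real.log k) := by
    intro ζ
    have h1 := hsup k (by omega) (W * N) hkM (W * W₀) J hJ (dvd_mul_left _ _) hJτ ζ
    rw [← mul_pow, hκ] at h1
    have h2 := abs_le_of_sq_le_sq' h1 (by positivity)
    have h3 := h2.2
    have h4 : ‖hat (EZ k (W * N) (W * W₀) J) ζ‖ = (‖hat (EZ k (W * N) (W * W₀) J) ζ‖ * (Real.log k / k)) * (k / Real.log k) := by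
      field_simp
    rw [h4]
    exact mul_le_mul_of_nonneg_right h3 (by positivity)
  have hcls := cls_bound W N hW hNz hWN b hb (EZ k (W * N) (W * W₀) J) _ hE ξ
  -- decomposition
  obtain ⟨ν, hν⟩ : ∃ ν : ℕ → ℝ, ν = fun x => ∏ p ∈ SS W W₀, gp p (W * x + b) := ⟨_, rfl⟩
  obtain ⟨h, hh⟩ : ∃ h : ℕ → ℝ, h = fun x => cst W X * bZ k (W * N) (W * W₀) J ((W * x + b : ℕ) : ZMod (W * N)) := ⟨_, rfl⟩
  have hdecomp : ∀ x : ZMod N, ((if P x.val then cst W X else 0 : ℝ) : ℂ) - ((ind L x : ℝ) : ℂ) =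
      (cst W X : ℂ) * ((EZ k (W * N) (W * W₀) J ((W * x.val + b : ℕ) : ZMod (W * N)) : ℝ) : ℂ) +
      ((h x.val - (if x.val < L then ν x.val else 0) : ℝ) : ℂ) +
      (((if x.val < L then ν x.val else 0) - ind L x : ℝ) : ℂ) := by
    intro x
    have hval : ((W * x.val + b : ℕ) : ZMod (W * N)).val = W * x.val + b := by
      apply ZMod.val_natCast_of_lt
      have h1 : W * (x.val + 1) ≤ W * N := Nat.mul_le_mul_left W (ZMod.val_lt x)
      rw [Nat.mul_add, mul_one] at h1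
      omega
    have h1 : (if P x.val then cst W X else 0 : ℝ) = cst W X * aZ k (W * N) ((W * x.val + b : ℕ) : ZMod (W * N)) := by
      unfold aZ
      rw [hval]
      by_cases hc : W * x.val + b ∈ PP k
      · have hxL : x.val < L := by
          rw [hL, Nat.lt_add_one_iff, Nat.le_div_iff_mul_le (by omega)]
          have := (PP_le hc).2
          have e : x.val * W = W * x.val := mul_comm _ _
          omega
        rw [if_pos hc, if_pos ((hP _).2 ⟨hxL, hc⟩), mul_one]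
      · rw [if_neg hc, if_neg (fun h' => hc ((hP _).1 h').2), mul_zero]
    have h2 : aZ k (W * N) ((W * x.val + b : ℕ) : ZMod (W * N)) = EZ k (W * N) (W * W₀) J ((W * x.val + b : ℕ) : ZMod (W * N)) +
        bZ k (W * N) (W * W₀) J ((W * x.val + b : ℕ) : ZMod (W * N)) := by
      unfold EZ; ring
    rw [h1, h2, hh]
    push_cast
    ring
  have hsum : hat (fun x : ZMod N => if P x.val then cst W X else 0) ξ - hat (ind L) ξ =
      (cst W X : ℂ) * ∑ x : ZMod N, ((EZ k (W * N) (W * W₀) J ((W * x.val + b : ℕ) : ZMod (W * N)) : ℝ) : ℂ) * ZMod.stdAddChar (ξ * x) +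
      ∑ x : ZMod N, ((h x.val - (if x.val < L then ν x.val else 0) : ℝ) : ℂ) * ZMod.stdAddChar (ξ * x) +
      ∑ x : ZMod N, (((if x.val < L then ν x.val else 0) - ind L x : ℝ) : ℂ) * ZMod.stdAddChar (ξ * x) := by
    unfold hat
    rw [← sum_sub_distrib, mul_sum, ← sum_add_distrib, ← sum_add_distrib]
    apply sum_congr rfl
    intro x _
    rw [← sub_mul, hdecomp x]
    ring
  -- the three bounds
  have b1 : ‖(cst W X : ℂ) * ∑ x : ZMod N, ((EZ k (W * N) (W * W₀) J ((W * x.val + b : ℕ) : ZMod (W * N)) : ℝ) : ℂ) * ZMod.stdAddChar (ξ * x)‖ ≤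
      η / 4 * L := by
    rw [norm_mul, Complex.norm_real, Real.norm_of_nonneg (cst_nonneg W X)]
    have hc : cst W X ≤ Real.log k := by
      unfold cst
      rw [← hk]
      have h1 : (Nat.totient W : ℝ) / W ≤ 1 := by
        rw [div_le_one hW0]
        exact_mod_cast Nat.totient_le W
      calc (Nat.totient W : ℝ) / W * Real.log k ≤ 1 * Real.log k := mul_le_mul_of_nonneg_right h1 hlog.le
        _ = _ := one_mul _
    calc cst W X * ‖∑ x : ZMod N, ((EZ k (W * N) (W * W₀) J ((W * x.val + b : ℕ) : ZMod (W * N)) : ℝ) : ℂ) * ZMod.stdAddChar (ξ * x)‖ ≤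
        Real.log k * (η / (4 * W) * (k / Real.log k)) := mul_le_mul hc hcls (norm_nonneg _) hlog.le
      _ = η / 4 * (k / W) := by field_simp
      _ ≤ η / 4 * L := by
        apply mul_le_mul_of_nonneg_left _ (by positivity)
        rw [div_le_iff₀ hW0]
        linarith
  have b2 : ‖∑ x : ZMod N, ((h x.val - (if x.val < L then ν x.val else 0) : ℝ) : ℂ) * ZMod.stdAddChar (ξ * x)‖ ≤ η / 4 * L := by
    refine (norm_sum_le _ _).trans ?_
    have e : ∀ x : ZMod N, ‖((h x.val - (if x.val < L then ν x.val else 0) : ℝ) : ℂ) * ZMod.stdAddChar (ξ * x)‖ =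
        |h x.val - (if x.val < L then ν x.val else 0)| := by
      intro x
      rw [norm_mul, norm_chi, mul_one, Complex.norm_real, Real.norm_eq_abs]
    rw [sum_congr rfl fun x _ => e x, sum_val (M := N) (fun x => |h x - (if x < L then ν x else 0)|)]
    rw [hh, hν]
    exact hph
  have b3 : ‖∑ x : ZMod N, (((if x.val < L then ν x.val else 0) - ind L x : ℝ) : ℂ) * ZMod.stdAddChar (ξ * x)‖ ≤ η / 4 * L + η / 4 * L := by
    have e1 : ∑ x : ZMod N, (((if x.val < L then ν x.val else 0) - ind L x : ℝ) : ℂ) * ZMod.stdAddChar (ξ * x) =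
        ∑ x : ZMod N, (if x.val < L then ((ν x.val - 1 : ℝ) : ℂ) * ee (x.val * ((ξ.val : ℝ) / N)) else 0) := by
      apply sum_congr rfl
      intro x _
      have hchi : (ZMod.stdAddChar (ξ * x) : ℂ) = ee (x.val * ((ξ.val : ℝ) / N)) := by
        conv_lhs => rw [← ZMod.natCast_zmod_val x]
        rw [chi_eq]
        congr 1
        ring
      unfold ind
      by_cases hx : x.val < L
      · rw [if_pos hx, if_pos hx, if_pos hx, hchi]
      · rw [if_neg hx, if_neg hx, if_neg hx, sub_zero, Complex.ofReal_zero, zero_mul]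
    rw [e1, sum_val (M := N) (fun x => if x < L then ((ν x - 1 : ℝ) : ℂ) * ee (x * ((ξ.val : ℝ) / N)) else 0), ← sum_filter]
    have e2 : (range N).filter (fun x => x < L) = range L := by
      ext x
      rw [mem_filter, mem_range, mem_range]
      constructor
      · exact fun h => h.2
      · exact fun h => ⟨by omega, h⟩
    rw [e2, hν]
    refine (per_sum W b w hw1 (SS W W₀) (SS_prop W W₀ w hW hdiv) L ((ξ.val : ℝ) / N)).trans ?_
    rw [← hPr]
    apply add_le_add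
    · calc (L : ℝ) / w = 1 / w * L := by ring
        _ ≤ η / 4 * L := mul_le_mul_of_nonneg_right hwη hL0
    · have h1 : W * (Pr : ℝ) ^ 2 * 4 / η ≤ k := by
        refine hY.trans ?_
        exact_mod_cast (by omega : Y ≤ k)
      rw [div_le_iff₀ hη] at h1
      have h2 : W * (Pr : ℝ) ^ 2 * 4 ≤ W * (η * L) := by
        refine h1.trans ?_
        calc (k : ℝ) * η ≤ W * L * η := mul_le_mul_of_nonneg_right hWLr hη.le
          _ = W * (η * L) := by ring
      have h3 : (Pr : ℝ) ^ 2 * 4 ≤ η * L := by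
        apply le_of_mul_le_mul_left _ hW0
        linarith
      linarith
  rw [hsum]
  have hLN : η * L ≤ η * N := by
    apply mul_le_mul_of_nonneg_left _ hη.le
    exact_mod_cast (by omega : L ≤ N)
  refine (norm_add_le _ _).trans ?_
  refine (add_le_add (norm_add_le _ _) le_rfl).trans ?_
  linarith

end Pool.Agent.H563.RG
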