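import Mathlib
import Pool.Agent.H563.RG.Close3

set_option autoImplicit false

/-! Monochromatic representations of `2n` for rough `n`. -/

namespace Pool.Agent.H563.RG

open Finset
open Pool.Agent.H373R2.NB (hat chi_eq sum_val)
open Pool.Agent.Helper602.MK (PP ee)

/-- number of primes `p < n` such that `2n - p` is a prime of the same colour -/
noncomputable def reps {k : ℕ} (c : ℕ → Fin k) (n : ℕ) : ℕ :=
  ((range n).filter (fun p => p.Prime ∧ (2 * n - p).Prime ∧ c p = c (2 * n - p))).card

lemma pairs_card {k : ℕ} (c : ℕ → Fin k) (W b n : ℕ) (hW : 1 ≤ W) (G : Finset ℕ)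
    (hG : ∀ x ∈ G, (W * x + b).Prime ∧ W * x + b ≤ 2 * n ∧ (2 * n - (W * x + b)).Prime ∧ c (W * x + b) = c (2 * n - (W * x + b))) :
    G.card ≤ 2 * reps c n + 1 := by
  classical
  have hinj : ∀ x y : ℕ, W * x + b = W * y + b → x = y := by
    intro x y h
    exact Nat.eq_of_mul_eq_mul_left (by omega) (by omega : W * x = W * y)
  have h1 : (G.filter (fun x => W * x + b < n)).card ≤ reps c n := by
    unfold reps
    apply card_le_card_of_injOn (fun x => W * x + b)
    · intro x hx
      rw [mem_coe, mem_filter] at hx
      obtain ⟨a1, a2, a3, a4⟩ := hG x hx.1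
      rw [mem_coe, mem_filter, mem_range]
      exact ⟨hx.2, a1, a3, a4⟩
    · intro x _ y _ h
      exact hinj x y h
  have h2 : (G.filter (fun x => n < W * x + b)).card ≤ reps c n := by
    unfold reps
    apply card_le_card_of_injOn (fun x => 2 * n - (W * x + b))
    · intro x hx
      rw [mem_coe, mem_filter] at hx
      obtain ⟨a1, a2, a3, a4⟩ := hG x hx.1
      rw [mem_coe, mem_filter, mem_range]
      have e : 2 * n - (2 * n - (W * x + b)) = W * x + b := by omega
      have a5 := hx.2
      simp only
      refine ⟨by omega, a3, ?_, ?_⟩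
      · rw [e]; exact a1
      · rw [e]; exact a4.symm
    · intro x hx y hy h
      rw [mem_coe, mem_filter] at hx hy
      have a := (hG x hx.1).2.1
      have a' := (hG y hy.1).2.1
      simp only at h
      exact hinj x y (by omega)
  have h3 : (G.filter (fun x => W * x + b = n)).card ≤ 1 := by
    rw [card_le_one]
    intro x hx y hy
    rw [mem_filter] at hx hy
    exact hinj x y (by omega)
  have h4 : G ⊆ G.filter (fun x => W * x + b < n) ∪ (G.filter (fun x => n < W * x + b) ∪ G.filter (fun x => W * x + b = n)) := by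
    intro x hx
    rw [mem_union, mem_union, mem_filter, mem_filter, mem_filter]
    rcases lt_trichotomy (W * x + b) n with h | h | h
    · exact Or.inl ⟨hx, h⟩
    · exact Or.inr (Or.inr ⟨hx, h⟩)
    · exact Or.inr (Or.inl ⟨hx, h⟩)
  have h5 := card_le_card h4
  have h6 := card_union_le (G.filter (fun x => W * x + b < n)) (G.filter (fun x => n < W * x + b) ∪ G.filter (fun x => W * x + b = n))
  have h7 := card_union_le (G.filter (fun x => n < W * x + b)) (G.filter (fun x => W * x + b = n))
  omega

/-- convolutions count representations -/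
lemma conv_le {k : ℕ} (c : ℕ → Fin k) (W b X L N μ : ℕ) (_ : NeZero N) (hW : 1 ≤ W) (hL : L = 2 * X / W + 1) (hN : N = 2 * L + 1)
    (hμ : W * μ + b ≤ X) :
    ∑ l : Fin k, cv (fun x : ZMod N => if (x.val < L ∧ W * x.val + b ∈ PP (2 * X)) ∧ c (W * x.val + b) = l then cst W X else 0)
      (fun x : ZMod N => if (x.val < L ∧ W * x.val + b ∈ PP (2 * X)) ∧ c (W * x.val + b) = l then cst W X else 0)
      ((μ : ZMod N) + (μ : ZMod N)) ≤ cst W X ^ 2 * (2 * reps c (W * μ + b) + 1) := by
  classical
  obtain ⟨s, hs⟩ : ∃ s : ZMod N, s = (μ : ZMod N) + (μ : ZMod N) := ⟨_, rfl⟩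
  rw [← hs]
  have hs2 : s = ((2 * μ : ℕ) : ZMod N) := by rw [hs]; push_cast; ring
  have hμL : 2 * μ < L := by
    have h1 : μ ≤ X / W := by
      rw [Nat.le_div_iff_mul_le (by omega), mul_comm]; omega
    have h2 : 2 * (X / W) ≤ 2 * X / W := Nat.mul_div_le_mul_div_assoc _ _ _
    omega
  have hcst := cst_nonneg W X
  have hpos : ∀ l : Fin k, ∀ x : ZMod N, (0 : ℝ) ≤ (if (x.val < L ∧ W * x.val + b ∈ PP (2 * X)) ∧ c (W * x.val + b) = l then cst W X else 0) := by
    intro l x
    split_ifs
    · exact hcst
    · exact le_rfl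
  obtain ⟨G, hG⟩ : ∃ G : Finset ℕ, G = (range N).filter (fun t => (W * t + b).Prime ∧ W * t + b ≤ 2 * (W * μ + b) ∧
    (2 * (W * μ + b) - (W * t + b)).Prime ∧ c (W * t + b) = c (2 * (W * μ + b) - (W * t + b))) := ⟨_, rfl⟩
  have hGcard : G.card ≤ 2 * reps c (W * μ + b) + 1 := by
    apply pairs_card c W b (W * μ + b) hW
    intro x hx
    rw [hG, mem_filter] at hx
    exact hx.2
  have hpt : ∀ x : ZMod N, ∑ l : Fin k, (if (x.val < L ∧ W * x.val + b ∈ PP (2 * X)) ∧ c (W * x.val + b) = l then cst W X else 0) *
      (if ((s - x).val < L ∧ W * (s - x).val + b ∈ PP (2 * X)) ∧ c (W * (s - x).val + b) = l then cst W X else 0) ≤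
      if x.val ∈ G then cst W X ^ 2 else 0 := by
    intro x
    by_cases h1 : x.val < L ∧ W * x.val + b ∈ PP (2 * X)
    · by_cases h2 : (s - x).val < L ∧ W * (s - x).val + b ∈ PP (2 * X)
      · by_cases h3 : c (W * x.val + b) = c (W * (s - x).val + b)
        · have hsum : x.val + (s - x).val = 2 * μ := by
            have h4 : x + (s - x) = ((2 * μ : ℕ) : ZMod N) := by rw [← hs2]; ring
            have h5 := congrArg ZMod.val h4
            rw [ZMod.val_natCast_of_lt (by omega), ZMod.val_add_of_lt (by omega)] at h5
            exact h5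
          have e : 2 * (W * μ + b) - (W * x.val + b) = W * (s - x).val + b := by
            have e2 : W * (x.val + (s - x).val) = W * (2 * μ) := by rw [hsum]
            have e3 : W * (2 * μ) = 2 * (W * μ) := by ring
            rw [Nat.mul_add, e3] at e2
            omega
          have hle : W * x.val + b ≤ 2 * (W * μ + b) := by
            have e2 : W * (x.val + (s - x).val) = W * (2 * μ) := by rw [hsum]
            have e3 : W * (2 * μ) = 2 * (W * μ) := by ring
            rw [Nat.mul_add, e3] at e2
            omega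
          have hmem : x.val ∈ G := by
            rw [hG, mem_filter, mem_range, e]
            refine ⟨ZMod.val_lt x, ?_, hle, ?_, h3⟩
            · have := h1.2
              rw [PP, mem_filter] at this
              exact this.2.1
            · have := h2.2
              rw [PP, mem_filter] at this
              exact this.2.1
          rw [if_pos hmem]
          have e4 : ∀ l ∈ (univ : Finset (Fin k)), (if (x.val < L ∧ W * x.val + b ∈ PP (2 * X)) ∧ c (W * x.val + b) = l then cst W X else 0) *
            (if ((s - x).val < L ∧ W * (s - x).val + b ∈ PP (2 * X)) ∧ c (W * (s - x).val + b) = l then cst W X else 0) =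
              if c (W * x.val + b) = l then cst W X ^ 2 else 0 := by
            intro l _
            by_cases h6 : c (W * x.val + b) = l
            · rw [if_pos ⟨h1, h6⟩, if_pos ⟨h2, by rw [← h3]; exact h6⟩, if_pos h6]; ring
            · rw [if_neg (fun h => h6 h.2), zero_mul, if_neg h6]
          rw [sum_congr rfl e4, sum_ite_eq, if_pos (mem_univ _)]
        · have e4 : ∀ l ∈ (univ : Finset (Fin k)), (if (x.val < L ∧ W * x.val + b ∈ PP (2 * X)) ∧ c (W * x.val + b) = l then cst W X else 0) *
            (if ((s - x).val < L ∧ W * (s - x).val + b ∈ PP (2 * X)) ∧ c (W * (s - x).val + b) = l then cst W X else 0) = 0 := by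
            intro l _
            by_cases h6 : c (W * x.val + b) = l
            · rw [if_neg (c := ((s - x).val < L ∧ W * (s - x).val + b ∈ PP (2 * X)) ∧ c (W * (s - x).val + b) = l) (fun h => h3 (by rw [h6, h.2])), mul_zero]
            · rw [if_neg (fun h => h6 h.2), zero_mul]
          rw [sum_congr rfl e4, sum_const_zero]
          split_ifs <;> positivity
      · have e4 : ∀ l ∈ (univ : Finset (Fin k)), (if (x.val < L ∧ W * x.val + b ∈ PP (2 * X)) ∧ c (W * x.val + b) = l then cst W X else 0) *
            (if ((s - x).val < L ∧ W * (s - x).val + b ∈ PP (2 * X)) ∧ c (W * (s - x).val + b) = l then cst W X else 0) = 0 := by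
          intro l _
          rw [if_neg (c := ((s - x).val < L ∧ W * (s - x).val + b ∈ PP (2 * X)) ∧ c (W * (s - x).val + b) = l) (fun h => h2 h.1), mul_zero]
        rw [sum_congr rfl e4, sum_const_zero]
        split_ifs <;> positivity
    · have e4 : ∀ l ∈ (univ : Finset (Fin k)), (if (x.val < L ∧ W * x.val + b ∈ PP (2 * X)) ∧ c (W * x.val + b) = l then cst W X else 0) *
          (if ((s - x).val < L ∧ W * (s - x).val + b ∈ PP (2 * X)) ∧ c (W * (s - x).val + b) = l then cst W X else 0) = 0 := by
        intro l _
        rw [if_neg (fun h => h1 h.1), zero_mul]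
      rw [sum_congr rfl e4, sum_const_zero]
      split_ifs <;> positivity
  unfold cv
  rw [sum_comm]
  refine (sum_le_sum fun x _ => hpt x).trans ?_
  rw [sum_val (M := N) (fun t => if t ∈ G then cst W X ^ 2 else 0), ← sum_filter, sum_const, nsmul_eq_mul, mul_comm]
  apply mul_le_mul_of_nonneg_left _ (by positivity)
  have h8 : ((range N).filter (fun t => t ∈ G)).card ≤ G.card := by
    apply card_le_card
    intro t ht
    exact (mem_filter.1 ht).2
  have h9 := h8.trans hGcard
  exact_mod_cast h9

end Pool.Agent.H563.RG
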