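import Mathlib
import Pool.Agent.H563.RG.Main

set_option autoImplicit false

/-! Monochromatic representations of `2n` for rough `n`: one residue class. -/

namespace Pool.Agent.H563.RG

open Finset
open Pool.Agent.H373R2.NB (hat chi_eq sum_val)
open Pool.Agent.Helper602.MK (PP ee)

lemma log_sq_small (κ : ℝ) (hκ : 0 < κ) : ∃ Y : ℕ, ∀ X : ℕ, Y ≤ X → Real.log X ^ 2 ≤ κ * X := by
  have h1 := isLittleO_log_rpow_atTop (show (0 : ℝ) < 1 / 2 by norm_num)
  have h2 := h1.bound (show 0 < Real.sqrt κ by positivity)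
  have h3 := tendsto_natCast_atTop_atTop (R := ℝ) |>.eventually h2
  obtain ⟨Y, hY⟩ := Filter.eventually_atTop.1 h3
  refine ⟨Y, fun X hX => ?_⟩
  have h4 := hY X hX
  have hlog0 : 0 ≤ Real.log (X : ℝ) := Real.log_natCast_nonneg X
  rw [Real.norm_of_nonneg hlog0, Real.norm_of_nonneg (by positivity)] at h4
  have hX0 : (0 : ℝ) ≤ X := Nat.cast_nonneg X
  have h5 := pow_le_pow_left₀ hlog0 h4 2
  rw [mul_pow, Real.sq_sqrt hκ.le, ← Real.rpow_natCast, ← Real.rpow_natCast, ← Real.rpow_mul hX0] at h5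
  norm_num at h5
  exact h5

theorem classes (k : ℕ) (hk : 1 ≤ k) (ε : ℝ) (hε : 0 < ε) (hε1 : ε ≤ 1) :
    ∃ w₀ : ℕ, ∀ W : ℕ, 1 ≤ W → (∀ p : ℕ, p.Prime → p ≤ w₀ → p ∣ W) →
    ∃ δ : ℝ, 0 < δ ∧ ∃ X₀ : ℕ, ∀ X : ℕ, X₀ ≤ X → ∀ c : ℕ → Fin k, ∀ b : ℕ, b < W → Nat.Coprime b W →
    ∀ S : Finset ℕ, (∀ m ∈ S, W * m + b ≤ X ∧ (reps c (W * m + b) : ℝ) < δ * X / Real.log X ^ 2) →
    (S.card : ℝ) ≤ ε * (X / W) := by
  obtain ⟨C₂, hC₂, hrestr⟩ := restr_class
  obtain ⟨Q₀, hQ₀⟩ : ∃ Q₀ : ℕ, Q₀ = ⌈192 / ε⌉₊ + 1 := ⟨_, rfl⟩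
  have hQ₀1 : 1 ≤ Q₀ := by omega
  have hQ₀r : (0 : ℝ) < Q₀ := by exact_mod_cast hQ₀1
  have hQ₀ε : 192 ≤ Q₀ * ε := by
    have h1 : 192 / ε ≤ Q₀ := by
      rw [hQ₀]; push_cast
      have := Nat.le_ceil (192 / ε)
      linarith
    rw [div_le_iff₀ hε] at h1
    exact h1
  obtain ⟨ζ, hζ⟩ : ∃ ζ : ℝ, ζ = ε / (24 * Q₀) := ⟨_, rfl⟩
  have hζ0 : 0 < ζ := by rw [hζ]; positivity
  obtain ⟨η, hη, c₀, hc₀, hcomb⟩ := comb k hk ζ hζ0 Q₀ hQ₀1 C₂ hC₂
  obtain ⟨w₀, hclose⟩ := closeness η hη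
  refine ⟨w₀, fun W hW hdiv => ?_⟩
  obtain ⟨X₁, hclose⟩ := hclose W hW hdiv
  obtain ⟨X₂, hrestr⟩ := hrestr W hW
  have hW0 : (0 : ℝ) < W := by exact_mod_cast hW
  obtain ⟨Y₁, hY₁⟩ := log_sq_small (c₀ / (4 * W)) (by positivity)
  obtain ⟨Y₂, hY₂⟩ := exists_nat_ge (64 * W / ε)
  refine ⟨c₀ / (8 * W), by positivity, X₁ + X₂ + Y₁ + Y₂ + W + 2, fun X hX => ?_⟩
  intro c b hb hbW S hS
  by_contra hcon
  push Not at hcon
  obtain ⟨L, hL⟩ : ∃ L : ℕ, L = 2 * X / W + 1 := ⟨_, rfl⟩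
  obtain ⟨N, hN⟩ : ∃ N : ℕ, N = 2 * L + 1 := ⟨_, rfl⟩
  have hNz : NeZero N := ⟨by omega⟩
  have hX0 : (0 : ℝ) < X := by exact_mod_cast (by omega : 0 < X)
  have hXWr : (W : ℝ) ≤ X := by exact_mod_cast (by omega : W ≤ X)
  -- sizes of `L` and `N`
  have hL1 : 2 * (X : ℝ) / W ≤ L := by
    rw [div_le_iff₀ hW0]
    have h1 : 2 * X < W * L := by rw [hL]; exact Nat.lt_mul_div_succ _ (by omega)
    have h2 : ((2 * X : ℕ) : ℝ) ≤ ((W * L : ℕ) : ℝ) := by exact_mod_cast h1.le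
    push_cast at h2
    linarith
  have hL2 : (L : ℝ) ≤ 3 * (X / W) := by
    have h1 : ((2 * X / W : ℕ) : ℝ) ≤ ((2 * X : ℕ) : ℝ) / W := Nat.cast_div_le
    have h2 : (1 : ℝ) ≤ X / W := by rw [le_div_iff₀ hW0]; linarith
    rw [hL]
    push_cast at h1 ⊢
    have e : 2 * (X : ℝ) / W = 2 * (X / W) := by ring
    linarith
  have hNL : (N : ℝ) ≤ 3 * L := by
    have : 1 ≤ L := by rw [hL]; exact Nat.le_add_left 1 _
    exact_mod_cast (by omega : N ≤ 3 * L)
  have hLN : 2 * (L : ℝ) ≤ N := by exact_mod_cast (by omega : 2 * L ≤ N)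
  have hLε : 64 ≤ ε * L := by
    have h1 : 64 * W / ε ≤ X := hY₂.trans (by exact_mod_cast (by omega : Y₂ ≤ X))
    rw [div_le_iff₀ hε] at h1
    have h2 : 64 ≤ ε * (X / W) := by
      rw [mul_div_assoc', le_div_iff₀ hW0]; linarith
    have h3 : (X : ℝ) / W ≤ L := by
      refine le_trans ?_ hL1
      apply div_le_div_of_nonneg_right _ hW0.le
      linarith
    exact h2.trans (mul_le_mul_of_nonneg_left h3 hε.le)
  -- the blocks
  obtain ⟨D, hD⟩ : ∃ D : ℕ, D = ⌊ε * L / 32⌋₊ := ⟨_, rfl⟩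
  have hD1 : (D : ℝ) ≤ ε * L / 32 := by rw [hD]; exact Nat.floor_le (by positivity)
  have hD2 : ε * L / 64 ≤ D := by
    have := Nat.lt_floor_add_one (ε * L / 32)
    rw [← hD] at this
    linarith
  have hDpos : 0 < D := by
    have : (0 : ℝ) < D := by linarith
    exact_mod_cast this
  have hNQD : N ≤ Q₀ * D := by
    have h1 : (N : ℝ) ≤ Q₀ * D := by
      refine hNL.trans ?_
      have h2 : Q₀ * (ε * L / 64) ≤ Q₀ * (D : ℝ) := mul_le_mul_of_nonneg_left hD2 hQ₀r.le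
      have h3 : 192 * (L : ℝ) ≤ Q₀ * ε * L := mul_le_mul_of_nonneg_right hQ₀ε (Nat.cast_nonneg L)
      linarith
    exact_mod_cast h1
  have h32 : 32 * D ≤ L := by
    have h1 : (32 : ℝ) * D ≤ L := by
      have h2 : ε * (L : ℝ) ≤ 1 * L := mul_le_mul_of_nonneg_right hε1 (Nat.cast_nonneg L)
      linarith
    exact_mod_cast h1
  have hSle : ∀ m ∈ S, 2 * m < L := by
    intro m hm
    have h0 := (hS m hm).1
    have h1 : m ≤ X / W := by
      rw [Nat.le_div_iff_mul_le (by omega), mul_comm]; omega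
    have h2 : 2 * (X / W) ≤ 2 * X / W := Nat.mul_div_le_mul_div_assoc _ _ _
    omega
  obtain ⟨S', hS'⟩ : ∃ S' : Finset ℕ, S' = S.filter (fun m => 3 * D ≤ m) := ⟨_, rfl⟩
  have hS'card : ε / 2 * (X / W) ≤ S'.card := by
    have h1 : S ⊆ S' ∪ range (3 * D) := by
      intro m hm
      rw [mem_union, mem_range, hS', mem_filter]
      by_cases h : 3 * D ≤ m
      · exact Or.inl ⟨hm, h⟩
      · exact Or.inr (by omega)
    have h2 := (card_le_card h1).trans (card_union_le _ _)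
    rw [card_range] at h2
    have h3 : (S.card : ℝ) ≤ S'.card + 3 * D := by exact_mod_cast h2
    have h4 : 3 * (D : ℝ) ≤ ε / 2 * (X / W) := by
      have h5 : ε * (L : ℝ) ≤ ε * (3 * (X / W)) := mul_le_mul_of_nonneg_left hL2 hε.le
      have h6 : 0 ≤ ε * ((X : ℝ) / W) := by positivity
      linarith
    linarith
  have hmaps : ∀ m ∈ S', m / D ∈ range Q₀ := by
    intro m hm
    rw [mem_range, Nat.div_lt_iff_lt_mul hDpos]
    rw [hS', mem_filter] at hm
    have := hSle m hm.1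
    omega
  have hpig : ∃ j ∈ range Q₀, ζ * N ≤ ((S'.filter (fun m => m / D = j)).card : ℝ) := by
    by_contra hc
    push Not at hc
    have h1 : (S'.card : ℝ) = ∑ j ∈ range Q₀, ((S'.filter (fun m => m / D = j)).card : ℝ) := by
      have := card_eq_sum_card_fiberwise hmaps
      exact_mod_cast this
    have h2 : (S'.card : ℝ) < Q₀ * (ζ * N) := by
      rw [h1]
      calc ∑ j ∈ range Q₀, ((S'.filter (fun m => m / D = j)).card : ℝ) < ∑ _j ∈ range Q₀, ζ * N := by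
            apply sum_lt_sum_of_nonempty
            · rw [nonempty_range_iff]; omega
            · exact hc
        _ = Q₀ * (ζ * N) := by rw [sum_const, card_range, nsmul_eq_mul]
    have h3 : Q₀ * (ζ * N) = ε / 24 * N := by rw [hζ]; field_simp
    have h4 : ε / 24 * N ≤ ε / 24 * (3 * (3 * (X / W))) := by
      apply mul_le_mul_of_nonneg_left _ (by positivity)
      exact hNL.trans (mul_le_mul_of_nonneg_left hL2 (by norm_num))
    have h6 : 0 < ε * ((X : ℝ) / W) := by positivity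
    linarith
  obtain ⟨j, hj, hjc⟩ := hpig
  obtain ⟨B, hB⟩ : ∃ B : Finset ℕ, B = S'.filter (fun m => m / D = j) := ⟨_, rfl⟩
  rw [← hB] at hjc
  have hBprop : ∀ m ∈ B, m ∈ S ∧ 3 * D ≤ m ∧ j * D ≤ m ∧ m < j * D + D := by
    intro m hm
    rw [hB, mem_filter, hS', mem_filter] at hm
    refine ⟨hm.1.1, hm.1.2, ?_, ?_⟩
    · rw [← hm.2]; exact Nat.div_mul_le_self m D
    · rw [← hm.2]
      have := Nat.lt_div_mul_add hDpos (a := m)
      exact this
  have hBne : B.Nonempty := by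
    rw [← card_pos]
    have h1 : (0 : ℝ) < N := by
      have : 0 < N := by omega
      exact_mod_cast this
    have h2 : (0 : ℝ) < B.card := lt_of_lt_of_le (by positivity) hjc
    exact_mod_cast h2
  obtain ⟨m₀, hm₀⟩ := hBne
  have hj3 : 3 * D ≤ j * D := by
    obtain ⟨_, h2, _, h4⟩ := hBprop m₀ hm₀
    have h5 : 3 * D < (j + 1) * D := by rw [Nat.add_mul, one_mul]; omega
    have h6 : 3 < j + 1 := Nat.lt_of_mul_lt_mul_right h5
    exact Nat.mul_le_mul_right D (by omega)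
  have hjL : j * D + 4 * D ≤ L := by
    obtain ⟨h1, h2, h3, h4⟩ := hBprop m₀ hm₀
    have := hSle m₀ h1
    omega
  -- the set in `ZMod N`
  obtain ⟨Z, hZ⟩ : ∃ Z : Finset (ZMod N), Z = B.image (fun m : ℕ => (m : ZMod N)) := ⟨_, rfl⟩
  have hBN : ∀ m ∈ B, m < N := by
    intro m hm
    have := hSle m (hBprop m hm).1
    omega
  have hinj : Set.InjOn (fun m : ℕ => (m : ZMod N)) B := by
    intro x hx y hy h
    simp only at h
    have h1 := congrArg ZMod.val h
    rw [ZMod.val_natCast_of_lt (hBN x hx), ZMod.val_natCast_of_lt (hBN y hy)] at h1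
    exact h1
  have hZcard : Z.card = B.card := by rw [hZ]; exact card_image_of_injOn hinj
  -- the functions
  obtain ⟨f, hf⟩ : ∃ f : Fin k → ZMod N → ℝ, f = fun l x =>
    if (x.val < L ∧ W * x.val + b ∈ PP (2 * X)) ∧ c (W * x.val + b) = l then cst W X else 0 := ⟨_, rfl⟩
  have hcst := cst_nonneg W X
  have hf0 : ∀ l x, 0 ≤ f l x := by
    intro l x
    rw [hf]
    simp only
    split_ifs
    · exact hcst
    · exact le_rfl
  have hfsum : (fun x : ZMod N => ∑ l, f l x) = fun x : ZMod N => if x.val < L ∧ W * x.val + b ∈ PP (2 * X) then cst W X else 0 := by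
    funext x
    rw [hf]
    simp only
    by_cases h : x.val < L ∧ W * x.val + b ∈ PP (2 * X)
    · rw [if_pos h]
      have e : ∀ l ∈ (univ : Finset (Fin k)), (if (x.val < L ∧ W * x.val + b ∈ PP (2 * X)) ∧ c (W * x.val + b) = l then cst W X else 0) =
          if c (W * x.val + b) = l then cst W X else 0 := by
        intro l _
        by_cases h2 : c (W * x.val + b) = l
        · rw [if_pos ⟨h, h2⟩, if_pos h2]
        · rw [if_neg (fun h3 => h2 h3.2), if_neg h2]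
      rw [sum_congr rfl e, sum_ite_eq, if_pos (mem_univ _)]
    · rw [if_neg h]
      apply sum_eq_zero
      intro l _
      rw [if_neg (fun h3 => h h3.1)]
  have H1 : ∀ ξ, ‖hat (fun x : ZMod N => ∑ l, f l x) ξ - hat (ind L) ξ‖ ≤ η * N := by
    intro ξ
    rw [hfsum]
    exact hclose X (by omega) b hb hbW L N hNz hL hN (fun x => x < L ∧ W * x + b ∈ PP (2 * X)) (fun _ => inferInstance)
      (fun _ => Iff.rfl) ξ
  have H2 : ∀ l, ∑ ξ, ‖hat (f l) ξ‖ ^ 3 ≤ C₂ * (N : ℝ) ^ 3 := by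
    intro l
    rw [hf]
    exact hrestr X (by omega) b hb hbW L N hNz hL hN (fun x => (x < L ∧ W * x + b ∈ PP (2 * X)) ∧ c (W * x + b) = l)
      (fun _ => inferInstance) (fun x hx => hx.1)
  have hmain := hcomb N L hNz hN f hf0 H1 H2 Z (j * D) D (by
      intro m hm
      rw [hZ, mem_image] at hm
      obtain ⟨t, ht, rfl⟩ := hm
      rw [ZMod.val_natCast_of_lt (hBN t ht)]
      obtain ⟨_, _, h3, h4⟩ := hBprop t ht
      exact ⟨h3, h4⟩) hNQD hj3 hjL (by rw [hZcard]; exact hjc)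
  rw [hZ, sum_image hinj] at hmain
  -- upper bound
  have hlogX : 0 < Real.log X := Real.log_pos (by exact_mod_cast (by omega : 1 < X))
  have hcst2 : cst W X ^ 2 ≤ 4 * Real.log X ^ 2 := by
    have h1 : cst W X ≤ 2 * Real.log X := by
      unfold cst
      have h2 : (Nat.totient W : ℝ) / W ≤ 1 := by
        rw [div_le_one hW0]
        exact_mod_cast Nat.totient_le W
      have h3 : Real.log (2 * X : ℕ) ≤ 2 * Real.log X := by
        have h4 : Real.log (2 * X : ℕ) ≤ Real.log ((X : ℝ) ^ 2) := by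
          apply Real.log_le_log
          · exact_mod_cast (by omega : 0 < 2 * X)
          · have : 2 * X ≤ X ^ 2 := by nlinarith [(by omega : 2 ≤ X)]
            exact_mod_cast this
        rw [Real.log_pow] at h4
        push_cast at h4 ⊢
        exact h4
      have h5 : 0 ≤ Real.log (2 * X : ℕ) := Real.log_natCast_nonneg _
      calc (Nat.totient W : ℝ) / W * Real.log (2 * X : ℕ) ≤ 1 * Real.log (2 * X : ℕ) := mul_le_mul_of_nonneg_right h2 h5
        _ ≤ 2 * Real.log X := by rw [one_mul]; exact h3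
    calc cst W X ^ 2 ≤ (2 * Real.log X) ^ 2 := pow_le_pow_left₀ hcst h1 2
      _ = 4 * Real.log X ^ 2 := by ring
  have hupper : ∀ μ ∈ B, ∑ l, cv (f l) (f l) ((μ : ZMod N) + (μ : ZMod N)) ≤ c₀ * (X / W) + c₀ * (X / W) := by
    intro μ hμ
    obtain ⟨h1, _⟩ := hBprop μ hμ
    obtain ⟨h2, h3⟩ := hS μ h1
    have h4 := conv_le c W b X L N μ hNz hW hL hN h2
    rw [hf]
    refine h4.trans ?_
    have h5 : cst W X ^ 2 * (2 * reps c (W * μ + b) + 1) ≤ (4 * Real.log X ^ 2) * (2 * (c₀ / (8 * W) * X / Real.log X ^ 2) + 1) := by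
      apply mul_le_mul hcst2 _ (by positivity) (by positivity)
      linarith
    refine h5.trans ?_
    have h6 : (4 * Real.log X ^ 2) * (2 * (c₀ / (8 * W) * X / Real.log X ^ 2) + 1) = c₀ * (X / W) + 4 * Real.log X ^ 2 := by
      field_simp
      ring
    rw [h6]
    have h7 := hY₁ X (by omega)
    have h8 : 4 * (c₀ / (4 * W) * X) = c₀ * (X / W) := by field_simp
    linarith
  have hBcard : (B.card : ℝ) ≤ L := by
    have h1 : B ⊆ range L := by
      intro m hm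
      rw [mem_range]
      have := hSle m (hBprop m hm).1
      omega
    have := card_le_card h1
    rw [card_range] at this
    exact_mod_cast this
  have htot : ∑ x ∈ B, ∑ l, cv (f l) (f l) ((x : ZMod N) + (x : ZMod N)) ≤ L * (c₀ * (X / W) + c₀ * (X / W)) := by
    refine (sum_le_sum hupper).trans ?_
    rw [sum_const, nsmul_eq_mul]
    exact mul_le_mul_of_nonneg_right hBcard (by positivity)
  have hfin := hmain.trans htot
  have hL0 : (0 : ℝ) < L := lt_of_lt_of_le (by positivity) hL1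
  have e1 : (L : ℝ) * (c₀ * (X / W) + c₀ * (X / W)) = c₀ * L * (2 * X / W) := by ring
  have e2 : c₀ * L * (2 * X / W) ≤ c₀ * L * L := mul_le_mul_of_nonneg_left hL1 (by positivity)
  have e3 : c₀ * (2 * L) ^ 2 ≤ c₀ * (N : ℝ) ^ 2 := mul_le_mul_of_nonneg_left (pow_le_pow_left₀ (by positivity) hLN 2) hc₀.le
  have e4 : 0 < c₀ * L * L := by positivity
  nlinarith

end Pool.Agent.H563.RG
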