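import Mathlib
import Pool.Agent.H563.RG.Main2

set_option autoImplicit false

/-! Monochromatic representations of `2n` for rough `n`. -/

namespace Pool.Agent.H563.RG

open Finset

/-- the positive integers up to `X` which have no prime factor `≤ w` -/
noncomputable def rough (w X : ℕ) : Finset ℕ := by
  classical
  exact (Icc 1 X).filter (fun n => ∀ p : ℕ, p.Prime → p ≤ w → ¬ p ∣ n)

lemma mem_rough (w X n : ℕ) : n ∈ rough w X ↔ (1 ≤ n ∧ n ≤ X) ∧ ∀ p : ℕ, p.Prime → p ≤ w → ¬ p ∣ n := by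
  classical
  unfold rough
  rw [mem_filter, mem_Icc]

lemma rough_coprime (w n : ℕ) : (∀ p : ℕ, p.Prime → p ≤ w → ¬ p ∣ n) ↔ Nat.Coprime n (primorial w) := by
  constructor
  · intro h
    by_contra hcon
    obtain ⟨p, hp, h1, h2⟩ := Nat.Prime.not_coprime_iff_dvd.1 hcon
    have h3 : p ≤ w := by
      unfold primorial at h2
      obtain ⟨q, hq, hd⟩ := (Prime.dvd_finsetProd_iff hp.prime _).1 h2
      rw [mem_filter, mem_range] at hq
      have : p = q := (Nat.prime_dvd_prime_iff_eq hp hq.2).1 hd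
      omega
    exact h p hp h3 h1
  · intro h p hp hpw hd
    have h2 : p ∣ primorial w := by
      unfold primorial
      apply dvd_prod_of_mem
      rw [mem_filter, mem_range]
      exact ⟨by omega, hp⟩
    have := Nat.dvd_gcd hd h2
    rw [h] at this
    exact hp.one_lt.ne' (Nat.dvd_one.1 this)

lemma rough_lower (w X : ℕ) (hw : 2 ≤ w) : Nat.totient (primorial w) * (X / primorial w) ≤ (rough w X).card := by
  classical
  obtain ⟨W, hW⟩ : ∃ W, W = primorial w := ⟨_, rfl⟩
  rw [← hW]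
  have hWpos : 0 < W := by rw [hW]; exact primorial_pos w
  have hW2 : 2 ≤ W := by
    have h2 : 2 ∣ W := by
      rw [hW]; unfold primorial
      apply dvd_prod_of_mem
      rw [mem_filter, mem_range]
      exact ⟨by omega, Nat.prime_two⟩
    exact Nat.le_of_dvd hWpos h2
  have h1 : ((range W).filter (fun b => Nat.Coprime W b)).card * (X / W) = Nat.totient W * (X / W) := by
    rw [Nat.totient]
  rw [← h1]
  conv_lhs => rw [← card_range (X / W), ← card_product]
  apply card_le_card_of_injOn (fun q => W * q.2 + q.1)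
  · intro q hq
    rw [mem_coe, mem_product, mem_filter, mem_range, mem_range] at hq
    rw [mem_coe, mem_rough]
    obtain ⟨⟨h2, h3⟩, h4⟩ := hq
    simp only
    have h5 : W * (q.2 + 1) ≤ W * (X / W) := Nat.mul_le_mul_left W h4
    have h6 := Nat.mul_div_le X W
    rw [Nat.mul_add, mul_one] at h5
    have hb : 1 ≤ q.1 := by
      rcases Nat.eq_zero_or_pos q.1 with h | h
      · rw [h, Nat.coprime_zero_right] at h3
        omega
      · exact h
    refine ⟨⟨by omega, by omega⟩, ?_⟩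
    rw [rough_coprime, ← hW]
    rw [Nat.coprime_mul_left_add_left]
    exact h3.symm
  · intro q hq r hr h
    rw [mem_coe, mem_product, mem_filter, mem_range, mem_range] at hq hr
    simp only at h
    have h7 : (W * q.2 + q.1) % W = (W * r.2 + r.1) % W := by rw [h]
    rw [Nat.mul_add_mod, Nat.mul_add_mod, Nat.mod_eq_of_lt hq.1.1, Nat.mod_eq_of_lt hr.1.1] at h7
    have h8 : q.2 = r.2 := by
      rw [h7] at h
      exact Nat.eq_of_mul_eq_mul_left hWpos (by omega)
    exact Prod.ext h7 h8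

theorem final (k : ℕ) (hk : 1 ≤ k) (ε : ℝ) (hε : 0 < ε) :
    ∃ w₀ : ℕ, ∀ w : ℕ, w₀ ≤ w → ∃ δ : ℝ, 0 < δ ∧ ∃ X₀ : ℕ, ∀ X : ℕ, X₀ ≤ X → ∀ c : ℕ → Fin k,
      (((rough w X).filter (fun n => (reps c n : ℝ) < δ * X / Real.log X ^ 2)).card : ℝ) ≤ ε * (rough w X).card := by
  classical
  obtain ⟨ε', hε'⟩ : ∃ ε' : ℝ, ε' = min (ε / 2) 1 := ⟨_, rfl⟩
  have hε'0 : 0 < ε' := by rw [hε']; positivity
  have hε'1 : ε' ≤ 1 := by rw [hε']; exact min_le_right _ _
  have hε'2 : ε' ≤ ε / 2 := by rw [hε']; exact min_le_left _ _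
  obtain ⟨w₀, hcl⟩ := classes k hk ε' hε'0 hε'1
  refine ⟨w₀ + 2, fun w hw => ?_⟩
  obtain ⟨W, hW⟩ : ∃ W, W = primorial w := ⟨_, rfl⟩
  have hWpos : 0 < W := by rw [hW]; exact primorial_pos w
  have hW0 : (0 : ℝ) < W := by exact_mod_cast hWpos
  obtain ⟨δ, hδ, X₀, hmain⟩ := hcl W hWpos (by
    intro p hp hpw
    rw [hW]; unfold primorial
    apply dvd_prod_of_mem
    rw [mem_filter, mem_range]
    exact ⟨by omega, hp⟩)
  refine ⟨δ, hδ, X₀ + W, fun X hX c => ?_⟩
  obtain ⟨T, hT⟩ : ∃ T : Finset ℕ, T = (rough w X).filter (fun n => (reps c n : ℝ) < δ * X / Real.log X ^ 2) := ⟨_, rfl⟩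
  rw [← hT]
  have h1 : T.card = ∑ b ∈ (range W).filter (fun b => Nat.Coprime W b), (T.filter (fun n => n % W = b)).card := by
    apply card_eq_sum_card_fiberwise
    intro n hn
    rw [mem_coe, hT, mem_filter, mem_rough, rough_coprime, ← hW] at hn
    rw [mem_coe, mem_filter, mem_range]
    refine ⟨Nat.mod_lt _ hWpos, ?_⟩
    have h2 : Nat.gcd (n % W) W = Nat.gcd n W := by
      rw [← Nat.gcd_rec, Nat.gcd_comm]
    have h3 : Nat.Coprime (n % W) W := by
      unfold Nat.Coprime
      rw [h2]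
      exact hn.1.2
    exact h3.symm
  have h2 : ∀ b ∈ (range W).filter (fun b => Nat.Coprime W b), ((T.filter (fun n => n % W = b)).card : ℝ) ≤ ε' * (X / W) := by
    intro b hb
    rw [mem_filter, mem_range] at hb
    obtain ⟨S, hS⟩ : ∃ S : Finset ℕ, S = (T.filter (fun n => n % W = b)).image (fun n => n / W) := ⟨_, rfl⟩
    have hcard : S.card = (T.filter (fun n => n % W = b)).card := by
      rw [hS]
      apply card_image_of_injOn
      intro x hx y hy h
      rw [mem_coe, mem_filter] at hx hy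
      simp only at h
      have e1 := Nat.div_add_mod x W
      have e2 := Nat.div_add_mod y W
      rw [hx.2, h] at e1
      rw [hy.2] at e2
      omega
    rw [← hcard]
    apply hmain X (by omega) c b hb.1 hb.2.symm S
    intro m hm
    rw [hS, mem_image] at hm
    obtain ⟨n, hn, rfl⟩ := hm
    rw [mem_filter, hT, mem_filter, mem_rough] at hn
    have e1 := Nat.div_add_mod n W
    rw [hn.2] at e1
    rw [e1]
    exact ⟨hn.1.1.1.2, hn.1.2⟩
  have h3 : (T.card : ℝ) ≤ Nat.totient W * (ε' * (X / W)) := by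
    rw [h1]
    push_cast
    refine (sum_le_sum h2).trans ?_
    rw [sum_const, nsmul_eq_mul]
    rfl
  have h4 : ((Nat.totient W * (X / W) : ℕ) : ℝ) ≤ (rough w X).card := by
    have := rough_lower w X (by omega)
    rw [← hW] at this
    exact_mod_cast this
  have h5 : (X : ℝ) / W ≤ 2 * ((X / W : ℕ) : ℝ) := by
    have h6 : 1 ≤ X / W := (Nat.one_le_div_iff hWpos).2 (by omega)
    have h7 : (X : ℝ) < W * (((X / W : ℕ) : ℝ) + 1) := by
      have := Nat.lt_mul_div_succ X hWpos
      have h8 : ((X : ℕ) : ℝ) < ((W * (X / W + 1) : ℕ) : ℝ) := by exact_mod_cast this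
      rw [Nat.cast_mul, Nat.cast_add, Nat.cast_one] at h8
      exact h8
    have h9 : (1 : ℝ) ≤ ((X / W : ℕ) : ℝ) := by exact_mod_cast h6
    rw [div_le_iff₀ hW0]
    nlinarith
  have hφ : (0 : ℝ) ≤ Nat.totient W := Nat.cast_nonneg _
  calc (T.card : ℝ) ≤ Nat.totient W * (ε' * (X / W)) := h3
    _ ≤ Nat.totient W * ((ε / 2) * (2 * ((X / W : ℕ) : ℝ))) := by
        apply mul_le_mul_of_nonneg_left _ hφ
        apply mul_le_mul hε'2 h5 (by positivity) (by positivity)
    _ = ε * ((Nat.totient W * (X / W) : ℕ) : ℝ) := by push_cast; ring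
    _ ≤ ε * (rough w X).card := mul_le_mul_of_nonneg_left h4 hε.le

end Pool.Agent.H563.RG
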